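import Pool.Agent.W_MP_2ea9c5_h26.Defs

namespace Pool.Agent.W_MP_2ea9c5_h26

open Finset

variable {α : Type} [Fintype α] [PartialOrder α] {t : ℕ}

open Classical in
theorem sum_family {ι : Type} [Fintype ι] (F : ι → α → Option (Fin t)) (c : ι → ℝ)
    (Q : (α → Option (Fin t)) → Prop) [DecidablePred Q] :
    (∑ f, if Q f then (∑ i, if F i = f then c i else 0) else 0) = ∑ i, if Q (F i) then c i else 0 := by
  have h1 : ∀ f : α → Option (Fin t), (if Q f then (∑ i, if F i = f then c i else 0) else 0) =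
      ∑ i, if F i = f then (if Q (F i) then c i else 0) else 0 := by
    intro f
    by_cases hQ : Q f
    · rw [if_pos hQ]
      refine Finset.sum_congr rfl fun i _ => ?_
      by_cases h : F i = f
      · rw [if_pos h, if_pos h, h, if_pos hQ]
      · rw [if_neg h, if_neg h]
    · rw [if_neg hQ]
      symm
      refine Finset.sum_eq_zero fun i _ => ?_
      by_cases h : F i = f
      · rw [if_pos h, h, if_neg hQ]
      · rw [if_neg h]
  rw [Finset.sum_congr rfl fun f _ => h1 f, Finset.sum_comm]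
  refine Finset.sum_congr rfl fun i _ => ?_
  rw [Finset.sum_ite_eq]
  simp

theorem load_nonneg {w : (α → Option (Fin t)) → ℝ} (hw : ∀ f, 0 ≤ w f) (x : α) : 0 ≤ load w x :=
  Finset.sum_nonneg fun f _ => by split_ifs <;> [exact hw f; exact le_rfl]

theorem locDim_le_of_realiser [Nonempty α] {w : (α → Option (Fin t)) → ℝ} (hw : IsLocRealiser t w)
    {L : ℝ} (h : ∀ x, load w x ≤ L) : locDim t α ≤ L := by
  refine csInf_le ⟨0, ?_⟩ ⟨w, hw, h⟩
  rintro c ⟨w', hw', hc⟩
  exact (load_nonneg hw'.nonneg (Classical.arbitrary α)).trans (hc _)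

open Classical in
theorem family_realiser {ι : Type} [Fintype ι] (F : ι → α → Option (Fin t)) (c : ι → ℝ)
    (hc : ∀ i, 0 ≤ c i) (hm : ∀ i, MonoPF (F i))
    (hcov : ∀ x y, ¬ y ≤ x → 1 ≤ ∑ i, if Sep (F i) x y then c i else 0) :
    IsLocRealiser t (fun f => ∑ i, if F i = f then c i else 0) := by
  constructor
  · intro f
    exact Finset.sum_nonneg fun i _ => by split_ifs <;> [exact hc i; exact le_rfl]
  · intro f hf
    obtain ⟨i, -, hi⟩ := Finset.exists_ne_zero_of_sum_ne_zero hf
    by_cases h : F i = f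
    · rw [← h]; exact hm i
    · rw [if_neg h] at hi; exact absurd rfl hi
  · intro x y hxy
    rw [sum_family F c fun f => Sep f x y]
    exact hcov x y hxy

open Classical in
theorem locDim_le_of_family [Nonempty α] {ι : Type} [Fintype ι] (F : ι → α → Option (Fin t))
    (c : ι → ℝ) (hc : ∀ i, 0 ≤ c i) (hm : ∀ i, MonoPF (F i))
    (hcov : ∀ x y, ¬ y ≤ x → 1 ≤ ∑ i, if Sep (F i) x y then c i else 0) {L : ℝ}
    (hL : ∀ x, (∑ i, if F i x ≠ none then c i else 0) ≤ L) : locDim t α ≤ L := by
  refine locDim_le_of_realiser (family_realiser F c hc hm hcov) fun x => ?_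
  unfold load
  rw [sum_family F c fun f => f x ≠ none]
  exact hL x

/-- There is a realiser (for `t ≥ 2`). -/
theorem exists_realiser (ht : 2 ≤ t) : ∃ c, ∃ w : (α → Option (Fin t)) → ℝ,
    IsLocRealiser t w ∧ ∀ x, load w x ≤ c := by
  classical
  let z0 : Fin t := ⟨0, by omega⟩
  let z1 : Fin t := ⟨1, by omega⟩
  have h01 : z0 < z1 := by simp [z0, z1, Fin.lt_def]
  let F : {p : α × α // ¬ p.2 ≤ p.1} → α → Option (Fin t) := fun p z =>
    if z = p.1.1 then some z0 else if z = p.1.2 then some z1 else none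
  have hF := family_realiser (t := t) F (fun _ => 1) (fun _ => zero_le_one) ?_ ?_
  · refine ⟨∑ x, load (fun f => ∑ i, if F i = f then (1 : ℝ) else 0) x, _, hF, fun x => ?_⟩
    exact Finset.single_le_sum (f := fun x => load (fun f => ∑ i, if F i = f then (1 : ℝ) else 0) x)
      (fun z _ => load_nonneg hF.nonneg z) (Finset.mem_univ x)
  · rintro ⟨⟨x, y⟩, hxy⟩ u v a b huv hu hv
    simp only [F] at hu hv
    by_cases hux : u = x
    · rw [if_pos hux] at hu
      have : a = z0 := (Option.some_inj.1 hu).symm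
      rw [this]
      exact Fin.le_def.2 (Nat.zero_le _)
    · rw [if_neg hux] at hu
      by_cases huy : u = y
      · rw [if_pos huy] at hu
        by_cases hvx : v = x
        · exfalso; apply hxy; rw [← huy, ← hvx]; exact huv
        · rw [if_neg hvx] at hv
          by_cases hvy : v = y
          · rw [if_pos hvy] at hv
            rw [← Option.some_inj.1 hu, ← Option.some_inj.1 hv]
          · rw [if_neg hvy] at hv; simp at hv
      · rw [if_neg huy] at hu; simp at hu
  · intro x y hxy
    have hne : y ≠ x := fun h => hxy h.le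
    have hsep : Sep (F ⟨(x, y), hxy⟩) x y := by
      refine ⟨z0, z1, ?_, ?_, h01⟩
      · simp [F]
      · simp [F, hne]
    calc (1 : ℝ) = if Sep (F ⟨(x, y), hxy⟩) x y then (1 : ℝ) else 0 := by rw [if_pos hsep]
      _ ≤ _ := Finset.single_le_sum (f := fun i => if Sep (F i) x y then (1 : ℝ) else 0)
        (fun i _ => by split_ifs <;> norm_num) (Finset.mem_univ _)

theorem le_locDim (ht : 2 ≤ t) {L : ℝ} (h : ∀ (w : (α → Option (Fin t)) → ℝ) (c : ℝ),
    IsLocRealiser t w → (∀ x, load w x ≤ c) → L ≤ c) : L ≤ locDim t α := by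
  refine le_csInf ?_ ?_
  · obtain ⟨c, w, hw⟩ := exists_realiser (α := α) ht
    exact ⟨c, w, hw⟩
  · rintro c ⟨w, hw, hc⟩
    exact h w c hw hc

end Pool.Agent.W_MP_2ea9c5_h26
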