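import Mathlib

/-!
Permutations avoiding a nested family of sets.
-/

namespace Pool.Agent.W_MP_2ea9c5_h26

open Finset Equiv

variable {V : Type} [Fintype V] [DecidableEq V]

/-- permutations `π` with `π b ∉ Q b` for `b ∈ S` -/
def avoidSet (Q : V → Finset V) (S : Finset V) : Finset (Perm V) :=
  univ.filter fun π => ∀ b ∈ S, π b ∉ Q b

theorem mem_avoidSet {Q : V → Finset V} {S : Finset V} {π : Perm V} :
    π ∈ avoidSet Q S ↔ ∀ b ∈ S, π b ∉ Q b := by
  simp [avoidSet]

theorem avoid_swap (Q : V → Finset V) (S : Finset V) (a : V) (ha : a ∉ S)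
    (hmin : ∀ x ∈ S, Q a ⊆ Q x) (v v0 : V) (hv0 : v0 ∈ Q a) :
    ((avoidSet Q S).filter fun π => π a = v).card ≤ ((avoidSet Q S).filter fun π => π a = v0).card := by
  refine Finset.card_le_card_of_injOn (fun π => Equiv.swap v v0 * π) ?_ ?_
  · intro π hπ
    simp only [Finset.coe_filter, Set.mem_setOf_eq, avoidSet, Finset.mem_filter, Finset.mem_univ, true_and] at hπ ⊢
    obtain ⟨h1, h2⟩ := hπ
    constructor
    · intro b hb
      have hne : π b ≠ v := by
        intro h
        have : b = a := π.injective (h.trans h2.symm)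
        exact ha (this ▸ hb)
      have hne0 : π b ≠ v0 := by
        intro h
        exact h1 b hb (h ▸ hmin b hb hv0)
      rw [Perm.mul_apply, Equiv.swap_apply_of_ne_of_ne hne hne0]
      exact h1 b hb
    · rw [Perm.mul_apply, h2, Equiv.swap_apply_left]
  · intro π _ π' _ h
    exact mul_left_cancel h

theorem avoid_card (Q : V → Finset V) (hQ : ∀ b b', Q b ⊆ Q b' ∨ Q b' ⊆ Q b) (S : Finset V) :
    ((avoidSet Q S).card : ℝ) ≤
      ((Fintype.card V).factorial : ℝ) * ∏ b ∈ S, (1 - ((Q b).card : ℝ) / Fintype.card V) := by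
  refine Finset.induction_on_min_value (fun b => (Q b).card) S ?_ ?_
  · simp only [Finset.prod_empty, mul_one]
    have : (avoidSet Q ∅).card ≤ (Fintype.card V).factorial := by
      rw [← Fintype.card_perm, ← Finset.card_univ]
      exact Finset.card_le_card (Finset.subset_univ _)
    exact_mod_cast this
  · intro a S ha hmin ih
    have hsub : ∀ x ∈ S, Q a ⊆ Q x := by
      intro x hx
      rcases hQ a x with h | h
      · exact h
      · exact (Finset.eq_of_subset_of_card_le h (hmin x hx)).symm.subset
    rcases isEmpty_or_nonempty V with hV | hV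
    · exact hV.elim a
    have hn : (0 : ℝ) < Fintype.card V := by exact_mod_cast Fintype.card_pos
    set M : ℝ := ((avoidSet Q S).card : ℝ) with hM
    have hMsum : M = ∑ v : V, (((avoidSet Q S).filter fun π => π a = v).card : ℝ) := by
      rw [hM, Finset.card_eq_sum_card_fiberwise (f := fun π : Perm V => π a) (t := univ)
        (fun _ _ => Finset.mem_coe.2 (Finset.mem_univ _))]
      push_cast
      rfl
    have hlow : ∀ v0 ∈ Q a, M / Fintype.card V ≤ (((avoidSet Q S).filter fun π => π a = v0).card : ℝ) := by
      intro v0 hv0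
      rw [div_le_iff₀ hn, hMsum]
      calc ∑ v : V, (((avoidSet Q S).filter fun π => π a = v).card : ℝ)
          ≤ ∑ _v : V, (((avoidSet Q S).filter fun π => π a = v0).card : ℝ) :=
            Finset.sum_le_sum fun v _ => by exact_mod_cast avoid_swap Q S a ha hsub v v0 hv0
        _ = _ := by rw [Finset.sum_const, Finset.card_univ, nsmul_eq_mul, mul_comm]
    have hin : (avoidSet Q (insert a S)).card + ((avoidSet Q S).filter fun π => π a ∈ Q a).card =
        (avoidSet Q S).card := by
      have h1 : avoidSet Q (insert a S) = (avoidSet Q S).filter fun π => ¬ π a ∈ Q a := by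
        ext π
        simp only [avoidSet, Finset.mem_filter, Finset.mem_univ, true_and, Finset.mem_insert,
          forall_eq_or_imp]
        tauto
      rw [h1, add_comm]
      exact Finset.card_filter_add_card_filter_not _
    have hfib : (((avoidSet Q S).filter fun π => π a ∈ Q a).card : ℝ) =
        ∑ v ∈ Q a, (((avoidSet Q S).filter fun π => π a = v).card : ℝ) := by
      rw [Finset.card_eq_sum_card_fiberwise (s := (avoidSet Q S).filter fun π => π a ∈ Q a)
        (f := fun π : Perm V => π a) (t := Q a)
        (fun π hπ => (Finset.mem_filter.1 (Finset.mem_coe.1 hπ)).2)]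
      push_cast
      refine Finset.sum_congr rfl fun v hv => ?_
      congr 2
      ext π
      simp only [Finset.mem_filter]
      constructor
      · rintro ⟨⟨h1, -⟩, h2⟩; exact ⟨h1, h2⟩
      · rintro ⟨h1, h2⟩; exact ⟨⟨h1, h2 ▸ hv⟩, h2⟩
    have hlow2 : ((Q a).card : ℝ) * (M / Fintype.card V) ≤
        (((avoidSet Q S).filter fun π => π a ∈ Q a).card : ℝ) := by
      rw [hfib, ← nsmul_eq_mul, ← Finset.sum_const]
      exact Finset.sum_le_sum hlow
    have hin' : ((avoidSet Q (insert a S)).card : ℝ) =
        M - (((avoidSet Q S).filter fun π => π a ∈ Q a).card : ℝ) := by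
      rw [hM, ← hin]
      push_cast
      ring
    have hq1 : ((Q a).card : ℝ) / Fintype.card V ≤ 1 := by
      rw [div_le_one hn]
      exact_mod_cast Finset.card_le_univ _
    rw [Finset.prod_insert ha]
    calc ((avoidSet Q (insert a S)).card : ℝ) ≤ M * (1 - ((Q a).card : ℝ) / Fintype.card V) := by
          rw [hin']
          have : M * (1 - ((Q a).card : ℝ) / Fintype.card V) =
            M - ((Q a).card : ℝ) * (M / Fintype.card V) := by ring
          rw [this]
          linarith
      _ ≤ (((Fintype.card V).factorial : ℝ) * ∏ b ∈ S, (1 - ((Q b).card : ℝ) / Fintype.card V)) *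
          (1 - ((Q a).card : ℝ) / Fintype.card V) :=
          mul_le_mul_of_nonneg_right ih (by linarith)
      _ = _ := by ring

/-- Exponential form. -/
theorem avoid_card_exp (Q : V → Finset V) (hQ : ∀ b b', Q b ⊆ Q b' ∨ Q b' ⊆ Q b) :
    ((avoidSet Q univ).card : ℝ) ≤
      ((Fintype.card V).factorial : ℝ) * Real.exp (-((∑ b, (Q b).card : ℕ) : ℝ) / Fintype.card V) := by
  refine (avoid_card Q hQ univ).trans ?_
  refine mul_le_mul_of_nonneg_left ?_ (Nat.cast_nonneg _)
  have h1 : ∏ b, (1 - ((Q b).card : ℝ) / Fintype.card V) ≤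
      ∏ b, Real.exp (-(((Q b).card : ℝ) / Fintype.card V)) := by
    refine Finset.prod_le_prod (fun b _ => ?_) fun b _ => Real.one_sub_le_exp_neg _
    rcases isEmpty_or_nonempty V with hV | hV
    · exact hV.elim b
    have hn : (0 : ℝ) < Fintype.card V := by exact_mod_cast Fintype.card_pos
    have : ((Q b).card : ℝ) / Fintype.card V ≤ 1 := by
      rw [div_le_one hn]
      exact_mod_cast Finset.card_le_univ _
    linarith
  refine h1.trans (le_of_eq ?_)
  rw [← Real.exp_sum]
  congr 1
  rw [Finset.sum_neg_distrib, ← Finset.sum_div]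
  push_cast
  ring

end Pool.Agent.W_MP_2ea9c5_h26
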