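import Pool.Agent.W_MP_2ea9c5_h26.Defs
import Pool.Agent.W_MP_2ea9c5_h26.Perm

/-!
There are `Δ` permutations such that every monotone partial function of the resulting poset of
height two separates few pairs in the wrong direction.
-/

namespace Pool.Agent.W_MP_2ea9c5_h26

open Finset Equiv

variable {n t Δ : ℕ}

open Classical in
/-- the maximal elements `a` with `g a < g b` -/
noncomputable def QQ (g : Fin n ⊕ Fin n → Option (Fin t)) (b : Fin n) : Finset (Fin n) :=
  univ.filter fun a => Sep g (Sum.inr a) (Sum.inl b)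

/-- the size of the domain -/
def dm (g : Fin n ⊕ Fin n → Option (Fin t)) : ℕ := (univ.filter fun x => g x ≠ none).card

theorem mem_QQ {g : Fin n ⊕ Fin n → Option (Fin t)} {a b : Fin n} :
    a ∈ QQ g b ↔ Sep g (Sum.inr a) (Sum.inl b) := by
  simp [QQ]

theorem QQ_chain (g : Fin n ⊕ Fin n → Option (Fin t)) (b b' : Fin n) :
    QQ g b ⊆ QQ g b' ∨ QQ g b' ⊆ QQ g b := by
  rcases hb : g (Sum.inl b) with _ | v
  · left
    intro a ha
    obtain ⟨x, y, -, hy, -⟩ := mem_QQ.1 ha
    rw [hb] at hy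
    simp at hy
  · rcases hb' : g (Sum.inl b') with _ | v'
    · right
      intro a ha
      obtain ⟨x, y, -, hy, -⟩ := mem_QQ.1 ha
      rw [hb'] at hy
      simp at hy
    · rcases le_total v v' with h | h
      · left
        intro a ha
        obtain ⟨x, y, hx, hy, hlt⟩ := mem_QQ.1 ha
        rw [hb] at hy
        have : v = y := Option.some_inj.1 hy
        exact mem_QQ.2 ⟨x, v', hx, hb', (this ▸ hlt).trans_le h⟩
      · right
        intro a ha
        obtain ⟨x, y, hx, hy, hlt⟩ := mem_QQ.1 ha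
        rw [hb'] at hy
        have : v' = y := Option.some_inj.1 hy
        exact mem_QQ.2 ⟨x, v, hx, hb, (this ▸ hlt).trans_le h⟩

theorem dm_eq (g : Fin n ⊕ Fin n → Option (Fin t)) :
    dm g = (univ.filter fun b : Fin n => g (Sum.inl b) ≠ none).card +
      (univ.filter fun a : Fin n => g (Sum.inr a) ≠ none).card := by
  unfold dm
  rw [Finset.card_filter, Finset.card_filter, Finset.card_filter, Fintype.sum_sum_type]

theorem sum_QQ_le (g : Fin n ⊕ Fin n → Option (Fin t)) :
    ∑ b, (QQ g b).card ≤ (univ.filter fun b : Fin n => g (Sum.inl b) ≠ none).card *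
      (univ.filter fun a : Fin n => g (Sum.inr a) ≠ none).card := by
  classical
  rw [Finset.card_filter, Finset.sum_mul]
  refine Finset.sum_le_sum fun b _ => ?_
  by_cases hb : g (Sum.inl b) ≠ none
  · rw [if_pos hb, one_mul]
    refine Finset.card_le_card fun a ha => ?_
    obtain ⟨x, y, hx, -, -⟩ := mem_QQ.1 ha
    simp [hx]
  · rw [if_neg hb, zero_mul]
    push Not at hb
    have : QQ g b = ∅ := by
      rw [Finset.eq_empty_iff_forall_notMem]
      intro a ha
      obtain ⟨x, y, -, hy, -⟩ := mem_QQ.1 ha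
      rw [hb] at hy
      simp at hy
    rw [this, Finset.card_empty]

/-- If `g` is bad its domain is large. -/
theorem two_mul_lt {K : ℝ} {g : Fin n ⊕ Fin n → Option (Fin t)}
    (hbad : K * dm g < ((∑ b, (QQ g b).card : ℕ) : ℝ)) : 2 * K < dm g := by
  rcases lt_or_ge K 0 with hK | hK
  · have : (0 : ℝ) ≤ dm g := Nat.cast_nonneg _
    linarith
  set β : ℝ := ((univ.filter fun b : Fin n => g (Sum.inl b) ≠ none).card : ℝ) with hβ
  set α : ℝ := ((univ.filter fun a : Fin n => g (Sum.inr a) ≠ none).card : ℝ) with hα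
  have h1 : (dm g : ℝ) = β + α := by rw [dm_eq]; push_cast; rfl
  have h2 : ((∑ b, (QQ g b).card : ℕ) : ℝ) ≤ β * α := by
    have h := (Nat.cast_le (α := ℝ)).2 (sum_QQ_le g)
    rw [Nat.cast_mul] at h
    exact h
  have hβ0 : 0 ≤ β := Nat.cast_nonneg _
  have hα0 : 0 ≤ α := Nat.cast_nonneg _
  rw [h1] at hbad ⊢
  have h3 : K * (β + α) < β * α := hbad.trans_le h2
  have hαK : K < α := by
    by_contra hc
    push Not at hc
    nlinarith [mul_nonneg hK hα0]
  have hβK : K < β := by
    by_contra hc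
    push Not at hc
    nlinarith [mul_nonneg hK hβ0]
  linarith

theorem sum_exp_dm (x : ℝ) :
    ∑ g : Fin n ⊕ Fin n → Option (Fin t), x ^ dm g = (1 + t * x) ^ (2 * n) := by
  classical
  let h : Option (Fin t) → ℝ := fun v => if v ≠ none then x else 1
  have h1 : ∀ g : Fin n ⊕ Fin n → Option (Fin t), x ^ dm g = ∏ z, h (g z) := by
    intro g
    unfold dm
    simp only [h]
    rw [Finset.prod_ite, Finset.prod_const, Finset.prod_const, one_pow, mul_one]
  rw [Finset.sum_congr rfl fun g _ => h1 g]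
  have h2 : ∑ v, h v = 1 + t * x := by
    rw [Fintype.sum_option]
    simp [h]
  have h3 := Finset.prod_univ_sum (fun _ : Fin n ⊕ Fin n => (univ : Finset (Option (Fin t)))) (fun _ v => h v)
  rw [Fintype.piFinset_univ] at h3
  rw [← h3]
  simp only [h2]
  rw [Finset.prod_const, Finset.card_univ, Fintype.card_sum, Fintype.card_fin, two_mul]

/-- The number of partial functions with domain of size `D`. -/
theorem card_dm_le (s D : ℕ) (hn : 0 < n) (hs : 0 < s) (hD : 0 < D) :
    ((univ.filter fun g : Fin n ⊕ Fin n → Option (Fin s) => dm g = D).card : ℝ) ≤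
      (Real.exp 1 * (2 * n * s / D)) ^ D := by
  have hn' : (0 : ℝ) < n := by exact_mod_cast hn
  have hs' : (0 : ℝ) < s := by exact_mod_cast hs
  have hD' : (0 : ℝ) < D := by exact_mod_cast hD
  set x : ℝ := D / (2 * n * s) with hx
  have hx0 : 0 < x := by positivity
  have h1 : ((univ.filter fun g : Fin n ⊕ Fin n → Option (Fin s) => dm g = D).card : ℝ) * x ^ D ≤
      Real.exp D := by
    calc ((univ.filter fun g : Fin n ⊕ Fin n → Option (Fin s) => dm g = D).card : ℝ) * x ^ D
        = ∑ g ∈ univ.filter (fun g : Fin n ⊕ Fin n → Option (Fin s) => dm g = D), x ^ dm g := by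
          rw [← nsmul_eq_mul, ← Finset.sum_const]
          refine Finset.sum_congr rfl fun g hg => ?_
          rw [(Finset.mem_filter.1 hg).2]
      _ ≤ ∑ g : Fin n ⊕ Fin n → Option (Fin s), x ^ dm g :=
          Finset.sum_le_sum_of_subset_of_nonneg (Finset.subset_univ _) fun g _ _ => by positivity
      _ = (1 + s * x) ^ (2 * n) := sum_exp_dm x
      _ ≤ Real.exp (s * x) ^ (2 * n) := by
          refine pow_le_pow_left₀ (by positivity) ?_ _
          have := Real.add_one_le_exp (s * x)
          linarith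
      _ = Real.exp D := by
          rw [← Real.exp_nat_mul]
          congr 1
          rw [hx]
          push_cast
          field_simp
  have h2 : Real.exp D = (Real.exp 1 * (2 * n * s / D)) ^ D * x ^ D := by
    rw [← mul_pow]
    have : Real.exp 1 * (2 * n * s / D) * x = Real.exp 1 := by rw [hx]; field_simp
    rw [this, ← Real.exp_nat_mul, mul_one]
  rw [h2] at h1
  exact le_of_mul_le_mul_right h1 (by positivity)

/-- number of elements of the domain with value below `v` -/
def below (g : Fin n ⊕ Fin n → Option (Fin t)) (v : Fin t) : ℕ :=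
  (univ.filter fun x => ∃ a ∈ g x, a < v).card

theorem below_mono (g : Fin n ⊕ Fin n → Option (Fin t)) {u v : Fin t} (h : u ≤ v) :
    below g u ≤ below g v := by
  refine Finset.card_le_card fun x hx => ?_
  obtain ⟨a, ha, hlt⟩ := (Finset.mem_filter.1 hx).2
  exact Finset.mem_filter.2 ⟨Finset.mem_univ _, a, ha, hlt.trans_le h⟩

theorem below_lt_dm (g : Fin n ⊕ Fin n → Option (Fin t)) {x : Fin n ⊕ Fin n} {v : Fin t}
    (hx : g x = some v) : below g v < dm g := by
  refine Finset.card_lt_card (Finset.ssubset_iff_of_subset ?_ |>.2 ⟨x, ?_, ?_⟩)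
  · intro y hy
    obtain ⟨a, ha, -⟩ := (Finset.mem_filter.1 hy).2
    refine Finset.mem_filter.2 ⟨Finset.mem_univ _, ?_⟩
    rw [Option.mem_def.1 ha]
    simp
  · exact Finset.mem_filter.2 ⟨Finset.mem_univ _, by rw [hx]; simp⟩
  · intro hy
    obtain ⟨a, ha, hlt⟩ := (Finset.mem_filter.1 hy).2
    rw [hx] at ha
    have : v = a := Option.some_inj.1 ha
    exact absurd hlt (by rw [this]; exact lt_irrefl a)

/-- coarse levels -/
def lev (s : ℕ) (hs : 0 < s) (g : Fin n ⊕ Fin n → Option (Fin t)) (v : Fin t) : Fin s :=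
  ⟨min (below g v * s / dm g) (s - 1), by omega⟩

/-- the coarse function -/
def coarse (s : ℕ) (hs : 0 < s) (g : Fin n ⊕ Fin n → Option (Fin t)) : Fin n ⊕ Fin n → Option (Fin s) :=
  fun x => (g x).map (lev s hs g)

theorem lev_mono {s : ℕ} (hs : 0 < s) (g : Fin n ⊕ Fin n → Option (Fin t)) {u v : Fin t} (h : u ≤ v) :
    lev s hs g u ≤ lev s hs g v := by
  rw [Fin.le_def]
  exact min_le_min (Nat.div_le_div_right (Nat.mul_le_mul_right s (below_mono g h))) le_rfl

theorem dm_coarse {s : ℕ} (hs : 0 < s) (g : Fin n ⊕ Fin n → Option (Fin t)) :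
    dm (coarse s hs g) = dm g := by
  unfold dm coarse
  congr 1
  ext x
  rcases h : g x with _ | v <;> simp [h]

theorem sep_coarse {s : ℕ} (hs : 0 < s) {g : Fin n ⊕ Fin n → Option (Fin t)} {x y : Fin n ⊕ Fin n}
    (h : Sep (coarse s hs g) x y) : Sep g x y := by
  obtain ⟨a, b, ha, hb, hlt⟩ := h
  obtain ⟨u, hu, rfl⟩ := Option.map_eq_some_iff.1 ha
  obtain ⟨v, hv, rfl⟩ := Option.map_eq_some_iff.1 hb
  refine ⟨u, v, hu, hv, ?_⟩
  by_contra hc
  exact absurd hlt (not_lt.2 (lev_mono hs g (not_lt.1 hc)))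

theorem lev_val {s : ℕ} (hs : 0 < s) {g : Fin n ⊕ Fin n → Option (Fin t)} {x : Fin n ⊕ Fin n}
    {v : Fin t} (hx : g x = some v) : (lev s hs g v : ℕ) = below g v * s / dm g := by
  have h1 := below_lt_dm g hx
  have h2 : below g v * s / dm g < s := by
    rw [Nat.div_lt_iff_lt_mul (by omega)]
    nlinarith
  unfold lev
  simp only
  omega

/-- few pairs are lost -/
theorem lost {s : ℕ} (hs : 0 < s) (g : Fin n ⊕ Fin n → Option (Fin t)) (b : Fin n) :
    (QQ g b \ QQ (coarse s hs g) b).card * s ≤ dm g := by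
  classical
  set L := QQ g b \ QQ (coarse s hs g) b with hL
  rcases Finset.eq_empty_or_nonempty L with hE | hne
  · rw [hE]; simp
  -- the value at `b`
  obtain ⟨a1, ha1⟩ := hne
  obtain ⟨-, v, -, hv, -⟩ := mem_QQ.1 (Finset.mem_sdiff.1 ha1).1
  have hval : ∀ a ∈ L, ∃ u, g (Sum.inr a) = some u ∧ u < v := by
    intro a ha
    obtain ⟨u, v', hu, hv', hlt⟩ := mem_QQ.1 (Finset.mem_sdiff.1 ha).1
    rw [hv] at hv'
    have : v = v' := Option.some_inj.1 hv'
    exact ⟨u, hu, this ▸ hlt⟩
  -- the smallest value on `L`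
  obtain ⟨a0, ha0, hmin⟩ := Finset.exists_min_image L (fun a => (g (Sum.inr a)).elim 0 fun u => (u : ℕ))
    ⟨a1, ha1⟩
  obtain ⟨u0, hu0, hlt0⟩ := hval a0 ha0
  have hmin' : ∀ a ∈ L, ∃ u, g (Sum.inr a) = some u ∧ u0 ≤ u ∧ u < v := by
    intro a ha
    obtain ⟨u, hu, hlt⟩ := hval a ha
    have := hmin a ha
    rw [hu0, hu] at this
    exact ⟨u, hu, Fin.le_def.2 this, hlt⟩
  have hcount : below g u0 + L.card ≤ below g v := by
    unfold below
    have h1 : L.card = (L.image (Sum.inr : Fin n → Fin n ⊕ Fin n)).card :=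
      (Finset.card_image_of_injective _ Sum.inr_injective).symm
    rw [h1, ← Finset.card_union_of_disjoint]
    · refine Finset.card_le_card fun x hx => ?_
      rcases Finset.mem_union.1 hx with hx | hx
      · obtain ⟨a, ha, hlt⟩ := (Finset.mem_filter.1 hx).2
        exact Finset.mem_filter.2 ⟨Finset.mem_univ _, a, ha, hlt.trans hlt0⟩
      · obtain ⟨a, ha, rfl⟩ := Finset.mem_image.1 hx
        obtain ⟨u, hu, -, hlt⟩ := hmin' a ha
        exact Finset.mem_filter.2 ⟨Finset.mem_univ _, u, hu, hlt⟩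
    · rw [Finset.disjoint_left]
      intro x hx hx'
      obtain ⟨a, ha, rfl⟩ := Finset.mem_image.1 hx'
      obtain ⟨u, hu, hle, -⟩ := hmin' a ha
      obtain ⟨u', hu', hlt'⟩ := (Finset.mem_filter.1 hx).2
      rw [hu] at hu'
      have : u = u' := Option.some_inj.1 hu'
      exact absurd hlt' (not_lt.2 (this ▸ hle))
  have hDpos : 0 < dm g := lt_of_le_of_lt (Nat.zero_le _) (below_lt_dm g hv)
  have heq : below g v * s / dm g ≤ below g u0 * s / dm g := by
    rw [← lev_val hs hv, ← lev_val hs hu0]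
    by_contra hc
    push Not at hc
    refine (Finset.mem_sdiff.1 ha0).2 (mem_QQ.2 ⟨lev s hs g u0, lev s hs g v, ?_, ?_, ?_⟩)
    · unfold coarse; rw [hu0]; rfl
    · unfold coarse; rw [hv]; rfl
    · exact Fin.lt_def.2 hc
  have h3 := Nat.div_add_mod (below g v * s) (dm g)
  have h4 := Nat.mod_lt (below g v * s) hDpos
  have h5 := Nat.div_mul_le_self (below g u0 * s) (dm g)
  have h6 : dm g * (below g v * s / dm g) ≤ below g u0 * s := by
    calc dm g * (below g v * s / dm g) ≤ dm g * (below g u0 * s / dm g) := Nat.mul_le_mul_left _ heq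
      _ = below g u0 * s / dm g * dm g := mul_comm _ _
      _ ≤ _ := h5
  have h7 : (below g u0 + L.card) * s ≤ below g v * s := Nat.mul_le_mul_right s hcount
  rw [add_mul] at h7
  omega

theorem sum_lost {s : ℕ} (hs : 0 < s) (g : Fin n ⊕ Fin n → Option (Fin t)) :
    ((∑ b, (QQ g b).card : ℕ) : ℝ) ≤
      ((∑ b, (QQ (coarse s hs g) b).card : ℕ) : ℝ) + dm g * ((dm g : ℝ) / s) := by
  classical
  have hs' : (0 : ℝ) < s := by exact_mod_cast hs
  have h1 : ∀ b, ((QQ g b).card : ℝ) ≤ (QQ (coarse s hs g) b).card +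
      (if g (Sum.inl b) ≠ none then (dm g : ℝ) / s else 0) := by
    intro b
    by_cases hb : g (Sum.inl b) ≠ none
    · rw [if_pos hb]
      have h2 : (QQ g b).card ≤ (QQ (coarse s hs g) b).card + (QQ g b \ QQ (coarse s hs g) b).card := by
        calc (QQ g b).card ≤ (QQ (coarse s hs g) b ∪ (QQ g b \ QQ (coarse s hs g) b)).card := by
              refine Finset.card_le_card fun a ha => ?_
              by_cases h : a ∈ QQ (coarse s hs g) b
              · exact Finset.mem_union_left _ h
              · exact Finset.mem_union_right _ (Finset.mem_sdiff.2 ⟨ha, h⟩)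
          _ ≤ _ := Finset.card_union_le _ _
      have h3 : ((QQ g b \ QQ (coarse s hs g) b).card : ℝ) ≤ dm g / s := by
        rw [le_div_iff₀ hs']
        exact_mod_cast lost hs g b
      have h4 : ((QQ g b).card : ℝ) ≤ (QQ (coarse s hs g) b).card +
          ((QQ g b \ QQ (coarse s hs g) b).card : ℝ) := by exact_mod_cast h2
      linarith
    · rw [if_neg hb, add_zero]
      push Not at hb
      have : QQ g b = ∅ := by
        rw [Finset.eq_empty_iff_forall_notMem]
        intro a ha
        obtain ⟨x, y, -, hy, -⟩ := mem_QQ.1 ha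
        rw [hb] at hy
        simp at hy
      rw [this, Finset.card_empty]
      simp
  push_cast
  refine (Finset.sum_le_sum fun b _ => h1 b).trans ?_
  rw [Finset.sum_add_distrib]
  refine add_le_add le_rfl ?_
  rw [← Finset.sum_filter, Finset.sum_const, nsmul_eq_mul]
  refine mul_le_mul_of_nonneg_right ?_ (by positivity)
  have h5 := dm_eq g
  have h6 : (univ.filter fun b : Fin n => g (Sum.inl b) ≠ none).card ≤ dm g := by omega
  exact_mod_cast h6

/-- **Main existence lemma.** The parameter `Λ` is slightly larger than `log Δ`. -/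
theorem exists_perms (hn : 0 < n) (hΔ : 1 ≤ Δ) {η Λ : ℝ} (hη : 0 < η) (hη1 : η ≤ 1) (hΛ : 0 < Λ)
    (hρ : Real.exp 1 * (4 * Δ / (η * Λ)) * Real.exp (-((1 - η) * Λ)) ≤ 1 / 2) :
    ∃ σ : Fin Δ → Perm (Fin n), ∀ (t : ℕ) (g : Fin n ⊕ Fin n → Option (Fin t)),
      (∀ i b, σ i b ∉ QQ g b) → ((∑ b, (QQ g b).card : ℕ) : ℝ) ≤ (n * Λ / Δ) * dm g := by
  classical
  set K : ℝ := n * Λ / Δ with hK
  by_contra hcon
  push Not at hcon
  have hn' : (0 : ℝ) < n := by exact_mod_cast hn
  have hΔ' : (0 : ℝ) < Δ := by exact_mod_cast hΔ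
  have hK0 : 0 < K := by positivity
  have hηK : 0 < η * K := by positivity
  let sD : ℕ → ℕ := fun D => ⌈(D : ℝ) / (η * K)⌉₊
  let bad : (D : ℕ) → Finset (Fin n ⊕ Fin n → Option (Fin (sD D))) := fun D =>
    univ.filter fun g => dm g = D ∧ 0 < D ∧ η * K ≤ D ∧
      (1 - η) * K * D ≤ ((∑ b, (QQ g b).card : ℕ) : ℝ)
  have hcov : (univ : Finset (Fin Δ → Perm (Fin n))) ⊆
      (Finset.range (2 * n + 1)).biUnion fun D => (bad D).biUnion fun g =>
        Fintype.piFinset fun _ : Fin Δ => avoidSet (QQ g) univ := by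
    intro σ _
    obtain ⟨t, g, hg1, hg2⟩ := hcon σ
    have h2K := two_mul_lt hg2
    have hD0 : (0 : ℝ) < dm g := by linarith
    have hDn : 0 < dm g := by exact_mod_cast hD0
    have hs0 : 0 < sD (dm g) := Nat.ceil_pos.2 (by positivity)
    have hs1 : (dm g : ℝ) / (η * K) ≤ sD (dm g) := Nat.le_ceil _
    have hs0' : (0 : ℝ) < sD (dm g) := by exact_mod_cast hs0
    rw [Finset.mem_biUnion]
    refine ⟨dm g, ?_, ?_⟩
    · rw [Finset.mem_range, Nat.lt_succ_iff]
      unfold dm
      refine (Finset.card_filter_le _ _).trans ?_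
      rw [Finset.card_univ, Fintype.card_sum, Fintype.card_fin]
      omega
    rw [Finset.mem_biUnion]
    refine ⟨coarse (sD (dm g)) hs0 g, ?_, ?_⟩
    · refine Finset.mem_filter.2 ⟨Finset.mem_univ _, dm_coarse hs0 g, hDn, ?_, ?_⟩
      · nlinarith
      · have h3 := sum_lost hs0 g
        have h4 : (dm g : ℝ) / sD (dm g) ≤ η * K := by
          rw [div_le_iff₀ hs0']
          rw [div_le_iff₀ hηK] at hs1
          linarith
        have h5 := mul_le_mul_of_nonneg_left h4 hD0.le
        nlinarith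
    · rw [Fintype.mem_piFinset]
      intro i
      refine mem_avoidSet.2 fun b _ hmem => hg1 i b ?_
      exact mem_QQ.2 (sep_coarse hs0 (mem_QQ.1 hmem))
  set ρ : ℝ := Real.exp 1 * (4 * Δ / (η * Λ)) * Real.exp (-((1 - η) * Λ)) with hρdef
  have hρ0 : 0 ≤ ρ := by positivity
  have hcard : ((n.factorial : ℝ)) ^ Δ ≤
      ∑ D ∈ Finset.range (2 * n + 1), ∑ g ∈ bad D, ((avoidSet (QQ g) univ).card : ℝ) ^ Δ := by
    have h1 := (Finset.card_le_card hcov).trans (Finset.card_biUnion_le.trans
      (Finset.sum_le_sum fun D _ => Finset.card_biUnion_le))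
    rw [Finset.card_univ, Fintype.card_fun, Fintype.card_perm, Fintype.card_fin, Fintype.card_fin] at h1
    have h2 : ∀ (s : ℕ) (g : Fin n ⊕ Fin n → Option (Fin s)),
        (Fintype.piFinset fun _ : Fin Δ => avoidSet (QQ g) univ).card = (avoidSet (QQ g) univ).card ^ Δ := by
      intro s g
      rw [Fintype.card_piFinset, Finset.prod_const, Finset.card_univ, Fintype.card_fin]
    simp only [h2] at h1
    exact_mod_cast h1
  have hterm : ∀ D, ∀ g ∈ bad D, ((avoidSet (QQ g) univ).card : ℝ) ^ Δ ≤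
      (n.factorial : ℝ) ^ Δ * Real.exp (-((1 - η) * Λ)) ^ D := by
    intro D g hg
    have hg' : (1 - η) * K * D ≤ ((∑ b, (QQ g b).card : ℕ) : ℝ) := (Finset.mem_filter.1 hg).2.2.2.2
    have h1 := avoid_card_exp (QQ g) (QQ_chain g)
    rw [Fintype.card_fin] at h1
    have h2 := pow_le_pow_left₀ (Nat.cast_nonneg _) h1 Δ
    refine h2.trans ?_
    rw [mul_pow]
    refine mul_le_mul_of_nonneg_left ?_ (by positivity)
    rw [← Real.exp_nat_mul, ← Real.exp_nat_mul]
    apply Real.exp_le_exp.2
    rw [mul_div_assoc', div_le_iff₀ hn']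
    have h6 := mul_le_mul_of_nonneg_left hg' hΔ'.le
    have h7 : (Δ : ℝ) * ((1 - η) * K * D) = D * ((1 - η) * Λ) * n := by
      rw [hK]
      field_simp
    rw [h7] at h6
    linarith
  have hbadcard : ∀ D ∈ Finset.range (2 * n + 1), ((bad D).card : ℝ) * Real.exp (-((1 - η) * Λ)) ^ D ≤
      if D = 0 then 0 else ρ ^ D := by
    intro D _
    rcases Nat.eq_zero_or_pos D with rfl | hD
    · rw [if_pos rfl]
      have : bad 0 = ∅ := by
        rw [Finset.eq_empty_iff_forall_notMem]
        intro g hg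
        exact absurd (Finset.mem_filter.1 hg).2.2.1 (lt_irrefl 0)
      rw [this]
      simp
    rw [if_neg hD.ne']
    have hD' : (0 : ℝ) < D := by exact_mod_cast hD
    by_cases hηD : η * K ≤ D
    · have hs0 : 0 < sD D := Nat.ceil_pos.2 (by positivity)
      have hs2 : (sD D : ℝ) ≤ 2 * D / (η * K) := by
        have h8 : (sD D : ℝ) < D / (η * K) + 1 := Nat.ceil_lt_add_one (by positivity)
        have h9 : 1 ≤ D / (η * K) := by rw [le_div_iff₀ hηK]; linarith
        have h10 : 2 * D / (η * K) = D / (η * K) + D / (η * K) := by ring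
        linarith
      have h11 : ((bad D).card : ℝ) ≤ (Real.exp 1 * (4 * Δ / (η * Λ))) ^ D := by
        calc ((bad D).card : ℝ) ≤
            ((univ.filter fun g : Fin n ⊕ Fin n → Option (Fin (sD D)) => dm g = D).card : ℝ) := by
              have : bad D ⊆ univ.filter fun g : Fin n ⊕ Fin n → Option (Fin (sD D)) => dm g = D := by
                intro g hg
                exact Finset.mem_filter.2 ⟨Finset.mem_univ _, (Finset.mem_filter.1 hg).2.1⟩
              exact_mod_cast Finset.card_le_card this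
          _ ≤ (Real.exp 1 * (2 * n * sD D / D)) ^ D := card_dm_le (sD D) D hn hs0 hD
          _ ≤ (Real.exp 1 * (4 * Δ / (η * Λ))) ^ D := by
              refine pow_le_pow_left₀ (by positivity) ?_ D
              refine mul_le_mul_of_nonneg_left ?_ (Real.exp_nonneg _)
              rw [div_le_iff₀ hD']
              have h12 := mul_le_mul_of_nonneg_left hs2 (by positivity : (0 : ℝ) ≤ 2 * n)
              have h13 : 2 * (n : ℝ) * (2 * D / (η * K)) = 4 * Δ / (η * Λ) * D := by
                rw [hK]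
                field_simp
                ring
              linarith
      calc ((bad D).card : ℝ) * Real.exp (-((1 - η) * Λ)) ^ D
          ≤ (Real.exp 1 * (4 * Δ / (η * Λ))) ^ D * Real.exp (-((1 - η) * Λ)) ^ D :=
            mul_le_mul_of_nonneg_right h11 (by positivity)
        _ = ρ ^ D := by rw [← mul_pow]
    · have : bad D = ∅ := by
        rw [Finset.eq_empty_iff_forall_notMem]
        intro g hg
        exact hηD (Finset.mem_filter.1 hg).2.2.2.1
      rw [this]
      simp only [Finset.card_empty, Nat.cast_zero, zero_mul]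
      positivity
  have hgeo : ∑ D ∈ Finset.range (2 * n + 1), (if D = 0 then 0 else ρ ^ D) < 1 := by
    have h14 : ∀ N : ℕ, ∑ D ∈ Finset.range (N + 1), (if D = 0 then 0 else ρ ^ D) ≤ 1 - (1 / 2 : ℝ) ^ N := by
      intro N
      induction N with
      | zero => simp
      | succ N ih =>
        rw [Finset.sum_range_succ, if_neg (Nat.succ_ne_zero N)]
        have h15 : ρ ^ (N + 1) ≤ (1 / 2 : ℝ) ^ (N + 1) := pow_le_pow_left₀ hρ0 hρ _
        have h16 : (1 / 2 : ℝ) ^ (N + 1) = (1 / 2) ^ N * (1 / 2) := pow_succ _ _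
        linarith
    have h17 := h14 (2 * n)
    have h18 : (0 : ℝ) < (1 / 2 : ℝ) ^ (2 * n) := by positivity
    linarith
  have hfac : (0 : ℝ) < (n.factorial : ℝ) ^ Δ := by
    have : (0 : ℝ) < n.factorial := by exact_mod_cast Nat.factorial_pos n
    positivity
  have hfin : ∑ D ∈ Finset.range (2 * n + 1), ∑ g ∈ bad D, ((avoidSet (QQ g) univ).card : ℝ) ^ Δ ≤
      (n.factorial : ℝ) ^ Δ * ∑ D ∈ Finset.range (2 * n + 1), (if D = 0 then 0 else ρ ^ D) := by
    rw [Finset.mul_sum]
    refine Finset.sum_le_sum fun D hD => ?_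
    calc ∑ g ∈ bad D, ((avoidSet (QQ g) univ).card : ℝ) ^ Δ
        ≤ ∑ _g ∈ bad D, (n.factorial : ℝ) ^ Δ * Real.exp (-((1 - η) * Λ)) ^ D :=
          Finset.sum_le_sum (hterm D)
      _ = (n.factorial : ℝ) ^ Δ * (((bad D).card : ℝ) * Real.exp (-((1 - η) * Λ)) ^ D) := by
          rw [Finset.sum_const, nsmul_eq_mul]; ring
      _ ≤ _ := mul_le_mul_of_nonneg_left (hbadcard D hD) hfac.le
  have h19 := mul_lt_mul_of_pos_left hgeo hfac
  rw [mul_one] at h19
  exact absurd (hcard.trans hfin) (not_le.2 h19)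

end Pool.Agent.W_MP_2ea9c5_h26
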