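import Pool.Agent.W_MP_2ea9c5_h26.Basic
import Pool.Agent.W_MP_2ea9c5_h26.Union

/-!
The posets of height two given by permutations, and the lower bound.
-/

namespace Pool.Agent.W_MP_2ea9c5_h26

open Finset Equiv

/-- The carrier of the poset of height two with minimal elements `B` and maximal elements `A`. -/
def Bip {B A : Type} (_R : B → A → Prop) : Type := B ⊕ A

instance {B A : Type} (R : B → A → Prop) : PartialOrder (Bip R) where
  le x y := x = y ∨ ∃ b a, x = Sum.inl b ∧ y = Sum.inr a ∧ R b a
  le_refl x := Or.inl rfl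
  le_trans := by
    rintro x y z (rfl | ⟨b, a, hx, hy, h⟩) h2
    · exact h2
    · rcases h2 with rfl | ⟨b', a', hy', hz, h'⟩
      · exact Or.inr ⟨b, a, hx, hy, h⟩
      · rw [hy] at hy'
        exact absurd hy' (by simp)
  le_antisymm := by
    rintro x y (rfl | ⟨b, a, hx, hy, h⟩) h2
    · rfl
    · rcases h2 with h2 | ⟨b', a', hy', hz, h'⟩
      · exact h2.symm
      · rw [hy] at hy'
        exact absurd hy' (by simp)

instance {B A : Type} [Fintype B] [Fintype A] (R : B → A → Prop) : Fintype (Bip R) :=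
  inferInstanceAs (Fintype (B ⊕ A))

/-- minimal elements -/
def bmin {B A : Type} (R : B → A → Prop) (b : B) : Bip R := Sum.inl b

/-- maximal elements -/
def bmax {B A : Type} (R : B → A → Prop) (a : A) : Bip R := Sum.inr a

variable {B A : Type} {R : B → A → Prop}

theorem bip_cases (x : Bip R) : (∃ b, x = bmin R b) ∨ ∃ a, x = bmax R a := by
  rcases x with b | a
  · exact Or.inl ⟨b, rfl⟩
  · exact Or.inr ⟨a, rfl⟩

theorem bmin_le_bmax {b : B} {a : A} : bmin R b ≤ bmax R a ↔ R b a := by
  constructor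
  · rintro (h | ⟨b', a', h1, h2, h3⟩)
    · exact absurd h (by simp [bmin, bmax])
    · have e1 : b = b' := Sum.inl_injective h1
      have e2 : a = a' := Sum.inr_injective h2
      rw [e1, e2]; exact h3
  · intro h
    exact Or.inr ⟨b, a, rfl, rfl, h⟩

theorem bmax_le_iff {a : A} {x : Bip R} : bmax R a ≤ x ↔ x = bmax R a := by
  constructor
  · rintro (h | ⟨b', a', h1, -⟩)
    · exact h.symm
    · exact absurd h1 (by simp [bmax])
  · rintro rfl; exact le_rfl

theorem le_bmin_iff {b : B} {x : Bip R} : x ≤ bmin R b ↔ x = bmin R b := by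
  constructor
  · rintro (h | ⟨b', a', -, h2, -⟩)
    · exact h
    · exact absurd h2 (by simp [bmin])
  · rintro rfl; exact le_rfl

theorem bmin_ne_bmax {b : B} {a : A} : bmin R b ≠ bmax R a := by simp [bmin, bmax]

theorem bmin_inj {b b' : B} (h : bmin R b = bmin R b') : b = b' := Sum.inl_injective h

theorem bmax_inj {a a' : A} (h : bmax R a = bmax R a') : a = a' := Sum.inr_injective h

variable [Fintype A] [Fintype B]

theorem compDeg_bmin (b : B) (s : Finset A) (hs : ∀ a, R b a → a ∈ s) :
    compDeg (bmin R b) ≤ s.card := by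
  classical
  unfold compDeg
  calc _ ≤ (s.image (bmax R)).card := by
        refine Finset.card_le_card fun y hy => ?_
        obtain ⟨hne, h⟩ := (Finset.mem_filter.1 hy).2
        rcases bip_cases y with ⟨b', rfl⟩ | ⟨a, rfl⟩
        · exfalso
          rcases h with h | h
          · exact hne (le_bmin_iff.1 h).symm
          · exact hne (le_bmin_iff.1 h)
        · rcases h with h | h
          · exact Finset.mem_image.2 ⟨a, hs a (bmin_le_bmax.1 h), rfl⟩
          · exact absurd (bmax_le_iff.1 h) bmin_ne_bmax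
    _ ≤ s.card := Finset.card_image_le

theorem compDeg_bmin_eq (b : B) (s : Finset A) (hs : ∀ a, R b a ↔ a ∈ s) :
    compDeg (bmin R b) = s.card := by
  classical
  refine le_antisymm (compDeg_bmin b s fun a h => (hs a).1 h) ?_
  unfold compDeg
  rw [← Finset.card_image_of_injective s (f := bmax R) (fun a a' h => bmax_inj h)]
  refine Finset.card_le_card fun y hy => ?_
  obtain ⟨a, ha, rfl⟩ := Finset.mem_image.1 hy
  exact Finset.mem_filter.2 ⟨Finset.mem_univ _, bmin_ne_bmax.symm,
    Or.inl (bmin_le_bmax.2 ((hs a).2 ha))⟩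

theorem compDeg_bmax (a : A) (s : Finset B) (hs : ∀ b, R b a → b ∈ s) :
    compDeg (bmax R a) ≤ s.card := by
  classical
  unfold compDeg
  calc _ ≤ (s.image (bmin R)).card := by
        refine Finset.card_le_card fun y hy => ?_
        obtain ⟨hne, h⟩ := (Finset.mem_filter.1 hy).2
        rcases bip_cases y with ⟨b, rfl⟩ | ⟨a', rfl⟩
        · rcases h with h | h
          · exact absurd (bmax_le_iff.1 h) bmin_ne_bmax
          · exact Finset.mem_image.2 ⟨b, hs b (bmin_le_bmax.1 h), rfl⟩
        · exfalso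
          rcases h with h | h
          · exact hne (bmax_le_iff.1 h)
          · exact hne (bmax_le_iff.1 h).symm
    _ ≤ s.card := Finset.card_image_le

/-- The relation given by `Δ` permutations of `Fin n`, together with a disjoint star with `Δ`
leaves. -/
def RR {n Δ : ℕ} (σ : Fin Δ → Perm (Fin n)) : Fin n ⊕ Unit → Fin n ⊕ Fin Δ → Prop
  | Sum.inl b, Sum.inl a => ∃ i, σ i b = a
  | Sum.inr _, Sum.inr _ => True
  | _, _ => False

variable {n Δ t : ℕ}

theorem hasMaxDeg_RR (hΔ : 1 ≤ Δ) (σ : Fin Δ → Perm (Fin n)) : HasMaxDeg (Bip (RR σ)) Δ := by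
  classical
  constructor
  · intro x
    rcases bip_cases x with ⟨b, rfl⟩ | ⟨a, rfl⟩
    · rcases b with b | u
      · refine (compDeg_bmin (R := RR σ) (Sum.inl b)
          ((univ : Finset (Fin Δ)).image fun i => Sum.inl (σ i b)) ?_).trans ?_
        · rintro (a | j) h
          · obtain ⟨i, hi⟩ := h
            exact Finset.mem_image.2 ⟨i, Finset.mem_univ _, by rw [hi]⟩
          · exact absurd h id
        · exact Finset.card_image_le.trans (by simp)
      · refine (compDeg_bmin (R := RR σ) (Sum.inr u)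
          ((univ : Finset (Fin Δ)).image fun j => Sum.inr j) ?_).trans ?_
        · rintro (a | j) h
          · exact absurd h id
          · exact Finset.mem_image.2 ⟨j, Finset.mem_univ _, rfl⟩
        · exact Finset.card_image_le.trans (by simp)
    · rcases a with a | j
      · refine (compDeg_bmax (R := RR σ) (Sum.inl a)
          ((univ : Finset (Fin Δ)).image fun i => Sum.inl ((σ i).symm a)) ?_).trans ?_
        · rintro (b | u) h
          · obtain ⟨i, hi⟩ := h
            exact Finset.mem_image.2 ⟨i, Finset.mem_univ _, by rw [← hi]; simp⟩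
          · exact absurd h id
        · exact Finset.card_image_le.trans (by simp)
      · refine (compDeg_bmax (R := RR σ) (Sum.inr j) {Sum.inr ()} ?_).trans ?_
        · rintro (b | u) h
          · exact absurd h id
          · exact Finset.mem_singleton.2 rfl
        · simpa using hΔ
  · refine ⟨bmin _ (Sum.inr ()), ?_⟩
    rw [compDeg_bmin_eq (R := RR σ) (Sum.inr ()) ((univ : Finset (Fin Δ)).image fun j => Sum.inr j)]
    · rw [Finset.card_image_of_injective _ Sum.inr_injective]
      simp
    · rintro (a | j)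
      · constructor
        · intro h; exact absurd h id
        · intro h
          obtain ⟨j, -, hj⟩ := Finset.mem_image.1 h
          exact absurd hj (by simp)
      · exact ⟨fun _ => Finset.mem_image.2 ⟨j, Finset.mem_univ _, rfl⟩, fun _ => trivial⟩

/-- the embedding of the two layers -/
def emb (σ : Fin Δ → Perm (Fin n)) : Fin n ⊕ Fin n → Bip (RR σ)
  | Sum.inl b => bmin _ (Sum.inl b)
  | Sum.inr a => bmax _ (Sum.inl a)

theorem locDim_lower (hn : 0 < n) (hΔ : 1 ≤ Δ) {η Λ : ℝ} (hη : 0 < η) (hη1 : η ≤ 1) (hΛ : 0 < Λ)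
    (hρ : Real.exp 1 * (4 * Δ / (η * Λ)) * Real.exp (-((1 - η) * Λ)) ≤ 1 / 2) :
    ∃ σ : Fin Δ → Perm (Fin n), ∀ t : ℕ, 2 ≤ t →
    (1 - (Δ : ℝ) / n) * (Δ / (2 * Λ)) ≤ locDim t (Bip (RR σ)) := by
  classical
  obtain ⟨σ, hσ⟩ := exists_perms (n := n) hn hΔ hη hη1 hΛ hρ
  refine ⟨σ, fun t ht => le_locDim ht fun w c hw hc => ?_⟩
  have hn' : (0 : ℝ) < n := by exact_mod_cast hn
  have hΔ' : (0 : ℝ) < Δ := by exact_mod_cast hΔ
  set K : ℝ := n * Λ / Δ with hK
  have hK0 : 0 < K := by positivity
  let G : (Bip (RR σ) → Option (Fin t)) → Fin n ⊕ Fin n → Option (Fin t) := fun f z => f (emb σ z)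
  -- each function in the support separates few pairs
  have hQ : ∀ f, w f ≠ 0 → ((∑ b, (QQ (G f) b).card : ℕ) : ℝ) ≤ K * dm (G f) := by
    intro f hf
    refine hσ t (G f) fun i b hmem => ?_
    obtain ⟨x, y, hx, hy, hlt⟩ := mem_QQ.1 hmem
    have hle : bmin (RR σ) (Sum.inl b) ≤ bmax (RR σ) (Sum.inl (σ i b)) :=
      bmin_le_bmax.2 ⟨i, rfl⟩
    exact absurd (hw.mono f hf _ _ _ _ hle hy hx) (not_le.2 hlt)
  -- the pairs
  set S : Finset (Fin n × Fin n) := univ.filter fun p => ¬ ∃ i, σ i p.1 = p.2 with hS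
  have hScard : (n : ℝ) ^ 2 - n * Δ ≤ (S.card : ℝ) := by
    have h1 : (univ.filter fun p : Fin n × Fin n => ∃ i, σ i p.1 = p.2).card ≤ n * Δ := by
      calc _ ≤ ((univ : Finset (Fin n × Fin Δ)).image fun q => (q.1, σ q.2 q.1)).card := by
            refine Finset.card_le_card fun p hp => ?_
            obtain ⟨i, hi⟩ := (Finset.mem_filter.1 hp).2
            exact Finset.mem_image.2 ⟨(p.1, i), Finset.mem_univ _, by rw [hi]⟩
        _ ≤ (univ : Finset (Fin n × Fin Δ)).card := Finset.card_image_le
        _ = n * Δ := by simp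
    have h2 := Finset.card_filter_add_card_filter_not (s := (univ : Finset (Fin n × Fin n)))
      (fun p : Fin n × Fin n => ∃ i, σ i p.1 = p.2)
    rw [Finset.card_univ, Fintype.card_prod, Fintype.card_fin] at h2
    have h3 : (univ.filter fun p : Fin n × Fin n => ∃ i, σ i p.1 = p.2).card + S.card = n * n := h2
    have h4 : (((univ.filter fun p : Fin n × Fin n => ∃ i, σ i p.1 = p.2).card : ℕ) : ℝ) + S.card =
        n * n := by exact_mod_cast h3
    have h5 : (((univ.filter fun p : Fin n × Fin n => ∃ i, σ i p.1 = p.2).card : ℕ) : ℝ) ≤ n * Δ := by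
      exact_mod_cast h1
    nlinarith
  have hcov : ∀ p ∈ S, (1 : ℝ) ≤ ∑ f, if Sep f (bmax (RR σ) (Sum.inl p.2)) (bmin (RR σ) (Sum.inl p.1))
      then w f else 0 := by
    intro p hp
    refine hw.cover _ _ fun h => ?_
    exact (Finset.mem_filter.1 hp).2 (bmin_le_bmax.1 h)
  have hsum : (S.card : ℝ) ≤ ∑ f, w f * ((∑ b, (QQ (G f) b).card : ℕ) : ℝ) := by
    calc (S.card : ℝ) = ∑ p ∈ S, (1 : ℝ) := by simp
      _ ≤ ∑ p ∈ S, ∑ f, (if Sep f (bmax (RR σ) (Sum.inl p.2)) (bmin (RR σ) (Sum.inl p.1))
          then w f else 0) := Finset.sum_le_sum hcov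
      _ = ∑ f, ∑ p ∈ S, (if Sep f (bmax (RR σ) (Sum.inl p.2)) (bmin (RR σ) (Sum.inl p.1))
          then w f else 0) := Finset.sum_comm
      _ ≤ ∑ f, ∑ p : Fin n × Fin n,
          (if Sep f (bmax (RR σ) (Sum.inl p.2)) (bmin (RR σ) (Sum.inl p.1)) then w f else 0) := by
          refine Finset.sum_le_sum fun f _ => ?_
          refine Finset.sum_le_sum_of_subset_of_nonneg (Finset.subset_univ _) fun p _ _ => ?_
          split_ifs
          · exact hw.nonneg f
          · exact le_rfl
      _ = ∑ f, w f * ((∑ b, (QQ (G f) b).card : ℕ) : ℝ) := by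
          refine Finset.sum_congr rfl fun f _ => ?_
          rw [Fintype.sum_prod_type, Nat.cast_sum, Finset.mul_sum]
          refine Finset.sum_congr rfl fun b _ => ?_
          have : (QQ (G f) b).card = (univ.filter fun a : Fin n =>
              Sep f (bmax (RR σ) (Sum.inl a)) (bmin (RR σ) (Sum.inl b))).card := by
            unfold QQ
            congr 1
          rw [this, Finset.card_filter]
          push_cast
          rw [Finset.mul_sum]
          refine Finset.sum_congr rfl fun a _ => ?_
          split_ifs <;> simp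
  have hload : ∑ f, w f * (dm (G f) : ℝ) ≤ 2 * n * c := by
    calc ∑ f, w f * (dm (G f) : ℝ) = ∑ z : Fin n ⊕ Fin n, load w (emb σ z) := by
          unfold load
          rw [Finset.sum_comm]
          refine Finset.sum_congr rfl fun f _ => ?_
          unfold dm
          rw [Finset.card_filter]
          push_cast
          rw [Finset.mul_sum]
          refine Finset.sum_congr rfl fun z _ => ?_
          have : G f z = f (emb σ z) := rfl
          rw [this]
          split_ifs <;> simp
      _ ≤ ∑ _z : Fin n ⊕ Fin n, c := Finset.sum_le_sum fun z _ => hc _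
      _ = 2 * n * c := by
          rw [Finset.sum_const, Finset.card_univ, Fintype.card_sum, Fintype.card_fin, nsmul_eq_mul]
          push_cast
          ring
  have hchain : (n : ℝ) ^ 2 - n * Δ ≤ K * (2 * n * c) := by
    refine hScard.trans (hsum.trans ?_)
    calc ∑ f, w f * ((∑ b, (QQ (G f) b).card : ℕ) : ℝ) ≤ ∑ f, K * (w f * (dm (G f) : ℝ)) := by
          refine Finset.sum_le_sum fun f _ => ?_
          by_cases hf : w f = 0
          · rw [hf]; simp
          · have := mul_le_mul_of_nonneg_left (hQ f hf) (hw.nonneg f)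
            linarith
      _ = K * ∑ f, w f * (dm (G f) : ℝ) := by rw [Finset.mul_sum]
      _ ≤ K * (2 * n * c) := mul_le_mul_of_nonneg_left hload hK0.le
  have h6 : K * (2 * n * c) = (n : ℝ) ^ 2 * (2 * Λ * c / Δ) := by
    rw [hK]; field_simp
  rw [h6] at hchain
  have h7 : (n : ℝ) ^ 2 - n * Δ = (n : ℝ) ^ 2 * (1 - Δ / n) := by field_simp
  rw [h7] at hchain
  have h8 : 1 - (Δ : ℝ) / n ≤ 2 * Λ * c / Δ :=
    le_of_mul_le_mul_left hchain (by positivity)
  calc (1 - (Δ : ℝ) / n) * (Δ / (2 * Λ))
      ≤ (2 * Λ * c / Δ) * (Δ / (2 * Λ)) :=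
        mul_le_mul_of_nonneg_right h8 (by positivity)
    _ = c := by field_simp

end Pool.Agent.W_MP_2ea9c5_h26
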