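import Mathlib

/-!
MP_2ea9c5_co: fractional local `t`-dimension of finite posets of bounded degree. Definitions.
-/

namespace Pool.Agent.W_MP_2ea9c5_h26

open Finset

open Classical in
/-- A partial function `f : α ⇀ {0 < 1 < ... < t-1}` (`none` = undefined) is monotone if
`f x ≤ f y` whenever `x ≤ y` are in its domain. -/
def MonoPF {α : Type} [PartialOrder α] {t : ℕ} (f : α → Option (Fin t)) : Prop :=
  ∀ x y a b, x ≤ y → f x = some a → f y = some b → a ≤ b

/-- `x, y` are in the domain of `f` and `f x < f y`. -/
def Sep {α : Type} {t : ℕ} (f : α → Option (Fin t)) (x y : α) : Prop :=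
  ∃ a b, f x = some a ∧ f y = some b ∧ a < b

open Classical in
/-- A fractional local `t`-realiser of the finite poset `α`. -/
structure IsLocRealiser {α : Type} [Fintype α] [PartialOrder α] (t : ℕ)
    (w : (α → Option (Fin t)) → ℝ) : Prop where
  nonneg : ∀ f, 0 ≤ w f
  mono : ∀ f, w f ≠ 0 → MonoPF f
  cover : ∀ x y, ¬ y ≤ x → 1 ≤ ∑ f, if Sep f x y then w f else 0

open Classical in
/-- The total weight of the partial functions whose domain contains `x`. -/
noncomputable def load {α : Type} [Fintype α] {t : ℕ} (w : (α → Option (Fin t)) → ℝ) (x : α) : ℝ :=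
  ∑ f, if f x ≠ none then w f else 0

/-- The fractional local `t`-dimension of the finite poset `α`: the infimum (a minimum) over all
fractional local `t`-realisers of the largest load of an element. -/
noncomputable def locDim (t : ℕ) (α : Type) [Fintype α] [PartialOrder α] : ℝ :=
  sInf {c | ∃ w : (α → Option (Fin t)) → ℝ, IsLocRealiser t w ∧ ∀ x, load w x ≤ c}

open Classical in
/-- The degree of `x` in the comparability graph. -/
noncomputable def compDeg {α : Type} [Fintype α] [PartialOrder α] (x : α) : ℕ :=
  (univ.filter fun y : α => y ≠ x ∧ (x ≤ y ∨ y ≤ x)).card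

/-- The comparability graph has maximum degree `Δ`. -/
def HasMaxDeg (α : Type) [Fintype α] [PartialOrder α] (Δ : ℕ) : Prop :=
  (∀ x : α, compDeg x ≤ Δ) ∧ ∃ x : α, compDeg x = Δ

/-- `MFLD_t(Δ)`: the supremum of the fractional local `t`-dimension over all finite posets whose
comparability graph has maximum degree `Δ`. -/
noncomputable def MFLD (t Δ : ℕ) : ℝ :=
  sSup {c | ∃ (α : Type) (_ : Fintype α) (_ : PartialOrder α), HasMaxDeg α Δ ∧ c = locDim t α}

end Pool.Agent.W_MP_2ea9c5_h26
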