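import Pool.Agent.W_MP_2ea9c5_h26.GLower

/-!
The lower bound for the fractional `t`-dimension of the posets given by permutations.
-/

namespace Pool.Agent.W_MP_2ea9c5_h26

open Finset Equiv

/-- counting the pairs `(a, b)` with `u a < v b` level by level -/
theorem count_levels {V : Type} [Fintype V] {k : ℕ} (u v : V → Fin (k + 1)) :
    ((∑ b, (univ.filter fun a => u a < v b).card : ℕ) : ℝ) =
      ∑ i ∈ range k, (((univ.filter fun a => (u a : ℕ) < i + 1).card : ℝ) -
        (univ.filter fun a => (u a : ℕ) < i).card) *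
        ((univ.filter fun b => i + 1 ≤ (v b : ℕ)).card : ℝ) := by
  classical
  have h1 : ∀ i : ℕ, ((univ.filter fun a => (u a : ℕ) < i + 1).card : ℝ) -
      (univ.filter fun a => (u a : ℕ) < i).card = ((univ.filter fun a => (u a : ℕ) = i).card : ℝ) := by
    intro i
    have h2 : univ.filter (fun a => (u a : ℕ) < i + 1) =
        (univ.filter fun a => (u a : ℕ) < i) ∪ univ.filter fun a => (u a : ℕ) = i := by
      ext a
      simp only [Finset.mem_filter, Finset.mem_univ, true_and, Finset.mem_union]
      omega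
    have h3 : Disjoint (univ.filter fun a => (u a : ℕ) < i) (univ.filter fun a => (u a : ℕ) = i) := by
      rw [Finset.disjoint_left]
      intro a ha hb
      have h4 := (Finset.mem_filter.1 ha).2
      have h5 := (Finset.mem_filter.1 hb).2
      omega
    rw [h2, Finset.card_union_of_disjoint h3]
    push_cast
    ring
  simp_rw [h1]
  have h6 : (∑ b, (univ.filter fun a => u a < v b).card : ℕ) =
      ∑ i ∈ range k, (univ.filter fun a => (u a : ℕ) = i).card *
        (univ.filter fun b => i + 1 ≤ (v b : ℕ)).card := by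
    have h7 : ∀ b a, (if u a < v b then 1 else 0 : ℕ) =
        ∑ i ∈ range k, (if (u a : ℕ) = i then 1 else 0) * (if i + 1 ≤ (v b : ℕ) then 1 else 0) := by
      intro b a
      by_cases h : u a < v b
      · have h' : (u a : ℕ) < v b := h
        have h'' : (u a : ℕ) < k := by have := (v b).isLt; omega
        rw [if_pos h, Finset.sum_eq_single (u a : ℕ)]
        · rw [if_pos rfl, if_pos (by omega)]
        · intro i _ hi
          rw [if_neg (Ne.symm hi), zero_mul]
        · intro hi
          exact absurd (Finset.mem_range.2 h'') hi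
      · have h' : ¬ (u a : ℕ) < v b := h
        rw [if_neg h]
        symm
        refine Finset.sum_eq_zero fun i _ => ?_
        by_cases h2 : (u a : ℕ) = i
        · rw [if_neg (show ¬ i + 1 ≤ (v b : ℕ) by omega), mul_zero]
        · rw [if_neg h2, zero_mul]
    calc (∑ b, (univ.filter fun a => u a < v b).card : ℕ)
        = ∑ b, ∑ a, (if u a < v b then 1 else 0) := by
          refine Finset.sum_congr rfl fun b _ => ?_
          rw [Finset.card_filter]
      _ = ∑ b, ∑ a, ∑ i ∈ range k, (if (u a : ℕ) = i then 1 else 0) *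
            (if i + 1 ≤ (v b : ℕ) then 1 else 0) := by
          refine Finset.sum_congr rfl fun b _ => Finset.sum_congr rfl fun a _ => h7 b a
      _ = ∑ i ∈ range k, ∑ b, ∑ a, (if (u a : ℕ) = i then 1 else 0) *
            (if i + 1 ≤ (v b : ℕ) then 1 else 0) := by
          rw [Finset.sum_congr rfl fun b _ => Finset.sum_comm]
          exact Finset.sum_comm
      _ = _ := by
          refine Finset.sum_congr rfl fun i _ => ?_
          rw [Finset.card_filter, Finset.card_filter, Finset.sum_mul_sum, Finset.sum_comm]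
  rw [h6]
  push_cast
  rfl

variable {n Δ : ℕ}

theorem fracDim_lower {N k : ℕ} (hN : 1 ≤ N) (hΔ : 1 ≤ Δ) (hk : 1 ≤ k) {d L : ℝ} (hd : 0 < d)
    (hL : 0 ≤ L) (σ : Fin Δ → Perm (Fin (Δ * N)))
    (hσ : ∀ S T, Hole σ S T →
      (0 < S.card → (S.card : ℝ) ≤ 3 * N * L →
        (T.card : ℝ) ≤ Δ * N * (Real.exp (-((S.card : ℝ) / N)) + d / ((S.card : ℝ) / N))) ∧
      (0 < T.card → (T.card : ℝ) ≤ 3 * N * L →
        (S.card : ℝ) ≤ Δ * N * (Real.exp (-((T.card : ℝ) / N)) + d / ((T.card : ℝ) / N))) ∧
      ¬ (3 * N * L < S.card ∧ 3 * N * L < T.card)) :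
    (1 - 1 / (N : ℝ)) * (Δ / (BB k + k * d)) ≤ fracDim (k + 1) (Bip (RR σ)) := by
  classical
  refine le_fracDim (by omega) fun w hw => ?_
  have hN' : (0 : ℝ) < N := by exact_mod_cast (by omega : 0 < N)
  have hΔ' : (0 : ℝ) < Δ := by exact_mod_cast (by omega : 0 < Δ)
  have hk' : (0 : ℝ) < k := by exact_mod_cast (by omega : 0 < k)
  have hBB0 : 0 ≤ BB k := add_nonneg (MM_nonneg _) (MM_nonneg _)
  have hC0 : 0 < BB k + k * d := by positivity
  let u : (Bip (RR σ) → Fin (k + 1)) → Fin (Δ * N) → Fin (k + 1) := fun f a =>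
    f (bmax (RR σ) (Sum.inl a))
  let v : (Bip (RR σ) → Fin (k + 1)) → Fin (Δ * N) → Fin (k + 1) := fun f b =>
    f (bmin (RR σ) (Sum.inl b))
  let P : (Bip (RR σ) → Fin (k + 1)) → ℕ := fun f =>
    ∑ b, (univ.filter fun a => u f a < v f b).card
  -- each function in the support separates few pairs
  have hP : ∀ f, w f ≠ 0 → (P f : ℝ) ≤ (N : ℝ) ^ 2 * (Δ * (BB k + k * d)) := by
    intro f hf
    have hmono := hw.mono f hf
    let S : ℕ → Finset (Fin (Δ * N)) := fun i => univ.filter fun a => (u f a : ℕ) < i
    let T : ℕ → Finset (Fin (Δ * N)) := fun i => univ.filter fun b => i ≤ (v f b : ℕ)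
    have hhole : ∀ i, Hole σ (S i) (T i) := by
      intro i i' b hb hmem
      have h1 := (Finset.mem_filter.1 hb).2
      have h2 := (Finset.mem_filter.1 hmem).2
      have h3 : v f b ≤ u f (σ i' b) := hmono (bmin_le_bmax.2 ⟨i', rfl⟩)
      have h4 : (v f b : ℕ) ≤ u f (σ i' b) := h3
      omega
    let y : ℕ → ℝ := fun i => (S i).card / N
    let x : ℕ → ℝ := fun i => (T i).card / N
    have hopt := optimise (k := k) (x := x) (y := y) (Δ := Δ) (d := d) (B := 3 * L) hΔ'.le hd.le
      (by positivity) ?_ ?_ ?_ ?_ ?_ ?_ ?_ ?_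
    · have h1 := count_levels (u f) (v f)
      calc (P f : ℝ) = _ := h1
        _ = (N : ℝ) ^ 2 * ∑ i ∈ range k, (y (i + 1) - y i) * x (i + 1) := by
            rw [Finset.mul_sum]
            refine Finset.sum_congr rfl fun i _ => ?_
            simp only [x, y, S, T]
            field_simp
        _ ≤ _ := mul_le_mul_of_nonneg_left hopt (by positivity)
    · intro i
      refine div_le_div_of_nonneg_right ?_ hN'.le
      have : (S i).card ≤ (S (i + 1)).card := by
        refine Finset.card_le_card fun a ha => ?_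
        have := (Finset.mem_filter.1 ha).2
        exact Finset.mem_filter.2 ⟨Finset.mem_univ _, by omega⟩
      exact_mod_cast this
    · have : (S 0).card = 0 := by
        rw [Finset.card_eq_zero, Finset.eq_empty_iff_forall_notMem]
        intro a ha
        exact absurd (Finset.mem_filter.1 ha).2 (Nat.not_lt_zero _)
      simp only [y]
      rw [this]
      simp
    · intro i
      refine div_le_div_of_nonneg_right ?_ hN'.le
      have : (T (i + 1)).card ≤ (T i).card := by
        refine Finset.card_le_card fun a ha => ?_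
        have := (Finset.mem_filter.1 ha).2
        exact Finset.mem_filter.2 ⟨Finset.mem_univ _, by omega⟩
      exact_mod_cast this
    · intro i
      simp only [x]
      positivity
    · have : (T (k + 1)).card = 0 := by
        rw [Finset.card_eq_zero, Finset.eq_empty_iff_forall_notMem]
        intro b hb
        have h1 := (Finset.mem_filter.1 hb).2
        have h2 := (v f b).isLt
        omega
      simp only [x]
      rw [this]
      simp
    · intro i h1 h2
      have h3 : 0 < (S i).card := by
        by_contra hc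
        have : (S i).card = 0 := by omega
        simp only [y] at h1
        rw [this] at h1
        simp at h1
      have h4 : ((S i).card : ℝ) ≤ 3 * N * L := by
        simp only [y] at h2
        rw [div_le_iff₀ hN'] at h2
        linarith
      have h5 := (hσ _ _ (hhole i)).1 h3 h4
      simp only [x, y]
      rw [div_le_iff₀ hN']
      linarith
    · intro i h1 h2
      have h3 : 0 < (T i).card := by
        by_contra hc
        have : (T i).card = 0 := by omega
        simp only [x] at h1
        rw [this] at h1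
        simp at h1
      have h4 : ((T i).card : ℝ) ≤ 3 * N * L := by
        simp only [x] at h2
        rw [div_le_iff₀ hN'] at h2
        linarith
      have h5 := (hσ _ _ (hhole i)).2.1 h3 h4
      simp only [x, y]
      rw [div_le_iff₀ hN']
      linarith
    · intro i h
      refine (hσ _ _ (hhole i)).2.2 ⟨?_, ?_⟩
      · have := h.1
        simp only [y] at this
        rw [lt_div_iff₀ hN'] at this
        linarith
      · have := h.2
        simp only [x] at this
        rw [lt_div_iff₀ hN'] at this
        linarith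
  -- the pairs
  set Q : Finset (Fin (Δ * N) × Fin (Δ * N)) := univ.filter fun p => ¬ ∃ i, σ i p.1 = p.2 with hQ
  have hnr : ((Δ * N : ℕ) : ℝ) = Δ * N := by push_cast; ring
  have hQcard : ((Δ : ℝ) * N) ^ 2 - Δ * N * Δ ≤ (Q.card : ℝ) := by
    have h1 : (univ.filter fun p : Fin (Δ * N) × Fin (Δ * N) => ∃ i, σ i p.1 = p.2).card ≤
        (Δ * N) * Δ := by
      calc _ ≤ ((univ : Finset (Fin (Δ * N) × Fin Δ)).image fun q => (q.1, σ q.2 q.1)).card := by
            refine Finset.card_le_card fun p hp => ?_
            obtain ⟨i, hi⟩ := (Finset.mem_filter.1 hp).2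
            exact Finset.mem_image.2 ⟨(p.1, i), Finset.mem_univ _, by rw [hi]⟩
        _ ≤ (univ : Finset (Fin (Δ * N) × Fin Δ)).card := Finset.card_image_le
        _ = (Δ * N) * Δ := by simp
    have h2 := Finset.card_filter_add_card_filter_not (s := (univ : Finset (Fin (Δ * N) × Fin (Δ * N))))
      (fun p : Fin (Δ * N) × Fin (Δ * N) => ∃ i, σ i p.1 = p.2)
    rw [Finset.card_univ, Fintype.card_prod, Fintype.card_fin] at h2
    have h3 : (univ.filter fun p : Fin (Δ * N) × Fin (Δ * N) => ∃ i, σ i p.1 = p.2).card + Q.card =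
        (Δ * N) * (Δ * N) := h2
    have h4 : (((univ.filter fun p : Fin (Δ * N) × Fin (Δ * N) => ∃ i, σ i p.1 = p.2).card : ℕ) : ℝ) +
        Q.card = (Δ * N) * (Δ * N) := by exact_mod_cast h3
    have h5 : (((univ.filter fun p : Fin (Δ * N) × Fin (Δ * N) => ∃ i, σ i p.1 = p.2).card : ℕ) : ℝ) ≤
        (Δ * N) * Δ := by exact_mod_cast h1
    nlinarith
  have hcov : ∀ p ∈ Q, (1 : ℝ) ≤ ∑ f, if f (bmax (RR σ) (Sum.inl p.2)) < f (bmin (RR σ) (Sum.inl p.1))
      then w f else 0 := by
    intro p hp
    refine hw.cover _ _ fun h => ?_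
    exact (Finset.mem_filter.1 hp).2 (bmin_le_bmax.1 h)
  have hsum : (Q.card : ℝ) ≤ ∑ f, w f * (P f : ℝ) := by
    calc (Q.card : ℝ) = ∑ p ∈ Q, (1 : ℝ) := by simp
      _ ≤ ∑ p ∈ Q, ∑ f, (if f (bmax (RR σ) (Sum.inl p.2)) < f (bmin (RR σ) (Sum.inl p.1))
          then w f else 0) := Finset.sum_le_sum hcov
      _ = ∑ f, ∑ p ∈ Q, (if f (bmax (RR σ) (Sum.inl p.2)) < f (bmin (RR σ) (Sum.inl p.1))
          then w f else 0) := Finset.sum_comm
      _ ≤ ∑ f, ∑ p : Fin (Δ * N) × Fin (Δ * N),
          (if f (bmax (RR σ) (Sum.inl p.2)) < f (bmin (RR σ) (Sum.inl p.1)) then w f else 0) := by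
          refine Finset.sum_le_sum fun f _ => ?_
          refine Finset.sum_le_sum_of_subset_of_nonneg (Finset.subset_univ _) fun p _ _ => ?_
          split_ifs
          · exact hw.nonneg f
          · exact le_rfl
      _ = ∑ f, w f * (P f : ℝ) := by
          refine Finset.sum_congr rfl fun f _ => ?_
          rw [Fintype.sum_prod_type]
          simp only [P]
          rw [Nat.cast_sum, Finset.mul_sum]
          refine Finset.sum_congr rfl fun b _ => ?_
          rw [Finset.card_filter]
          push_cast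
          rw [Finset.mul_sum]
          refine Finset.sum_congr rfl fun a _ => ?_
          simp only [u, v]
          split_ifs <;> simp
  have hchain : ((Δ : ℝ) * N) ^ 2 - Δ * N * Δ ≤
      (N : ℝ) ^ 2 * (Δ * (BB k + k * d)) * ∑ f, w f := by
    refine hQcard.trans (hsum.trans ?_)
    rw [Finset.mul_sum]
    refine Finset.sum_le_sum fun f _ => ?_
    by_cases hf : w f = 0
    · rw [hf]; simp
    · have := mul_le_mul_of_nonneg_left (hP f hf) (hw.nonneg f)
      linarith
  have h6 : ((Δ : ℝ) * N) ^ 2 - Δ * N * Δ =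
      (N : ℝ) ^ 2 * (Δ * (BB k + k * d)) * ((1 - 1 / (N : ℝ)) * (Δ / (BB k + k * d))) := by
    field_simp
  rw [h6] at hchain
  exact le_of_mul_le_mul_left hchain (by positivity)

end Pool.Agent.W_MP_2ea9c5_h26
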