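import Pool.Agent.W_MP_2ea9c5_h26.Defs

/-!
MP_2ea9c5_co: fractional `t`-dimension of finite posets of bounded degree. Definitions.
-/

namespace Pool.Agent.W_MP_2ea9c5_h26

open Finset

open Classical in
/-- A fractional `t`-realiser of the finite poset `α`: a weighting `w` of the maps
`f : α → {0 < 1 < ... < t-1}`. -/
structure IsFracRealiser {α : Type} [Fintype α] [PartialOrder α] (t : ℕ)
    (w : (α → Fin t) → ℝ) : Prop where
  nonneg : ∀ f, 0 ≤ w f
  mono : ∀ f, w f ≠ 0 → Monotone f
  cover : ∀ x y, ¬ y ≤ x → 1 ≤ ∑ f, if f x < f y then w f else 0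

open Classical in
/-- The fractional `t`-dimension of the finite poset `α`: the infimum (a minimum) of the total
weight of the fractional `t`-realisers. -/
noncomputable def fracDim (t : ℕ) (α : Type) [Fintype α] [PartialOrder α] : ℝ :=
  sInf {c | ∃ w : (α → Fin t) → ℝ, IsFracRealiser t w ∧ ∑ f, w f ≤ c}

/-- `MFD_t(Δ)`: the supremum of the fractional `t`-dimension over all finite posets whose
comparability graph has maximum degree `Δ`. -/
noncomputable def MFD (t Δ : ℕ) : ℝ :=
  sSup {c | ∃ (α : Type) (_ : Fintype α) (_ : PartialOrder α), HasMaxDeg α Δ ∧ c = fracDim t α}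

end Pool.Agent.W_MP_2ea9c5_h26
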