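import Pool.Agent.W_MP_2ea9c5_h26.Perm

/-!
Sharp control of the empty pairs `(S, T)` of a union of `Δ` permutations.
-/

namespace Pool.Agent.W_MP_2ea9c5_h26

open Finset Equiv

variable {n Δ : ℕ}

/-- no element of `S` is joined to an element of `T` -/
def Hole (σ : Fin Δ → Perm (Fin n)) (S T : Finset (Fin n)) : Prop := ∀ i, ∀ b ∈ T, σ i b ∉ S

/-- the families of permutations with the hole `(S, T)` -/
def holes (Δ : ℕ) (S T : Finset (Fin n)) : Finset (Fin Δ → Perm (Fin n)) :=
  Fintype.piFinset fun _ : Fin Δ => avoidSet (fun _ => S) T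

theorem mem_holes {σ : Fin Δ → Perm (Fin n)} {S T : Finset (Fin n)} :
    σ ∈ holes Δ S T ↔ Hole σ S T := by
  simp [holes, Hole, mem_avoidSet]

theorem card_holes (hn : 0 < n) (S T : Finset (Fin n)) :
    ((holes Δ S T).card : ℝ) ≤
      (n.factorial : ℝ) ^ Δ * Real.exp (-((S.card : ℝ) * T.card * Δ / n)) := by
  have hn' : (0 : ℝ) < n := by exact_mod_cast hn
  have h1 : (holes Δ S T).card = (avoidSet (fun _ => S) T).card ^ Δ := by
    unfold holes
    rw [Fintype.card_piFinset, Finset.prod_const, Finset.card_univ, Fintype.card_fin]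
  have h2 := avoid_card (fun _ : Fin n => S) (fun _ _ => Or.inl (Finset.Subset.refl _)) T
  rw [Fintype.card_fin, Finset.prod_const] at h2
  have h3 : (S.card : ℝ) / n ≤ 1 := by
    rw [div_le_one hn']
    have := Finset.card_le_univ S
    rw [Fintype.card_fin] at this
    exact_mod_cast this
  have h4 : (1 - (S.card : ℝ) / n) ^ T.card ≤ Real.exp (-((S.card : ℝ) / n)) ^ T.card :=
    pow_le_pow_left₀ (by linarith) (Real.one_sub_le_exp_neg _) _
  have h5 : ((avoidSet (fun _ => S) T).card : ℝ) ≤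
      (n.factorial : ℝ) * Real.exp (-((S.card : ℝ) / n)) ^ T.card :=
    h2.trans (mul_le_mul_of_nonneg_left h4 (Nat.cast_nonneg _))
  rw [h1]
  push_cast
  refine (pow_le_pow_left₀ (Nat.cast_nonneg _) h5 Δ).trans (le_of_eq ?_)
  rw [mul_pow]
  congr 1
  rw [← Real.exp_nat_mul, ← Real.exp_nat_mul]
  congr 1
  ring

/-- the largest `T` with the hole `(S, T)` -/
def Tm (σ : Fin Δ → Perm (Fin n)) (S : Finset (Fin n)) : Finset (Fin n) :=
  univ.filter fun b => ∀ i, σ i b ∉ S

theorem subset_Tm {σ : Fin Δ → Perm (Fin n)} {S T : Finset (Fin n)} :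
    T ⊆ Tm σ S ↔ Hole σ S T := by
  constructor
  · intro h i b hb
    exact (Finset.mem_filter.1 (h hb)).2 i
  · intro h b hb
    exact Finset.mem_filter.2 ⟨Finset.mem_univ _, fun i => h i b hb⟩

theorem choose_ineq {n τ k : ℕ} :
    n.choose k * (τ + 1 - k) ^ k ≤ n ^ k * τ.choose k := by
  calc n.choose k * (τ + 1 - k) ^ k ≤ n.choose k * τ.descFactorial k :=
        Nat.mul_le_mul_left _ (Nat.pow_sub_le_descFactorial τ k)
    _ = n.descFactorial k * τ.choose k := by
        rw [Nat.descFactorial_eq_factorial_mul_choose, Nat.descFactorial_eq_factorial_mul_choose]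
        ring
    _ ≤ n ^ k * τ.choose k := Nat.mul_le_mul_right _ (Nat.descFactorial_le_pow n k)

theorem card_bad (hn : 0 < n) (S : Finset (Fin n)) {τ k : ℕ} (hk : k ≤ τ) :
    ((univ.filter fun σ : Fin Δ → Perm (Fin n) => τ ≤ (Tm σ S).card).card : ℝ) *
      ((τ + 1 - k : ℕ) : ℝ) ^ k ≤
      (n.factorial : ℝ) ^ Δ * (n * Real.exp (-((S.card : ℝ) * Δ / n))) ^ k := by
  classical
  set Bad := univ.filter fun σ : Fin Δ → Perm (Fin n) => τ ≤ (Tm σ S).card with hBad
  have h1 : ∑ σ : Fin Δ → Perm (Fin n), (Tm σ S).card.choose k =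
      ∑ T ∈ powersetCard k (univ : Finset (Fin n)), (holes Δ S T).card := by
    have h2 : ∀ σ : Fin Δ → Perm (Fin n), (Tm σ S).card.choose k =
        ∑ T ∈ powersetCard k (univ : Finset (Fin n)), if σ ∈ holes Δ S T then 1 else 0 := by
      intro σ
      rw [← Finset.card_powersetCard, ← Finset.sum_filter, Finset.sum_const, smul_eq_mul, mul_one]
      congr 1
      ext T
      rw [Finset.mem_powersetCard, Finset.mem_filter, Finset.mem_powersetCard, mem_holes, subset_Tm]
      constructor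
      · rintro ⟨a, b⟩; exact ⟨⟨Finset.subset_univ _, b⟩, a⟩
      · rintro ⟨⟨-, b⟩, a⟩; exact ⟨a, b⟩
    rw [Finset.sum_congr rfl fun σ _ => h2 σ, Finset.sum_comm]
    refine Finset.sum_congr rfl fun T _ => ?_
    rw [← Finset.sum_filter, Finset.sum_const, smul_eq_mul, mul_one]
    congr 1
    ext σ
    simp
  have h3 : Bad.card * τ.choose k ≤ ∑ σ : Fin Δ → Perm (Fin n), (Tm σ S).card.choose k := by
    calc Bad.card * τ.choose k = ∑ _σ ∈ Bad, τ.choose k := by rw [Finset.sum_const, smul_eq_mul]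
      _ ≤ ∑ σ ∈ Bad, (Tm σ S).card.choose k :=
          Finset.sum_le_sum fun σ hσ => Nat.choose_le_choose k (Finset.mem_filter.1 hσ).2
      _ ≤ _ := Finset.sum_le_sum_of_subset (Finset.subset_univ _)
  set X : ℝ := (n.factorial : ℝ) ^ Δ * Real.exp (-((S.card : ℝ) * Δ / n)) ^ k with hX
  have h4 : ((∑ T ∈ powersetCard k (univ : Finset (Fin n)), (holes Δ S T).card : ℕ) : ℝ) ≤
      (n.choose k : ℝ) * X := by
    push_cast
    calc ∑ T ∈ powersetCard k (univ : Finset (Fin n)), ((holes Δ S T).card : ℝ)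
        ≤ ∑ _T ∈ powersetCard k (univ : Finset (Fin n)), X := by
          refine Finset.sum_le_sum fun T hT => (card_holes hn S T).trans (le_of_eq ?_)
          rw [(Finset.mem_powersetCard.1 hT).2, hX, ← Real.exp_nat_mul]
          congr 2
          ring
      _ = (n.choose k : ℝ) * X := by
          rw [Finset.sum_const, Finset.card_powersetCard, Finset.card_univ, Fintype.card_fin,
            nsmul_eq_mul]
  have h5 : (Bad.card : ℝ) * τ.choose k ≤ (n.choose k : ℝ) * X := by
    refine le_trans ?_ h4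
    rw [← h1]
    exact_mod_cast h3
  have hX0 : 0 ≤ X := by positivity
  have hc : (0 : ℝ) < τ.choose k := by exact_mod_cast Nat.choose_pos hk
  have h6 : ((n.choose k : ℕ) : ℝ) * ((τ + 1 - k : ℕ) : ℝ) ^ k ≤ (n : ℝ) ^ k * τ.choose k := by
    exact_mod_cast choose_ineq (n := n) (τ := τ) (k := k)
  have h7 : ((Bad.card : ℝ) * ((τ + 1 - k : ℕ) : ℝ) ^ k) * τ.choose k ≤
      ((n.factorial : ℝ) ^ Δ * (n * Real.exp (-((S.card : ℝ) * Δ / n))) ^ k) * τ.choose k := by
    calc ((Bad.card : ℝ) * ((τ + 1 - k : ℕ) : ℝ) ^ k) * τ.choose k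
        = ((Bad.card : ℝ) * τ.choose k) * ((τ + 1 - k : ℕ) : ℝ) ^ k := by ring
      _ ≤ ((n.choose k : ℝ) * X) * ((τ + 1 - k : ℕ) : ℝ) ^ k :=
          mul_le_mul_of_nonneg_right h5 (by positivity)
      _ = ((n.choose k : ℝ) * ((τ + 1 - k : ℕ) : ℝ) ^ k) * X := by ring
      _ ≤ ((n : ℝ) ^ k * τ.choose k) * X := mul_le_mul_of_nonneg_right h6 hX0
      _ = _ := by rw [hX, mul_pow]; ring
  exact le_of_mul_le_mul_right h7 hc

theorem card_small (s : ℕ) {Δ : ℕ} (hΔ : 1 ≤ Δ) :
    ((univ.filter fun S : Finset (Fin n) => S.card ≤ s).card : ℝ) ≤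
      (Δ : ℝ) ^ s * Real.exp (n / Δ) := by
  classical
  have hΔ' : (1 : ℝ) ≤ Δ := by exact_mod_cast hΔ
  have hΔ0 : (0 : ℝ) < Δ := by linarith
  have h1 := Finset.sum_pow_mul_eq_add_pow (1 / (Δ : ℝ)) 1 (univ : Finset (Fin n))
  simp only [one_pow, mul_one, Finset.powerset_univ, Finset.card_univ, Fintype.card_fin] at h1
  have h2 : ((univ.filter fun S : Finset (Fin n) => S.card ≤ s).card : ℝ) * (1 / (Δ : ℝ)) ^ s ≤
      ∑ S : Finset (Fin n), (1 / (Δ : ℝ)) ^ S.card := by
    calc ((univ.filter fun S : Finset (Fin n) => S.card ≤ s).card : ℝ) * (1 / (Δ : ℝ)) ^ s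
        = ∑ _S ∈ univ.filter (fun S : Finset (Fin n) => S.card ≤ s), (1 / (Δ : ℝ)) ^ s := by
          rw [Finset.sum_const, nsmul_eq_mul]
      _ ≤ ∑ S ∈ univ.filter (fun S : Finset (Fin n) => S.card ≤ s), (1 / (Δ : ℝ)) ^ S.card := by
          refine Finset.sum_le_sum fun S hS => ?_
          refine pow_le_pow_of_le_one (by positivity) ?_ (Finset.mem_filter.1 hS).2
          rw [div_le_one hΔ0]; exact hΔ'
      _ ≤ _ := Finset.sum_le_sum_of_subset_of_nonneg (Finset.subset_univ _) fun S _ _ => by positivity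
  have h3 : (1 / (Δ : ℝ) + 1) ^ n ≤ Real.exp (n / Δ) := by
    calc (1 / (Δ : ℝ) + 1) ^ n ≤ Real.exp (1 / Δ) ^ n :=
          pow_le_pow_left₀ (by positivity) (Real.add_one_le_exp _) _
      _ = Real.exp (n / Δ) := by rw [← Real.exp_nat_mul]; congr 1; ring
  rw [h1] at h2
  have h4 := h2.trans h3
  rw [one_div_pow, mul_one_div, div_le_iff₀ (by positivity)] at h4
  linarith

theorem hole_inv {σ : Fin Δ → Perm (Fin n)} {S T : Finset (Fin n)} :
    Hole σ S T ↔ Hole (fun i => (σ i)⁻¹) T S := by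
  constructor
  · intro h i a ha hmem
    have := h i _ hmem
    simp at this
    exact this ha
  · intro h i b hb hmem
    have := h i _ hmem
    simp at this
    exact this hb

/-- **Existence.** -/
theorem exists_sigma {Δ N : ℕ} (hN : 1 ≤ N) {d η lam L : ℝ} (hd : 0 < d)
    (hη : η = d / (1 + d)) (hlam : lam = Real.log ((1 + Real.exp 1 * d) / (1 + d)))
    (hL : L = Real.log Δ) (hL1 : 1 ≤ L)
    (hA : 4 * L ^ 2 + 2 ≤ lam * (η * d * Δ / (4 * L)))
    (hB : Real.exp (lam - N) ≤ 1 / 8) :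
    ∃ σ : Fin Δ → Perm (Fin (Δ * N)), ∀ S T, Hole σ S T →
      (0 < S.card → (S.card : ℝ) ≤ 3 * N * L →
        (T.card : ℝ) ≤ Δ * N * (Real.exp (-((S.card : ℝ) / N)) + d / ((S.card : ℝ) / N))) ∧
      (0 < T.card → (T.card : ℝ) ≤ 3 * N * L →
        (S.card : ℝ) ≤ Δ * N * (Real.exp (-((T.card : ℝ) / N)) + d / ((T.card : ℝ) / N))) ∧
      ¬ (3 * N * L < S.card ∧ 3 * N * L < T.card) := by
  classical
  have hN' : (1 : ℝ) ≤ N := by exact_mod_cast hN
  have hN0 : (0 : ℝ) < N := by linarith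
  have hΔ0 : (0 : ℝ) < Δ := by
    rcases Nat.eq_zero_or_pos Δ with h | h
    · rw [hL, h] at hL1
      simp at hL1
      linarith
    · exact_mod_cast h
  have hΔ1 : 1 ≤ Δ := by
    have : 0 < Δ := by exact_mod_cast hΔ0
    omega
  have hL0 : 0 < L := by linarith
  set n := Δ * N with hn
  have hn0 : 0 < n := Nat.mul_pos (by omega) (by omega)
  have hnr : (n : ℝ) = Δ * N := by rw [hn]; push_cast; ring
  have hn' : (0 : ℝ) < n := by exact_mod_cast hn0
  have hη0 : 0 < η := by rw [hη]; positivity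
  have hη1 : 1 - η = 1 / (1 + d) := by rw [hη]; field_simp; ring
  have hlam0 : 0 < lam := by
    rw [hlam]
    apply Real.log_pos
    rw [lt_div_iff₀ (by positivity)]
    have := Real.add_one_lt_exp (one_ne_zero)
    nlinarith
  set q : ℝ := (1 + d) / (1 + Real.exp 1 * d) with hq
  have hq0 : 0 < q := by positivity
  have hqlam : q = Real.exp (-lam) := by
    rw [hlam, Real.exp_neg, Real.exp_log (by positivity), hq, inv_div]
  set s1 : ℕ := ⌈3 * N * L⌉₊ with hs1
  have hs1a : 3 * N * L ≤ s1 := Nat.le_ceil _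
  have hs1b : (s1 : ℝ) ≤ 4 * N * L := by
    have h1 : (s1 : ℝ) < 3 * N * L + 1 := Nat.ceil_lt_add_one (by positivity)
    nlinarith
  set k : ℕ := ⌊η * d * n / (4 * L)⌋₊ with hk
  have hka : (k : ℝ) ≤ η * d * n / (4 * L) := Nat.floor_le (by positivity)
  have hkb : η * d * n / (4 * L) < k + 1 := Nat.lt_floor_add_one _
  -- the threshold
  let τ0 : ℕ → ℝ := fun s => n * (Real.exp (-((s : ℝ) / N)) + d / ((s : ℝ) / N))
  let P1 : (Fin Δ → Perm (Fin n)) → Prop := fun σ => ∃ S T, Hole σ S T ∧ 0 < S.card ∧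
    S.card ≤ s1 ∧ τ0 S.card < T.card
  let P2 : (Fin Δ → Perm (Fin n)) → Prop := fun σ => ∃ S T, Hole σ S T ∧ 0 < T.card ∧
    T.card ≤ s1 ∧ τ0 T.card < S.card
  let P3 : (Fin Δ → Perm (Fin n)) → Prop := fun σ => ∃ S T, Hole σ S T ∧ s1 ≤ S.card ∧ s1 ≤ T.card
  set small : Finset (Finset (Fin n)) := univ.filter fun S => S.card ≤ s1 with hsmall
  have hsmall_card : (small.card : ℝ) ≤ Real.exp (s1 * L + N) := by
    have h1 := card_small (n := n) s1 hΔ1
    have h2 : (Δ : ℝ) ^ s1 = Real.exp (s1 * L) := by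
      rw [Real.exp_nat_mul, hL, Real.exp_log hΔ0]
    have h3 : (n : ℝ) / Δ = N := by rw [hnr]; field_simp
    rw [h2, h3, ← Real.exp_add] at h1
    exact h1
  have hfac : (0 : ℝ) < (n.factorial : ℝ) ^ Δ := by
    have : (0 : ℝ) < n.factorial := by exact_mod_cast Nat.factorial_pos n
    positivity
  -- first kind
  have hB1 : ((univ.filter P1).card : ℝ) ≤ (n.factorial : ℝ) ^ Δ * (1 / 8) := by
    have hone : ∀ S : Finset (Fin n), 0 < S.card → S.card ≤ s1 →
        ((univ.filter fun σ : Fin Δ → Perm (Fin n) => ⌊τ0 S.card⌋₊ + 1 ≤ (Tm σ S).card).card : ℝ) ≤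
          (n.factorial : ℝ) ^ Δ * q ^ k := by
      intro S hS0 hS1
      set y : ℝ := (S.card : ℝ) / N with hy
      have hSr : (0 : ℝ) < S.card := by exact_mod_cast hS0
      have hy0 : 0 < y := by positivity
      have hy1 : y ≤ 4 * L := by
        rw [hy, div_le_iff₀ hN0]
        have : (S.card : ℝ) ≤ s1 := by exact_mod_cast hS1
        linarith
      have hτ : τ0 S.card = n * (Real.exp (-y) + d / y) := rfl
      have hτpos : 0 < τ0 S.card := by rw [hτ]; positivity
      have hkτ : (k : ℝ) ≤ η * τ0 S.card := by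
        refine hka.trans ?_
        rw [hτ]
        have h1 : d / (4 * L) ≤ d / y := div_le_div_of_nonneg_left hd.le hy0 hy1
        have h2 : d / (4 * L) ≤ Real.exp (-y) + d / y := by
          have := Real.exp_pos (-y)
          linarith
        calc η * d * n / (4 * L) = η * (n * (d / (4 * L))) := by ring
          _ ≤ _ := mul_le_mul_of_nonneg_left (mul_le_mul_of_nonneg_left h2 hn'.le) hη0.le
      have hη1' : η ≤ 1 := by
        have : 0 < 1 / (1 + d) := by positivity
        linarith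
      have hkτ2 : (k : ℝ) ≤ τ0 S.card := hkτ.trans (by nlinarith)
      have hkle : k ≤ ⌊τ0 S.card⌋₊ := Nat.le_floor hkτ2
      have h3 := card_bad (Δ := Δ) hn0 S (τ := ⌊τ0 S.card⌋₊ + 1) (k := k) (by omega)
      have h4 : (1 - η) * τ0 S.card ≤ ((⌊τ0 S.card⌋₊ + 1 + 1 - k : ℕ) : ℝ) := by
        have h5 : ((⌊τ0 S.card⌋₊ + 1 + 1 - k : ℕ) : ℝ) = (⌊τ0 S.card⌋₊ : ℝ) + 1 + 1 - k := by
          rw [Nat.cast_sub (by omega)]
          push_cast
          ring
        have h6 : τ0 S.card < (⌊τ0 S.card⌋₊ : ℝ) + 1 := Nat.lt_floor_add_one _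
        rw [h5]
        nlinarith
      have hpos1 : 0 < (1 - η) * τ0 S.card := by
        rw [hη1]; positivity
      have h7 : n * Real.exp (-((S.card : ℝ) * Δ / n)) ≤ q * ((1 - η) * τ0 S.card) := by
        have h8 : (S.card : ℝ) * Δ / n = y := by
          rw [hy, hnr]; field_simp
        rw [h8, hτ, hη1, hq]
        have h9 : (1 + d) / (1 + Real.exp 1 * d) * (1 / (1 + d) * (n * (Real.exp (-y) + d / y))) =
            n * ((Real.exp (-y) + d / y) / (1 + Real.exp 1 * d)) := by
          field_simp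
        rw [h9]
        refine mul_le_mul_of_nonneg_left ?_ hn'.le
        rw [le_div_iff₀ (by positivity)]
        have h10 : Real.exp 1 * Real.exp (-y) ≤ 1 / y := by
          rw [← Real.exp_add, le_div_iff₀ hy0]
          have h11 : y ≤ Real.exp (y - 1) := by
            have := Real.add_one_le_exp (y - 1)
            linarith
          calc Real.exp (1 + -y) * y ≤ Real.exp (1 + -y) * Real.exp (y - 1) :=
                mul_le_mul_of_nonneg_left h11 (Real.exp_nonneg _)
            _ = 1 := by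
                rw [← Real.exp_add, show 1 + -y + (y - 1) = 0 by ring, Real.exp_zero]
        have h12 : d * (Real.exp 1 * Real.exp (-y)) ≤ d * (1 / y) :=
          mul_le_mul_of_nonneg_left h10 hd.le
        have h13 : d * (1 / y) = d / y := by ring
        nlinarith
      have h14 : (n * Real.exp (-((S.card : ℝ) * Δ / n))) ^ k ≤
          q ^ k * ((⌊τ0 S.card⌋₊ + 1 + 1 - k : ℕ) : ℝ) ^ k := by
        rw [← mul_pow]
        refine pow_le_pow_left₀ (by positivity) (h7.trans ?_) k
        exact mul_le_mul_of_nonneg_left h4 hq0.le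
      have h15 : (0 : ℝ) < ((⌊τ0 S.card⌋₊ + 1 + 1 - k : ℕ) : ℝ) ^ k :=
        pow_pos (lt_of_lt_of_le hpos1 h4) k
      refine le_of_mul_le_mul_right ?_ h15
      calc _ ≤ (n.factorial : ℝ) ^ Δ * (n * Real.exp (-((S.card : ℝ) * Δ / n))) ^ k := h3
        _ ≤ (n.factorial : ℝ) ^ Δ * (q ^ k * ((⌊τ0 S.card⌋₊ + 1 + 1 - k : ℕ) : ℝ) ^ k) :=
            mul_le_mul_of_nonneg_left h14 hfac.le
        _ = _ := by ring
    have hsub : univ.filter P1 ⊆ small.biUnion fun S => if 0 < S.card then
        (univ.filter fun σ : Fin Δ → Perm (Fin n) => ⌊τ0 S.card⌋₊ + 1 ≤ (Tm σ S).card) else ∅ := by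
      intro σ hσ
      obtain ⟨S, T, hh, h0, h1, h2⟩ := (Finset.mem_filter.1 hσ).2
      refine Finset.mem_biUnion.2 ⟨S, Finset.mem_filter.2 ⟨Finset.mem_univ _, h1⟩, ?_⟩
      rw [if_pos h0]
      refine Finset.mem_filter.2 ⟨Finset.mem_univ _, ?_⟩
      have h3 : T.card ≤ (Tm σ S).card := Finset.card_le_card (subset_Tm.2 hh)
      have h4 : ⌊τ0 S.card⌋₊ < T.card := by
        rw [Nat.floor_lt (by simp only [τ0]; positivity)]
        exact h2
      omega
    have h5 : ((univ.filter P1).card : ℝ) ≤ small.card * ((n.factorial : ℝ) ^ Δ * q ^ k) := by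
      calc ((univ.filter P1).card : ℝ) ≤ ∑ S ∈ small, (((if 0 < S.card then
            (univ.filter fun σ : Fin Δ → Perm (Fin n) => ⌊τ0 S.card⌋₊ + 1 ≤ (Tm σ S).card) else ∅) :
              Finset (Fin Δ → Perm (Fin n))).card : ℝ) := by
            exact_mod_cast (Finset.card_le_card hsub).trans Finset.card_biUnion_le
        _ ≤ ∑ _S ∈ small, (n.factorial : ℝ) ^ Δ * q ^ k := by
            refine Finset.sum_le_sum fun S hS => ?_
            by_cases h0 : 0 < S.card
            · rw [if_pos h0]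
              exact hone S h0 (Finset.mem_filter.1 hS).2
            · rw [if_neg h0, Finset.card_empty]
              push_cast
              positivity
        _ = _ := by rw [Finset.sum_const, nsmul_eq_mul]
    have h6 : (small.card : ℝ) * q ^ k ≤ 1 / 8 := by
      have h7 : q ^ k ≤ Real.exp (lam - lam * (η * d * n / (4 * L))) := by
        rw [hqlam, ← Real.exp_nat_mul]
        apply Real.exp_le_exp.2
        nlinarith
      calc (small.card : ℝ) * q ^ k ≤ Real.exp (s1 * L + N) *
            Real.exp (lam - lam * (η * d * n / (4 * L))) :=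
            mul_le_mul hsmall_card h7 (by positivity) (Real.exp_nonneg _)
        _ = Real.exp (s1 * L + N + (lam - lam * (η * d * n / (4 * L)))) := by rw [← Real.exp_add]
        _ ≤ Real.exp (lam - N) := by
            apply Real.exp_le_exp.2
            have h8 : (s1 : ℝ) * L ≤ 4 * N * L * L := mul_le_mul_of_nonneg_right hs1b hL0.le
            have h9 : lam * (η * d * n / (4 * L)) = N * (lam * (η * d * Δ / (4 * L))) := by
              rw [hnr]; ring
            rw [h9]
            have h10 := mul_le_mul_of_nonneg_left hA hN0.le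
            nlinarith
        _ ≤ 1 / 8 := hB
    calc ((univ.filter P1).card : ℝ) ≤ small.card * ((n.factorial : ℝ) ^ Δ * q ^ k) := h5
      _ = (n.factorial : ℝ) ^ Δ * (small.card * q ^ k) := by ring
      _ ≤ _ := mul_le_mul_of_nonneg_left h6 hfac.le
  -- second kind
  have hB2 : ((univ.filter P2).card : ℝ) ≤ (n.factorial : ℝ) ^ Δ * (1 / 8) := by
    refine le_trans ?_ hB1
    have : (univ.filter P2).card ≤ (univ.filter P1).card := by
      refine Finset.card_le_card_of_injOn (fun σ i => (σ i)⁻¹) ?_ ?_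
      · intro σ hσ
        obtain ⟨S, T, hh, h0, h1, h2⟩ := (Finset.mem_filter.1 (Finset.mem_coe.1 hσ)).2
        exact Finset.mem_coe.2 (Finset.mem_filter.2 ⟨Finset.mem_univ _, T, S, hole_inv.1 hh, h0, h1, h2⟩)
      · intro σ _ σ' _ h
        funext i
        exact inv_injective (congrFun h i)
    exact_mod_cast this
  -- third kind
  have hB3 : ((univ.filter P3).card : ℝ) ≤ (n.factorial : ℝ) ^ Δ * (1 / 8) := by
    have hsub : univ.filter P3 ⊆ (small ×ˢ small).biUnion fun p =>
        if p.1.card = s1 ∧ p.2.card = s1 then holes Δ p.1 p.2 else ∅ := by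
      intro σ hσ
      obtain ⟨S, T, hh, h0, h1⟩ := (Finset.mem_filter.1 hσ).2
      obtain ⟨S', hS', hS'c⟩ := Finset.exists_subset_card_eq h0
      obtain ⟨T', hT', hT'c⟩ := Finset.exists_subset_card_eq h1
      refine Finset.mem_biUnion.2 ⟨(S', T'), Finset.mem_product.2
        ⟨Finset.mem_filter.2 ⟨Finset.mem_univ _, hS'c.le⟩,
          Finset.mem_filter.2 ⟨Finset.mem_univ _, hT'c.le⟩⟩, ?_⟩
      rw [if_pos ⟨hS'c, hT'c⟩, mem_holes]
      exact fun i b hb hmem => hh i b (hT' hb) (hS' hmem)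
    have h5 : ((univ.filter P3).card : ℝ) ≤ (small.card : ℝ) * small.card *
        ((n.factorial : ℝ) ^ Δ * Real.exp (-((s1 : ℝ) * s1 / N))) := by
      calc ((univ.filter P3).card : ℝ) ≤ ∑ p ∈ small ×ˢ small,
            (((if p.1.card = s1 ∧ p.2.card = s1 then holes Δ p.1 p.2 else ∅) :
              Finset (Fin Δ → Perm (Fin n))).card : ℝ) := by
            exact_mod_cast (Finset.card_le_card hsub).trans Finset.card_biUnion_le
        _ ≤ ∑ _p ∈ small ×ˢ small, (n.factorial : ℝ) ^ Δ * Real.exp (-((s1 : ℝ) * s1 / N)) := by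
            refine Finset.sum_le_sum fun p hp => ?_
            by_cases h0 : p.1.card = s1 ∧ p.2.card = s1
            · rw [if_pos h0]
              refine (card_holes hn0 p.1 p.2).trans (le_of_eq ?_)
              have h7 : (s1 : ℝ) * s1 * Δ / (Δ * N) = (s1 : ℝ) * s1 / N := by
                field_simp
              rw [h0.1, h0.2, hnr, h7]
            · rw [if_neg h0, Finset.card_empty]
              push_cast
              positivity
        _ = _ := by
            rw [Finset.sum_const, Finset.card_product, nsmul_eq_mul]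
            push_cast
            ring
    have h6 : (small.card : ℝ) * small.card * Real.exp (-((s1 : ℝ) * s1 / N)) ≤ 1 / 8 := by
      calc (small.card : ℝ) * small.card * Real.exp (-((s1 : ℝ) * s1 / N))
          ≤ Real.exp (s1 * L + N) * Real.exp (s1 * L + N) * Real.exp (-((s1 : ℝ) * s1 / N)) :=
            mul_le_mul_of_nonneg_right
              (mul_le_mul hsmall_card hsmall_card (Nat.cast_nonneg _) (Real.exp_nonneg _))
              (Real.exp_nonneg _)
        _ = Real.exp (s1 * L + N + (s1 * L + N) + -((s1 : ℝ) * s1 / N)) := by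
            rw [← Real.exp_add, ← Real.exp_add]
        _ ≤ Real.exp (lam - N) := by
            apply Real.exp_le_exp.2
            have h7 : (s1 : ℝ) * (3 * L) ≤ (s1 : ℝ) * s1 / N := by
              rw [le_div_iff₀ hN0]
              have := mul_le_mul_of_nonneg_left hs1a (Nat.cast_nonneg s1 : (0 : ℝ) ≤ s1)
              nlinarith
            have h8 : 3 * N * L * L ≤ s1 * L := mul_le_mul_of_nonneg_right hs1a hL0.le
            have h9 : 3 * (N : ℝ) ≤ 3 * N * L * L := by
              have : (1 : ℝ) ≤ L * L := by nlinarith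
              nlinarith
            nlinarith
        _ ≤ 1 / 8 := hB
    calc ((univ.filter P3).card : ℝ) ≤ (small.card : ℝ) * small.card *
        ((n.factorial : ℝ) ^ Δ * Real.exp (-((s1 : ℝ) * s1 / N))) := h5
      _ = (n.factorial : ℝ) ^ Δ * ((small.card : ℝ) * small.card * Real.exp (-((s1 : ℝ) * s1 / N))) := by
          ring
      _ ≤ _ := mul_le_mul_of_nonneg_left h6 hfac.le
  -- conclusion
  obtain ⟨σ, hσ⟩ : ∃ σ : Fin Δ → Perm (Fin n), ¬ P1 σ ∧ ¬ P2 σ ∧ ¬ P3 σ := by
    by_contra hcon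
    push Not at hcon
    have hcov : (univ : Finset (Fin Δ → Perm (Fin n))) ⊆
        univ.filter P1 ∪ univ.filter P2 ∪ univ.filter P3 := by
      intro σ _
      by_cases h1 : P1 σ
      · exact Finset.mem_union_left _ (Finset.mem_union_left _ (Finset.mem_filter.2 ⟨Finset.mem_univ _, h1⟩))
      · by_cases h2 : P2 σ
        · exact Finset.mem_union_left _ (Finset.mem_union_right _ (Finset.mem_filter.2 ⟨Finset.mem_univ _, h2⟩))
        · exact Finset.mem_union_right _ (Finset.mem_filter.2 ⟨Finset.mem_univ _, hcon σ h1 h2⟩)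
    have h1 := (Finset.card_le_card hcov).trans ((Finset.card_union_le _ _).trans
      (Nat.add_le_add_right (Finset.card_union_le _ _) _))
    rw [Finset.card_univ, Fintype.card_fun, Fintype.card_perm, Fintype.card_fin, Fintype.card_fin] at h1
    have h2 : ((n.factorial : ℝ)) ^ Δ ≤ ((univ.filter P1).card : ℝ) + (univ.filter P2).card +
        (univ.filter P3).card := by exact_mod_cast h1
    linarith
  refine ⟨σ, fun S T hh => ⟨fun h0 h1 => ?_, fun h0 h1 => ?_, fun h => ?_⟩⟩
  · by_contra hc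
    push Not at hc
    refine hσ.1 ⟨S, T, hh, h0, ?_, ?_⟩
    · have : (S.card : ℝ) ≤ s1 := h1.trans hs1a
      exact_mod_cast this
    · simp only [τ0]
      rw [hnr]
      exact hc
  · by_contra hc
    push Not at hc
    refine hσ.2.1 ⟨S, T, hh, h0, ?_, ?_⟩
    · have : (T.card : ℝ) ≤ s1 := h1.trans hs1a
      exact_mod_cast this
    · simp only [τ0]
      rw [hnr]
      exact hc
  · refine hσ.2.2 ⟨S, T, hh, ?_, ?_⟩
    · exact Nat.ceil_le.2 h.1.le
    · exact Nat.ceil_le.2 h.2.le

end Pool.Agent.W_MP_2ea9c5_h26
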