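import Pool.Agent.W_MP_2ea9c5_h26.Upper

namespace Pool.Agent.W_MP_2ea9c5_h26

open Finset

variable {α : Type} [Fintype α] [PartialOrder α]

open Classical in
theorem card_up_add (z : α) :
    ((up (fun a b : α => a ≤ b) z).card - 1) + ((up (fun a b : α => b ≤ a) z).card - 1) = compDeg z := by
  have h1 : (up (fun a b : α => a ≤ b) z).card = (univ.filter fun y : α => y ≠ z ∧ z ≤ y).card + 1 := by
    have : up (fun a b : α => a ≤ b) z = insert z (univ.filter fun y : α => y ≠ z ∧ z ≤ y) := by
      ext y
      simp only [up, Finset.mem_filter, Finset.mem_univ, true_and, Finset.mem_insert]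
      constructor
      · intro h
        by_cases hy : y = z
        · exact Or.inl hy
        · exact Or.inr ⟨hy, h⟩
      · rintro (rfl | h)
        · exact le_rfl
        · exact h.2
    rw [this, Finset.card_insert_of_notMem (by simp)]
  have h2 : (up (fun a b : α => b ≤ a) z).card = (univ.filter fun y : α => y ≠ z ∧ y ≤ z).card + 1 := by
    have : up (fun a b : α => b ≤ a) z = insert z (univ.filter fun y : α => y ≠ z ∧ y ≤ z) := by
      ext y
      simp only [up, Finset.mem_filter, Finset.mem_univ, true_and, Finset.mem_insert]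
      constructor
      · intro h
        by_cases hy : y = z
        · exact Or.inl hy
        · exact Or.inr ⟨hy, h⟩
      · rintro (rfl | h)
        · exact le_rfl
        · exact h.2
    rw [this, Finset.card_insert_of_notMem (by simp)]
  rw [h1, h2]
  unfold compDeg
  have h3 : (univ.filter fun y : α => y ≠ z ∧ (z ≤ y ∨ y ≤ z)) =
      (univ.filter fun y : α => y ≠ z ∧ z ≤ y) ∪ (univ.filter fun y : α => y ≠ z ∧ y ≤ z) := by
    ext y
    simp only [Finset.mem_filter, Finset.mem_univ, true_and, Finset.mem_union]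
    tauto
  rw [h3, Finset.card_union_of_disjoint]
  · omega
  · rw [Finset.disjoint_left]
    intro y hy hy'
    simp only [Finset.mem_filter, Finset.mem_univ, true_and] at hy hy'
    exact hy.1 (le_antisymm hy'.2 hy.2)

open Classical in
theorem card_up_pos (r : α → α → Prop) (hr : ∀ z, r z z) (z : α) : 1 ≤ (up r z).card :=
  Finset.card_pos.2 ⟨z, Finset.mem_filter.2 ⟨Finset.mem_univ _, hr z⟩⟩

theorem locDim_upper [Nonempty α] {t : ℕ} (ht : 2 ≤ t) {Δ q m : ℕ} {c : ℝ} (hq : 0 < q) (hc : 0 < c)
    (hcq : c < q) (hΔ : Δ < m * q) (hdeg : ∀ x : α, compDeg x ≤ Δ) :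
    locDim t α ≤ (∑ j : Fin m, 1 / (1 - pp q c j) ^ JJ q j) + ((Δ : ℝ) + 2 * q) / (2 * c) := by
  classical
  let z0 : Fin t := ⟨0, by omega⟩
  let z1 : Fin t := ⟨1, by omega⟩
  have h01 : z0 < z1 := by simp [z0, z1, Fin.lt_def]
  let f1 : Bool → Fin t := fun b => if b then z1 else z0
  let f2 : Bool → Fin t := fun b => if b then z0 else z1
  let rl : α → α → Prop := fun a b => a ≤ b
  let rg : α → α → Prop := fun a b => b ≤ a
  have hrl : ∀ z, rl z z := fun z => le_rfl
  have hrg : ∀ z, rg z z := fun z => le_rfl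
  have hml : ∀ z, band rl q z < m := by
    intro z
    unfold band
    rw [Nat.div_lt_iff_lt_mul hq]
    have h1 := card_up_add z
    have h2 := hdeg z
    have h3 : (up rl z).card = (up (fun a b : α => a ≤ b) z).card := rfl
    omega
  have hmg : ∀ z, band rg q z < m := by
    intro z
    unfold band
    rw [Nat.div_lt_iff_lt_mul hq]
    have h1 := card_up_add z
    have h2 := hdeg z
    have h3 : (up rg z).card = (up (fun a b : α => b ≤ a) z).card := rfl
    omega
  let F : (Fin m × Finset α × Finset α) ⊕ (Fin m × Finset α × Finset α) → α → Option (Fin t) :=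
    Sum.elim (fun i z => (FF rl q m i z).map f1) (fun i z => (FF rg q m i z).map f2)
  let c' : (Fin m × Finset α × Finset α) ⊕ (Fin m × Finset α × Finset α) → ℝ :=
    Sum.elim (fun i => (1 / 2) * CC rl q m c i) (fun i => (1 / 2) * CC rg q m c i)
  refine locDim_le_of_family F c' ?_ ?_ ?_ ?_
  · rintro (i | i)
    · exact mul_nonneg (by norm_num) (CC_nonneg hq hc hcq i)
    · exact mul_nonneg (by norm_num) (CC_nonneg hq hc hcq i)
  · rintro (i | i) x y a b hxy hx hy
    · simp only [F, Sum.elim_inl, Option.map_eq_some_iff] at hx hy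
      obtain ⟨bx, hbx, rfl⟩ := hx
      obtain ⟨b', hby, rfl⟩ := hy
      cases bx
      · simp only [f1]
        exact Fin.le_def.2 (Nat.zero_le _)
      · cases b'
        · exact (FF_mono i x y hxy hbx hby).elim
        · exact le_rfl
    · simp only [F, Sum.elim_inr, Option.map_eq_some_iff] at hx hy
      obtain ⟨bx, hbx, rfl⟩ := hx
      obtain ⟨b', hby, rfl⟩ := hy
      cases bx
      · cases b'
        · exact le_rfl
        · exact (FF_mono i y x hxy hby hbx).elim
      · simp only [f2]
        exact Fin.le_def.2 (Nat.zero_le _)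
  · intro x y hxy
    rw [Fintype.sum_sum_type]
    have h1 := sum_cover (r := rl) (m := m) hrl hq hc hcq hml x y hxy
    have h2 := sum_cover (r := rg) (m := m) hrg hq hc hcq hmg y x hxy
    have h3 : (1 / 2 : ℝ) * 1 ≤ ∑ i : Fin m × Finset α × Finset α,
        if Sep (F (Sum.inl i)) x y then c' (Sum.inl i) else 0 := by
      refine (congrArg (fun s : ℝ => (1 / 2 : ℝ) * s) h1.symm).le.trans ?_
      simp only [Finset.mul_sum]
      refine Finset.sum_le_sum fun i _ => ?_
      by_cases hh : FF rl q m i x = some false ∧ FF rl q m i y = some true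
      · have hs : Sep (F (Sum.inl i)) x y := by
          refine ⟨z0, z1, ?_, ?_, h01⟩
          · simp [F, hh.1, f1]
          · simp [F, hh.2, f1]
        rw [if_pos hh, if_pos hs]
        exact le_rfl
      · rw [if_neg hh, mul_zero]
        split_ifs
        · exact mul_nonneg (by norm_num) (CC_nonneg hq hc hcq i)
        · exact le_rfl
    have h4 : (1 / 2 : ℝ) * 1 ≤ ∑ i : Fin m × Finset α × Finset α,
        if Sep (F (Sum.inr i)) x y then c' (Sum.inr i) else 0 := by
      refine (congrArg (fun s : ℝ => (1 / 2 : ℝ) * s) h2.symm).le.trans ?_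
      simp only [Finset.mul_sum]
      refine Finset.sum_le_sum fun i _ => ?_
      by_cases hh : FF rg q m i y = some false ∧ FF rg q m i x = some true
      · have hs : Sep (F (Sum.inr i)) x y := by
          refine ⟨z0, z1, ?_, ?_, h01⟩
          · simp [F, hh.2, f2]
          · simp [F, hh.1, f2]
        rw [if_pos hh, if_pos hs]
        exact le_rfl
      · rw [if_neg hh, mul_zero]
        split_ifs
        · exact mul_nonneg (by norm_num) (CC_nonneg hq hc hcq i)
        · exact le_rfl
    linarith
  · intro z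
    rw [Fintype.sum_sum_type]
    have h1 := sum_load (r := rl) (m := m) hrl hq hc hcq hml z
    have h2 := sum_load (r := rg) (m := m) hrg hq hc hcq hmg z
    have h3 : (∑ i : Fin m × Finset α × Finset α, if F (Sum.inl i) z ≠ none then c' (Sum.inl i) else 0) =
        (1 / 2) * ∑ i : Fin m × Finset α × Finset α, if FF rl q m i z ≠ none then CC rl q m c i else 0 := by
      rw [Finset.mul_sum]
      refine Finset.sum_congr rfl fun i _ => ?_
      rcases h : FF rl q m i z with _ | b
      · simp [F, h]
      · simp [F, h, c']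
    have h4 : (∑ i : Fin m × Finset α × Finset α, if F (Sum.inr i) z ≠ none then c' (Sum.inr i) else 0) =
        (1 / 2) * ∑ i : Fin m × Finset α × Finset α, if FF rg q m i z ≠ none then CC rg q m c i else 0 := by
      rw [Finset.mul_sum]
      refine Finset.sum_congr rfl fun i _ => ?_
      rcases h : FF rg q m i z with _ | b
      · simp [F, h]
      · simp [F, h, c']
    rw [h3, h4]
    have h5 := card_up_add z
    have h6 := hdeg z
    have h7 := card_up_pos rl hrl z
    have h8 := card_up_pos rg hrg z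
    have h9 : ((up rl z).card : ℝ) - 1 + ((up rg z).card - 1) ≤ Δ := by
      have h10 : (((up rl z).card - 1 : ℕ) : ℝ) + (((up rg z).card - 1 : ℕ) : ℝ) ≤ Δ := by
        have h11 : ((up rl z).card - 1) + ((up rg z).card - 1) ≤ Δ := by
          have e1 : (up rl z).card = (up (fun a b : α => a ≤ b) z).card := rfl
          have e2 : (up rg z).card = (up (fun a b : α => b ≤ a) z).card := rfl
          omega
        exact_mod_cast h11
      rw [Nat.cast_sub h7, Nat.cast_sub h8] at h10
      exact_mod_cast h10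
    have h12 : (1 / 2 : ℝ) * ((((up rl z).card : ℝ) - 1 + q) / c) + (1 / 2) * ((((up rg z).card : ℝ) - 1 + q) / c) ≤
        ((Δ : ℝ) + 2 * q) / (2 * c) := by
      have : (1 / 2 : ℝ) * ((((up rl z).card : ℝ) - 1 + q) / c) + (1 / 2) * ((((up rg z).card : ℝ) - 1 + q) / c) =
          (((up rl z).card : ℝ) - 1 + ((up rg z).card - 1) + 2 * q) / (2 * c) := by
        field_simp
        ring
      rw [this]
      exact div_le_div_of_nonneg_right (by linarith) (by positivity)
    linarith

/-- A bound valid for every `Δ`. -/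
theorem locDim_crude [Nonempty α] {t : ℕ} (ht : 2 ≤ t) {Δ : ℕ} (hdeg : ∀ x : α, compDeg x ≤ Δ) :
    locDim t α ≤ (∑ j : Fin 1, 1 / (1 - pp (Δ + 2) 1 j) ^ JJ (Δ + 2) j) + ((Δ : ℝ) + 2 * ((Δ + 2 : ℕ) : ℝ)) / (2 * 1) :=
  locDim_upper ht (by omega) one_pos (by push_cast; linarith [(Nat.cast_nonneg Δ : (0 : ℝ) ≤ Δ)]) (by omega) hdeg

theorem bddAbove_MFLD {t : ℕ} (ht : 2 ≤ t) (Δ : ℕ) :
    BddAbove {c | ∃ (α : Type) (_ : Fintype α) (_ : PartialOrder α), HasMaxDeg α Δ ∧ c = locDim t α} := by
  refine ⟨(∑ j : Fin 1, 1 / (1 - pp (Δ + 2) 1 j) ^ JJ (Δ + 2) j) +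
    ((Δ : ℝ) + 2 * ((Δ + 2 : ℕ) : ℝ)) / (2 * 1), ?_⟩
  rintro c ⟨α, i1, i2, h, rfl⟩
  haveI : Nonempty α := ⟨h.2.choose⟩
  exact locDim_crude ht h.1

end Pool.Agent.W_MP_2ea9c5_h26
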