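import Pool.Agent.W_MP_2ea9c5_h26.GDefs
import Pool.Agent.W_MP_2ea9c5_h26.Upper2

namespace Pool.Agent.W_MP_2ea9c5_h26

open Finset

variable {α : Type} [Fintype α] [PartialOrder α] {t : ℕ}

open Classical in
theorem gsum_family {ι : Type} [Fintype ι] (F : ι → α → Fin t) (c : ι → ℝ)
    (Q : (α → Fin t) → Prop) [DecidablePred Q] :
    (∑ f, if Q f then (∑ i, if F i = f then c i else 0) else 0) = ∑ i, if Q (F i) then c i else 0 := by
  have h1 : ∀ f : α → Fin t, (if Q f then (∑ i, if F i = f then c i else 0) else 0) =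
      ∑ i, if F i = f then (if Q (F i) then c i else 0) else 0 := by
    intro f
    by_cases hQ : Q f
    · rw [if_pos hQ]
      refine Finset.sum_congr rfl fun i _ => ?_
      by_cases h : F i = f
      · rw [if_pos h, if_pos h, h, if_pos hQ]
      · rw [if_neg h, if_neg h]
    · rw [if_neg hQ]
      symm
      refine Finset.sum_eq_zero fun i _ => ?_
      by_cases h : F i = f
      · rw [if_pos h, h, if_neg hQ]
      · rw [if_neg h]
  rw [Finset.sum_congr rfl fun f _ => h1 f, Finset.sum_comm]
  refine Finset.sum_congr rfl fun i _ => ?_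
  rw [Finset.sum_ite_eq]
  simp

open Classical in
theorem gfamily_realiser {ι : Type} [Fintype ι] (F : ι → α → Fin t) (c : ι → ℝ)
    (hc : ∀ i, 0 ≤ c i) (hm : ∀ i, Monotone (F i))
    (hcov : ∀ x y, ¬ y ≤ x → 1 ≤ ∑ i, if F i x < F i y then c i else 0) :
    IsFracRealiser t (fun f => ∑ i, if F i = f then c i else 0) ∧
      (∑ f, ∑ i, if F i = f then c i else 0) = ∑ i, c i := by
  refine ⟨⟨?_, ?_, ?_⟩, ?_⟩
  · intro f
    exact Finset.sum_nonneg fun i _ => by split_ifs <;> [exact hc i; exact le_rfl]
  · intro f hf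
    obtain ⟨i, -, hi⟩ := Finset.exists_ne_zero_of_sum_ne_zero hf
    by_cases h : F i = f
    · rw [← h]; exact hm i
    · rw [if_neg h] at hi; exact absurd rfl hi
  · intro x y hxy
    rw [gsum_family F c fun f => f x < f y]
    exact hcov x y hxy
  · have h := gsum_family F c fun _ => True
    simpa using h

/-- The probabilities of the recursive scheme with `k` cuts. -/
noncomputable def gam (D : ℕ) : ℕ → ℝ
  | 0 => 0
  | k + 1 => 1 / (D + 1) * (D / ((D + 1) * (1 - gam D k))) ^ D

theorem gam_bounds (D : ℕ) (hD : 1 ≤ D) (k : ℕ) : 0 ≤ gam D k ∧ gam D k ≤ 1 / (D + 1) := by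
  have hD' : (1 : ℝ) ≤ D := by exact_mod_cast hD
  induction k with
  | zero => exact ⟨le_rfl, by simp only [gam]; positivity⟩
  | succ k ih =>
    obtain ⟨h0, h1⟩ := ih
    have h2 : (D : ℝ) / (D + 1) ≤ 1 - gam D k := by
      have : (D : ℝ) / (D + 1) = 1 - 1 / (D + 1) := by field_simp; ring
      rw [this]; linarith
    have h3 : 0 < 1 - gam D k := lt_of_lt_of_le (by positivity) h2
    have h4 : (D : ℝ) / ((D + 1) * (1 - gam D k)) ≤ 1 := by
      rw [div_le_one (by positivity)]
      rw [div_le_iff₀ (by positivity)] at h2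
      linarith
    have h5 : 0 ≤ (D : ℝ) / ((D + 1) * (1 - gam D k)) := by positivity
    simp only [gam]
    constructor
    · positivity
    · have h6 := pow_le_one₀ (n := D) h5 h4
      have h7 : 0 ≤ 1 / ((D : ℝ) + 1) := by positivity
      calc 1 / ((D : ℝ) + 1) * (D / ((D + 1) * (1 - gam D k))) ^ D ≤ 1 / ((D : ℝ) + 1) * 1 :=
            mul_le_mul_of_nonneg_left h6 h7
        _ = _ := mul_one _

theorem gam_succ_pos (D : ℕ) (hD : 1 ≤ D) (k : ℕ) : 0 < gam D (k + 1) := by
  have hD' : (1 : ℝ) ≤ D := by exact_mod_cast hD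
  obtain ⟨h0, h1⟩ := gam_bounds D hD k
  have h2 : (D : ℝ) / (D + 1) ≤ 1 - gam D k := by
    have : (D : ℝ) / (D + 1) = 1 - 1 / (D + 1) := by field_simp; ring
    rw [this]; linarith
  have h3 : 0 < 1 - gam D k := lt_of_lt_of_le (by positivity) h2
  simp only [gam]
  positivity

open Classical in
/-- **The random scheme.** -/
theorem exists_scheme (D : ℕ) (hD : 1 ≤ D) (hup : ∀ y : α, (univ.filter fun z => y ≤ z).card ≤ D)
    (k : ℕ) : ∃ (ι : Type) (_ : Fintype ι) (F : ι → α → Fin (k + 1)) (c : ι → ℝ),
      (∀ i, 0 ≤ c i) ∧ (∑ i, c i = 1) ∧ (∀ i, Monotone (F i)) ∧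
      ∀ x y, ¬ y ≤ x → gam D k ≤ ∑ i, if F i x < F i y then c i else 0 := by
  classical
  induction k with
  | zero =>
    refine ⟨Unit, inferInstance, fun _ _ => 0, fun _ => 1, fun _ => zero_le_one, by simp,
      fun _ _ _ _ => le_rfl, fun x y _ => ?_⟩
    simp [gam]
  | succ k ih =>
    obtain ⟨ι, _, F, c, hc, hs, hm, hcov⟩ := ih
    have hD' : (1 : ℝ) ≤ D := by exact_mod_cast hD
    obtain ⟨h0, h1⟩ := gam_bounds D hD k
    set m := gam D k with hmdef
    have h2 : (D : ℝ) / (D + 1) ≤ 1 - m := by
      have : (D : ℝ) / (D + 1) = 1 - 1 / (D + 1) := by field_simp; ring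
      rw [this]; linarith
    have h3 : 0 < 1 - m := lt_of_lt_of_le (by positivity) h2
    set q : ℝ := D / ((D + 1) * (1 - m)) with hq
    have hq1 : q ≤ 1 := by
      rw [hq, div_le_one (by positivity)]
      rw [div_le_iff₀ (by positivity)] at h2
      linarith
    have hq0 : 0 ≤ q := by positivity
    set p : ℝ := 1 - q with hp
    have hp0 : 0 ≤ p := by linarith
    have hp1 : p ≤ 1 := by linarith
    have hpq : p + q * m = 1 / (D + 1) := by
      have : q * (1 - m) = D / (D + 1) := by rw [hq]; field_simp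
      have h4 : p + q * m = 1 - q * (1 - m) := by rw [hp]; ring
      rw [h4, this]
      field_simp
      ring
    let F' : Finset α × ι → α → Fin (k + 1 + 1) := fun i z =>
      if ∃ r ∈ i.1, z ≤ r then 0 else (F i.2 z).succ
    let c' : Finset α × ι → ℝ := fun i => mu (fun _ => p) i.1 * c i.2
    have hmu : ∀ R : Finset α, 0 ≤ mu (fun _ => p) R := mu_nonneg (fun _ => hp0) (fun _ => hp1)
    refine ⟨Finset α × ι, inferInstance, F', c', fun i => mul_nonneg (hmu _) (hc _), ?_, ?_, ?_⟩
    · rw [Fintype.sum_prod_type]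
      simp only [c']
      simp_rw [← Finset.mul_sum, hs, mul_one]
      exact sum_mu_all _
    · rintro ⟨R, i⟩ x y hxy
      simp only [F']
      by_cases h : ∃ r ∈ R, y ≤ r
      · obtain ⟨r, hr, hle⟩ := h
        rw [if_pos ⟨r, hr, hxy.trans hle⟩]
        exact Fin.zero_le _
      · rw [if_neg h]
        split_ifs
        · exact Fin.zero_le _
        · exact Fin.succ_le_succ_iff.2 (hm i hxy)
    · intro x y hxy
      set U : Finset α := univ.filter fun z => y ≤ z with hU
      have hxU : x ∉ U := fun h => hxy (Finset.mem_filter.1 h).2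
      have hdisj : ∀ R : Finset α, Disjoint R U → ¬ ∃ r ∈ R, y ≤ r := by
        rintro R hR ⟨r, hr, hle⟩
        exact Finset.disjoint_left.1 hR hr (Finset.mem_filter.2 ⟨Finset.mem_univ _, hle⟩)
      have hlow : ∀ R : Finset α, (if x ∈ R ∧ Disjoint R U then mu (fun _ => p) R else 0) +
          (if Disjoint R (insert x U) then mu (fun _ => p) R * m else 0) ≤
          ∑ i, if F' (R, i) x < F' (R, i) y then c' (R, i) else 0 := by
        intro R
        by_cases hRU : Disjoint R U
        · have hy := hdisj R hRU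
          by_cases hx : ∃ r ∈ R, x ≤ r
          · -- everything is separated
            have h5 : (∑ i, if F' (R, i) x < F' (R, i) y then c' (R, i) else 0) = mu (fun _ => p) R := by
              have : ∀ i, (if F' (R, i) x < F' (R, i) y then c' (R, i) else 0) =
                  mu (fun _ => p) R * c i := by
                intro i
                simp only [F', c']
                rw [if_pos hx, if_neg hy, if_pos (Fin.succ_pos _)]
              rw [Finset.sum_congr rfl fun i _ => this i, ← Finset.mul_sum, hs, mul_one]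
            rw [h5]
            by_cases hxR : x ∈ R
            · have h6 : ¬ Disjoint R (insert x U) := fun h =>
                Finset.disjoint_left.1 h hxR (Finset.mem_insert_self _ _)
              rw [if_pos ⟨hxR, hRU⟩, if_neg h6, add_zero]
            · rw [if_neg fun h => hxR h.1, zero_add]
              split_ifs
              · calc mu (fun _ => p) R * m ≤ mu (fun _ => p) R * 1 :=
                      mul_le_mul_of_nonneg_left (by linarith) (hmu R)
                  _ = _ := mul_one _
              · exact hmu R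
          · have hxR : x ∉ R := fun h => hx ⟨x, h, le_rfl⟩
            have h6 : Disjoint R (insert x U) := by
              rw [Finset.disjoint_insert_right]
              exact ⟨hxR, hRU⟩
            rw [if_neg fun h => hxR h.1, if_pos h6, zero_add]
            have h7 : (∑ i, if F' (R, i) x < F' (R, i) y then c' (R, i) else 0) =
                mu (fun _ => p) R * ∑ i, if F i x < F i y then c i else 0 := by
              rw [Finset.mul_sum]
              refine Finset.sum_congr rfl fun i _ => ?_
              simp only [F', c']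
              rw [if_neg hx, if_neg hy]
              by_cases h8 : F i x < F i y
              · rw [if_pos h8, if_pos (Fin.succ_lt_succ_iff.2 h8)]
              · rw [if_neg h8, if_neg fun h => h8 (Fin.succ_lt_succ_iff.1 h), mul_zero]
            rw [h7]
            exact mul_le_mul_of_nonneg_left (hcov x y hxy) (hmu R)
        · have h6 : ¬ Disjoint R (insert x U) := fun h => by
            rw [Finset.disjoint_insert_right] at h
            exact hRU h.2
          rw [if_neg fun h => hRU h.2, if_neg h6, add_zero]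
          refine Finset.sum_nonneg fun i _ => ?_
          split_ifs
          · exact mul_nonneg (hmu _) (hc _)
          · exact le_rfl
      rw [Fintype.sum_prod_type]
      refine le_trans ?_ (Finset.sum_le_sum fun R _ => hlow R)
      rw [Finset.sum_add_distrib, sum_mu_mem_disj (fun _ : α => p) x U hxU]
      have h9 : ∑ R : Finset α, (if Disjoint R (insert x U) then mu (fun _ => p) R * m else 0) =
          (∏ _z ∈ insert x U, (1 - p)) * m := by
        rw [← sum_mu_disj (fun _ : α => p) (insert x U), Finset.sum_mul]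
        refine Finset.sum_congr rfl fun R _ => ?_
        split_ifs
        · rfl
        · rw [zero_mul]
      rw [h9, Finset.prod_const, Finset.prod_const, Finset.card_insert_of_notMem hxU]
      have h10 : 1 - p = q := by rw [hp]; ring
      rw [h10]
      have h11 : q ^ D ≤ q ^ U.card := pow_le_pow_of_le_one hq0 hq1 (hup y)
      calc gam D (k + 1) = (p + q * m) * q ^ D := by rw [hpq]; rfl
        _ ≤ (p + q * m) * q ^ U.card := by
            refine mul_le_mul_of_nonneg_left h11 ?_
            rw [hpq]; positivity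
        _ = p * q ^ U.card + q ^ (U.card + 1) * m := by rw [pow_succ]; ring

open Classical in
/-- The upper bound for the fractional dimension of a poset. -/
theorem exists_frac_realiser {k : ℕ} (hk : 1 ≤ k) {Δ : ℕ} (hdeg : ∀ x : α, compDeg x ≤ Δ) :
    ∃ w : (α → Fin (k + 1)) → ℝ, IsFracRealiser (k + 1) w ∧ ∑ f, w f ≤ 1 / gam (Δ + 1) k := by
  have hup : ∀ y : α, (univ.filter fun z => y ≤ z).card ≤ Δ + 1 := by
    intro y
    have h1 := card_up_add y
    have h2 := hdeg y
    have h3 : (up (fun a b : α => a ≤ b) y).card = (univ.filter fun z => y ≤ z).card := by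
      unfold up
      congr 1
    omega
  obtain ⟨ι, _, F, c, hc, hs, hm, hcov⟩ := exists_scheme (α := α) (Δ + 1) (by omega) hup k
  obtain ⟨k', rfl⟩ : ∃ k', k = k' + 1 := ⟨k - 1, by omega⟩
  have hpos := gam_succ_pos (Δ + 1) (by omega) k'
  set g := gam (Δ + 1) (k' + 1) with hg
  have hcov' : ∀ x y, ¬ y ≤ x → 1 ≤ ∑ i, if F i x < F i y then c i / g else 0 := by
    intro x y hxy
    have h3 : (∑ i, if F i x < F i y then c i / g else 0) =
        (∑ i, if F i x < F i y then c i else 0) / g := by
      rw [Finset.sum_div]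
      refine Finset.sum_congr rfl fun i _ => ?_
      split_ifs
      · rfl
      · rw [zero_div]
    rw [h3, le_div_iff₀ hpos, one_mul]
    exact hcov x y hxy
  obtain ⟨h1, h2⟩ := gfamily_realiser F (fun i => c i / g)
    (fun i => div_nonneg (hc i) hpos.le) hm hcov'
  refine ⟨_, h1, ?_⟩
  rw [h2, ← Finset.sum_div, hs]

theorem fracDim_le {k : ℕ} (hk : 1 ≤ k) {Δ : ℕ} (hdeg : ∀ x : α, compDeg x ≤ Δ) :
    fracDim (k + 1) α ≤ 1 / gam (Δ + 1) k := by
  classical
  obtain ⟨w, hw, hs⟩ := exists_frac_realiser (α := α) hk hdeg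
  refine csInf_le ⟨0, ?_⟩ ⟨w, hw, by convert hs⟩
  rintro c ⟨w', hw', hc⟩
  exact (Finset.sum_nonneg fun f _ => hw'.nonneg f).trans hc

open Classical in
theorem le_fracDim (ht : 2 ≤ t) {L : ℝ} (h : ∀ (w : (α → Fin t) → ℝ), IsFracRealiser t w →
    L ≤ ∑ f, w f) : L ≤ fracDim t α := by
  obtain ⟨k, rfl⟩ : ∃ k, t = k + 1 := ⟨t - 1, by omega⟩
  refine le_csInf ?_ ?_
  · obtain ⟨w, hw, hs⟩ := exists_frac_realiser (α := α) (Δ := ∑ x : α, compDeg x)
      (show 1 ≤ k by omega)
      (fun x => Finset.single_le_sum (f := fun x : α => compDeg x) (fun _ _ => Nat.zero_le _)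
        (Finset.mem_univ x))
    exact ⟨_, w, hw, hs⟩
  · rintro c ⟨w, hw, hc⟩
    exact (h w hw).trans hc

theorem bddAbove_MFD (ht : 2 ≤ t) (Δ : ℕ) :
    BddAbove {c | ∃ (α : Type) (_ : Fintype α) (_ : PartialOrder α), HasMaxDeg α Δ ∧ c = fracDim t α} := by
  obtain ⟨k, rfl⟩ : ∃ k, t = k + 1 := ⟨t - 1, by omega⟩
  refine ⟨1 / gam (Δ + 1) k, ?_⟩
  rintro c ⟨α, i1, i2, h, rfl⟩
  exact fracDim_le (by omega) h.1

theorem MFD_upper {k : ℕ} (hk : 1 ≤ k) (Δ : ℕ) : MFD (k + 1) Δ ≤ 1 / gam (Δ + 1) k := by
  unfold MFD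
  refine Real.sSup_le ?_ ?_
  · rintro x ⟨α, i1, i2, h, rfl⟩
    exact fracDim_le hk h.1
  · have := (gam_bounds (Δ + 1) (by omega) k).1
    positivity

end Pool.Agent.W_MP_2ea9c5_h26
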