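import Pool.Agent.W_MP_2ea9c5_h26.GHole
import Pool.Agent.W_MP_2ea9c5_h26.GUpper
import Pool.Agent.W_MP_2ea9c5_h26.Bip

/-!
The lower bound for the fractional `t`-dimension.
-/

namespace Pool.Agent.W_MP_2ea9c5_h26

open Finset Equiv

/-- The constants: `m_0 = 0`, `m_{k+1} = exp (m_k - 1)`. -/
noncomputable def MM : ℕ → ℝ
  | 0 => 0
  | k + 1 => Real.exp (MM k - 1)

theorem MM_nonneg (k : ℕ) : 0 ≤ MM k := by
  cases k with
  | zero => exact le_rfl
  | succ k => exact (Real.exp_pos _).le

theorem MM_succ_pos (k : ℕ) : 0 < MM (k + 1) := Real.exp_pos _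

theorem MM_le_one (k : ℕ) : MM k ≤ 1 := by
  induction k with
  | zero => exact zero_le_one
  | succ k ih =>
    show Real.exp (MM k - 1) ≤ 1
    rw [Real.exp_le_one_iff]
    linarith

theorem MM_mono_succ (k : ℕ) : MM k ≤ MM (k + 1) := by
  show MM k ≤ Real.exp (MM k - 1)
  have := Real.add_one_le_exp (MM k - 1)
  linarith

theorem MM_concave (k : ℕ) : MM (k + 2) - MM (k + 1) ≤ MM (k + 1) - MM k := by
  have h1 := MM_mono_succ k
  have h2 := MM_le_one (k + 1)
  set u := MM k with hu
  set v := MM (k + 1) with hv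
  have e1 : MM (k + 2) = Real.exp (v - 1) := rfl
  have e2 : v = Real.exp (u - 1) := rfl
  have h3 : Real.exp (u - 1) = Real.exp (v - 1) * Real.exp (u - v) := by
    rw [← Real.exp_add]; congr 1; ring
  have h4 : 1 - Real.exp (u - v) ≤ v - u := by
    have := Real.add_one_le_exp (u - v)
    linarith
  have h5 : Real.exp (v - 1) ≤ 1 := by rw [Real.exp_le_one_iff]; linarith
  have h6 : 0 ≤ 1 - Real.exp (u - v) := by
    have : Real.exp (u - v) ≤ 1 := by rw [Real.exp_le_one_iff]; linarith
    linarith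
  calc MM (k + 2) - v = Real.exp (v - 1) - Real.exp (u - 1) := by rw [e1, ← e2]
    _ = Real.exp (v - 1) * (1 - Real.exp (u - v)) := by rw [h3]; ring
    _ ≤ 1 * (1 - Real.exp (u - v)) := mul_le_mul_of_nonneg_right h5 h6
    _ ≤ v - u := by linarith

theorem MM_diff_anti (a m : ℕ) : MM (a + m + 1) - MM (a + m) ≤ MM (a + 1) - MM a := by
  induction m with
  | zero => exact le_rfl
  | succ m ih => exact (MM_concave (a + m)).trans ih

/-- The constant of the bipartite lower bound, for `k = t - 1` cuts. -/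
noncomputable def BB (k : ℕ) : ℝ := MM (k / 2) + MM (k - k / 2)

theorem MM_add_le (m : ℕ) : ∀ a : ℕ, MM a + MM (a + m) ≤ MM (a + m / 2) + MM (a + m - m / 2) := by
  induction m using Nat.strong_induction_on with
  | _ m ih =>
    intro a
    rcases Nat.lt_or_ge m 2 with h | h
    · have h0 : m / 2 = 0 := by omega
      rw [h0]
      simp
    · obtain ⟨m', rfl⟩ : ∃ m', m = m' + 2 := ⟨m - 2, by omega⟩
      have h1 := ih m' (by omega) (a + 1)
      have h2 := MM_diff_anti a (m' + 1)
      have e1 : a + 1 + m' / 2 = a + (m' + 2) / 2 := by omega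
      have e2 : a + 1 + m' - m' / 2 = a + (m' + 2) - (m' + 2) / 2 := by omega
      have e3 : a + (m' + 1) = a + 1 + m' := by omega
      have e4 : a + (m' + 1) + 1 = a + (m' + 2) := by omega
      rw [e1, e2] at h1
      rw [e4, e3] at h2
      linarith

theorem MM_le_BB {k j : ℕ} (hj : j ≤ k) : MM j + MM (k - j) ≤ BB k := by
  unfold BB
  rcases le_total j (k - j) with h | h
  · have h1 := MM_add_le (k - 2 * j) j
    have e1 : j + (k - 2 * j) = k - j := by omega
    have e2 : j + (k - 2 * j) / 2 = k / 2 := by omega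
    have e3 : j + (k - 2 * j) - (k - 2 * j) / 2 = k - k / 2 := by omega
    rw [e3, e1, e2] at h1
    exact h1
  · have h1 := MM_add_le (2 * j - k) (k - j)
    have e1 : k - j + (2 * j - k) = j := by omega
    have e2 : k - j + (2 * j - k) / 2 = k / 2 := by omega
    have e3 : k - j + (2 * j - k) - (2 * j - k) / 2 = k - k / 2 := by omega
    rw [e3, e1, e2] at h1
    linarith

theorem riem_up (j : ℕ) : ∀ Y : ℕ → ℝ, (∀ i, Y i ≤ Y (i + 1)) →
    ∑ i ∈ range j, (Y (i + 1) - Y i) * Real.exp (-Y (i + 1)) ≤ Real.exp (-Y 0) * MM j := by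
  induction j with
  | zero => intro Y _; simp [MM]
  | succ j ih =>
    intro Y hY
    rw [Finset.sum_range_succ']
    have h1 := ih (fun i => Y (i + 1)) (fun i => hY (i + 1))
    simp only [zero_add] at h1 ⊢
    have h2 : MM j + (Y 1 - Y 0) ≤ Real.exp (MM j + (Y 1 - Y 0) - 1) := by
      have := Real.add_one_le_exp (MM j + (Y 1 - Y 0) - 1)
      linarith
    calc _ ≤ Real.exp (-Y 1) * MM j + (Y 1 - Y 0) * Real.exp (-Y 1) := by linarith
      _ = Real.exp (-Y 1) * (MM j + (Y 1 - Y 0)) := by ring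
      _ ≤ Real.exp (-Y 1) * Real.exp (MM j + (Y 1 - Y 0) - 1) :=
          mul_le_mul_of_nonneg_left h2 (Real.exp_nonneg _)
      _ = Real.exp (-Y 0) * MM (j + 1) := by
          show _ = Real.exp (-Y 0) * Real.exp (MM j - 1)
          rw [← Real.exp_add, ← Real.exp_add]
          congr 1
          ring

theorem riem_down (m : ℕ) (X : ℕ → ℝ) :
    ∑ i ∈ range m, (X i - X (i + 1)) * Real.exp (-X i) ≤ Real.exp (-X m) * MM m := by
  induction m with
  | zero => simp [MM]
  | succ m ih =>
    rw [Finset.sum_range_succ]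
    have h2 : MM m + (X m - X (m + 1)) ≤ Real.exp (MM m + (X m - X (m + 1)) - 1) := by
      have := Real.add_one_le_exp (MM m + (X m - X (m + 1)) - 1)
      linarith
    calc _ ≤ Real.exp (-X m) * MM m + (X m - X (m + 1)) * Real.exp (-X m) := by linarith
      _ = Real.exp (-X m) * (MM m + (X m - X (m + 1))) := by ring
      _ ≤ Real.exp (-X m) * Real.exp (MM m + (X m - X (m + 1)) - 1) :=
          mul_le_mul_of_nonneg_left h2 (Real.exp_nonneg _)
      _ = Real.exp (-X (m + 1)) * MM (m + 1) := by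
          show _ = Real.exp (-X (m + 1)) * Real.exp (MM m - 1)
          rw [← Real.exp_add, ← Real.exp_add]
          congr 1
          ring

theorem abel (x y : ℕ → ℝ) (j m : ℕ) :
    ∑ i ∈ range m, (y (j + i + 1) - y (j + i)) * x (j + i + 1) =
      ∑ i ∈ range m, y (j + i + 1) * (x (j + i + 1) - x (j + i + 1 + 1)) +
        y (j + m) * x (j + m + 1) - y j * x (j + 1) := by
  induction m with
  | zero => simp
  | succ m ih =>
    rw [Finset.sum_range_succ, Finset.sum_range_succ, ih]
    have e : j + (m + 1) = j + m + 1 := by omega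
    rw [e]
    ring

/-- **The deterministic optimisation.** -/
theorem optimise {k : ℕ} {x y : ℕ → ℝ} {Δ d B : ℝ} (hΔ : 0 ≤ Δ) (hd : 0 ≤ d) (hB : 0 ≤ B)
    (hy : ∀ i, y i ≤ y (i + 1)) (hy0 : y 0 = 0) (hx : ∀ i, x (i + 1) ≤ x i) (hx0 : ∀ i, 0 ≤ x i)
    (hxk : x (k + 1) = 0)
    (H1 : ∀ i, 0 < y i → y i ≤ B → x i ≤ Δ * (Real.exp (-y i) + d / y i))
    (H2 : ∀ i, 0 < x i → x i ≤ B → y i ≤ Δ * (Real.exp (-x i) + d / x i))
    (H3 : ∀ i, ¬ (B < y i ∧ B < x i)) :
    ∑ i ∈ range k, (y (i + 1) - y i) * x (i + 1) ≤ Δ * (BB k + k * d) := by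
  classical
  have hymono : Monotone y := monotone_nat_of_le_succ hy
  have hynn : ∀ i, 0 ≤ y i := fun i => by rw [← hy0]; exact hymono (Nat.zero_le i)
  set j := Nat.findGreatest (fun i => y i ≤ B) k with hj
  have hjk : j ≤ k := Nat.findGreatest_le k
  have hjB : y j ≤ B := by
    have : y 0 ≤ B := by rw [hy0]; exact hB
    exact Nat.findGreatest_spec (P := fun i => y i ≤ B) (Nat.zero_le k) this
  have hjgt : ∀ i, j < i → i ≤ k → B < y i := by
    intro i h1 h2
    have := Nat.findGreatest_is_greatest (P := fun i => y i ≤ B) h1 h2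
    exact not_le.1 this
  obtain ⟨m, hm⟩ : ∃ m, k = j + m := ⟨k - j, by omega⟩
  have hsplit : ∑ i ∈ range k, (y (i + 1) - y i) * x (i + 1) =
      ∑ i ∈ range j, (y (i + 1) - y i) * x (i + 1) +
        ∑ i ∈ range m, (y (j + i + 1) - y (j + i)) * x (j + i + 1) := by
    rw [hm, Finset.sum_range_add]
  have hA : ∑ i ∈ range j, (y (i + 1) - y i) * x (i + 1) ≤ Δ * (MM j + j * d) := by
    have h1 : ∀ i ∈ range j, (y (i + 1) - y i) * x (i + 1) ≤
        Δ * ((y (i + 1) - y i) * Real.exp (-y (i + 1)) + d) := by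
      intro i hi
      have hij : i + 1 ≤ j := Finset.mem_range.1 hi
      have h2 := hynn i
      have h3 := hy i
      rcases (hynn (i + 1)).eq_or_lt with h0 | h0
      · have h4 : y i = 0 := by linarith
        rw [← h0, h4]
        have : 0 ≤ Δ * d := mul_nonneg hΔ hd
        simpa using this
      · have h4 := H1 (i + 1) h0 ((hymono hij).trans hjB)
        have h5 : (y (i + 1) - y i) * (d / y (i + 1)) ≤ d := by
          rw [mul_div_assoc', div_le_iff₀ h0]
          nlinarith
        calc (y (i + 1) - y i) * x (i + 1)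
            ≤ (y (i + 1) - y i) * (Δ * (Real.exp (-y (i + 1)) + d / y (i + 1))) :=
              mul_le_mul_of_nonneg_left h4 (by linarith)
          _ = Δ * ((y (i + 1) - y i) * Real.exp (-y (i + 1)) + (y (i + 1) - y i) * (d / y (i + 1))) := by
              ring
          _ ≤ _ := mul_le_mul_of_nonneg_left (by linarith) hΔ
    refine (Finset.sum_le_sum h1).trans ?_
    rw [← Finset.mul_sum, Finset.sum_add_distrib, Finset.sum_const, Finset.card_range, nsmul_eq_mul]
    refine mul_le_mul_of_nonneg_left ?_ hΔ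
    have h6 := riem_up j y hy
    rw [hy0, neg_zero, Real.exp_zero, one_mul] at h6
    linarith
  have hC : ∑ i ∈ range m, (y (j + i + 1) - y (j + i)) * x (j + i + 1) ≤ Δ * (MM m + m * d) := by
    rw [abel, ← hm, hxk, mul_zero, add_zero]
    have h0 : 0 ≤ y j * x (j + 1) := mul_nonneg (hynn _) (hx0 _)
    have h1 : ∀ i ∈ range m, y (j + i + 1) * (x (j + i + 1) - x (j + i + 1 + 1)) ≤
        Δ * ((x (j + i + 1) - x (j + i + 1 + 1)) * Real.exp (-x (j + i + 1)) + d) := by
      intro i hi
      have hi' := Finset.mem_range.1 hi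
      have h2 := hx0 (j + i + 1 + 1)
      have h3 := hx (j + i + 1)
      rcases (hx0 (j + i + 1)).eq_or_lt with h0 | h0
      · have h4 : x (j + i + 1 + 1) = 0 := by linarith
        rw [← h0, h4]
        have : 0 ≤ Δ * d := mul_nonneg hΔ hd
        simpa using this
      · have h5 : x (j + i + 1) ≤ B := by
          by_contra hc
          exact H3 (j + i + 1) ⟨hjgt _ (by omega) (by omega), not_le.1 hc⟩
        have h4 := H2 (j + i + 1) h0 h5
        have h6 : (x (j + i + 1) - x (j + i + 1 + 1)) * (d / x (j + i + 1)) ≤ d := by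
          rw [mul_div_assoc', div_le_iff₀ h0]
          nlinarith
        calc y (j + i + 1) * (x (j + i + 1) - x (j + i + 1 + 1))
            ≤ (Δ * (Real.exp (-x (j + i + 1)) + d / x (j + i + 1))) *
              (x (j + i + 1) - x (j + i + 1 + 1)) :=
              mul_le_mul_of_nonneg_right h4 (by linarith)
          _ = Δ * ((x (j + i + 1) - x (j + i + 1 + 1)) * Real.exp (-x (j + i + 1)) +
              (x (j + i + 1) - x (j + i + 1 + 1)) * (d / x (j + i + 1))) := by ring
          _ ≤ _ := mul_le_mul_of_nonneg_left (by linarith) hΔ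
    have h2 := Finset.sum_le_sum h1
    rw [← Finset.mul_sum, Finset.sum_add_distrib, Finset.sum_const, Finset.card_range, nsmul_eq_mul] at h2
    have h6 : ∑ i ∈ range m, (x (j + i + 1) - x (j + (i + 1) + 1)) * Real.exp (-x (j + i + 1)) ≤
        Real.exp (-x (j + m + 1)) * MM m := riem_down m (fun i => x (j + i + 1))
    have e : j + m + 1 = k + 1 := by omega
    rw [e, hxk, neg_zero, Real.exp_zero, one_mul] at h6
    have h7 : ∑ i ∈ range m, (x (j + i + 1) - x (j + i + 1 + 1)) * Real.exp (-x (j + i + 1)) ≤ MM m := by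
      refine le_trans (le_of_eq ?_) h6
      refine Finset.sum_congr rfl fun i _ => ?_
      have e' : j + (i + 1) + 1 = j + i + 1 + 1 := by omega
      rw [e']
    have h8 := mul_le_mul_of_nonneg_left (add_le_add_left h7 (m * d)) hΔ
    linarith
  have hBB : MM j + MM m ≤ BB k := by
    have := MM_le_BB hjk
    rwa [show k - j = m by omega] at this
  have hmr : (k : ℝ) = j + m := by rw [hm]; push_cast; ring
  rw [hsplit]
  calc _ ≤ Δ * (MM j + j * d) + Δ * (MM m + m * d) := add_le_add hA hC
    _ = Δ * ((MM j + MM m) + k * d) := by rw [hmr]; ring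
    _ ≤ Δ * (BB k + k * d) := mul_le_mul_of_nonneg_left (by linarith) hΔ

end Pool.Agent.W_MP_2ea9c5_h26
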