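import Pool.Agent.W_MP_2ea9c5_h26.GBip

/-!
Asymptotics of `MFD_t(Δ)`.
-/

namespace Pool.Agent.W_MP_2ea9c5_h26

open Finset Equiv Filter Topology

theorem BB_pos {k : ℕ} (hk : 1 ≤ k) : 0 < BB k := by
  obtain ⟨j, hj⟩ : ∃ j, k - k / 2 = j + 1 := ⟨k - k / 2 - 1, by omega⟩
  unfold BB
  rw [hj]
  have h1 := MM_nonneg (k / 2)
  have h2 := MM_succ_pos j
  linarith

theorem MM_pos {k : ℕ} (hk : 1 ≤ k) : 0 < MM k := by
  obtain ⟨j, rfl⟩ : ∃ j, k = j + 1 := ⟨k - 1, by omega⟩
  exact MM_succ_pos j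

/-- the standard examples -/
theorem MFD_std {t : ℕ} (ht : 2 ≤ t) (Δ : ℕ) : (Δ : ℝ) + 1 ≤ MFD t Δ := by
  classical
  let R : Fin (Δ + 1) → Fin (Δ + 1) → Prop := fun i j => i ≠ j
  have hdeg : HasMaxDeg (Bip R) Δ := by
    have h1 : ∀ b : Fin (Δ + 1), compDeg (bmin R b) = Δ := by
      intro b
      rw [compDeg_bmin_eq (R := R) b (univ.erase b)]
      · rw [Finset.card_erase_of_mem (Finset.mem_univ _), Finset.card_univ, Fintype.card_fin]
        omega
      · intro a
        simp only [R, Finset.mem_erase, Finset.mem_univ, and_true]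
        exact ne_comm
    refine ⟨fun x => ?_, bmin R 0, h1 0⟩
    rcases bip_cases x with ⟨b, rfl⟩ | ⟨a, rfl⟩
    · exact (h1 b).le
    · refine (compDeg_bmax (R := R) a (univ.erase a) ?_).trans ?_
      · intro b h
        exact Finset.mem_erase.2 ⟨h, Finset.mem_univ _⟩
      · rw [Finset.card_erase_of_mem (Finset.mem_univ _), Finset.card_univ, Fintype.card_fin]
        omega
  refine le_trans ?_ (le_csSup (bddAbove_MFD ht Δ)
    ⟨Bip R, inferInstance, inferInstance, hdeg, rfl⟩)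
  refine le_fracDim ht fun w hw => ?_
  have h1 : ∀ i : Fin (Δ + 1), (1 : ℝ) ≤ ∑ f, if f (bmax R i) < f (bmin R i) then w f else 0 := by
    intro i
    refine hw.cover _ _ fun h => ?_
    exact (bmin_le_bmax.1 h) rfl
  calc (Δ : ℝ) + 1 = ∑ _i : Fin (Δ + 1), (1 : ℝ) := by simp
    _ ≤ ∑ i : Fin (Δ + 1), ∑ f, (if f (bmax R i) < f (bmin R i) then w f else 0) :=
        Finset.sum_le_sum fun i _ => h1 i
    _ = ∑ f, ∑ i : Fin (Δ + 1), (if f (bmax R i) < f (bmin R i) then w f else 0) :=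
        Finset.sum_comm
    _ ≤ ∑ f, w f := by
        refine Finset.sum_le_sum fun f _ => ?_
        by_cases hf : w f = 0
        · simp [hf]
        have hmono := hw.mono f hf
        by_cases hex : ∃ i, f (bmax R i) < f (bmin R i)
        · obtain ⟨i, hi⟩ := hex
          rw [Finset.sum_eq_single i]
          · rw [if_pos hi]
          · intro j _ hji
            rw [if_neg]
            intro hj
            have h2 : f (bmin R i) ≤ f (bmax R j) := hmono (bmin_le_bmax.2 (Ne.symm hji))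
            have h3 : f (bmin R j) ≤ f (bmax R i) := hmono (bmin_le_bmax.2 hji)
            exact absurd (hi.trans_le (h2.trans (hj.le.trans h3))) (lt_irrefl _)
          · intro h; exact absurd (Finset.mem_univ i) h
        · push Not at hex
          rw [Finset.sum_eq_zero]
          · exact hw.nonneg f
          · intro i _
            rw [if_neg (not_lt.2 (hex i))]

theorem gam_ge (D : ℕ) (hD : 1 ≤ D) (k : ℕ) : MM k ≤ (D + 1) * gam D k := by
  have hD' : (1 : ℝ) ≤ D := by exact_mod_cast hD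
  have hD0 : (0 : ℝ) < D := by linarith
  induction k with
  | zero => simp [MM, gam]
  | succ k ih =>
    obtain ⟨g0, g1⟩ := gam_bounds D hD k
    set G : ℝ := (D + 1) * gam D k with hG
    have hG1 : G ≤ 1 := by
      rw [le_div_iff₀ (by positivity)] at g1
      rw [hG]; linarith
    have h1 : ((D : ℝ) + 1) * (1 - gam D k) = D + (1 - G) := by rw [hG]; ring
    have h2 : 0 < (D : ℝ) + (1 - G) := by linarith
    have h3 : ((D : ℝ) + 1) * gam D (k + 1) = (D / (D + (1 - G))) ^ D := by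
      simp only [gam]
      rw [h1]
      field_simp
    rw [h3]
    have h4 : (1 + (1 - G) / D) ^ D ≤ Real.exp (1 - G) := by
      calc (1 + (1 - G) / D) ^ D ≤ Real.exp ((1 - G) / D) ^ D := by
            refine pow_le_pow_left₀ ?_ ?_ D
            · have : 0 ≤ (1 - G) / D := div_nonneg (by linarith) hD0.le
              linarith
            · have := Real.add_one_le_exp ((1 - G) / D)
              linarith
        _ = Real.exp (1 - G) := by
            rw [← Real.exp_nat_mul]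
            congr 1
            field_simp
    have h5 : (D : ℝ) / (D + (1 - G)) = 1 / (1 + (1 - G) / D) := by
      field_simp
    have h6 : 0 < 1 + (1 - G) / D := by
      have : 0 ≤ (1 - G) / D := div_nonneg (by linarith) hD0.le
      linarith
    rw [h5, one_div_pow]
    calc MM (k + 1) = Real.exp (MM k - 1) := rfl
      _ ≤ Real.exp (-(1 - G)) := Real.exp_le_exp.2 (by linarith)
      _ = 1 / Real.exp (1 - G) := by rw [Real.exp_neg, one_div]
      _ ≤ 1 / (1 + (1 - G) / D) ^ D := one_div_le_one_div_of_le (pow_pos h6 D) h4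

/-- The upper bound, for all `t` and `Δ`. -/
theorem MFD_le {k : ℕ} (hk : 1 ≤ k) (Δ : ℕ) : MFD (k + 1) Δ ≤ (Δ + 2) / MM k := by
  refine (MFD_upper hk Δ).trans ?_
  have h1 := gam_ge (Δ + 1) (by omega) k
  push_cast at h1
  have hM := MM_pos hk
  have hg : 0 < gam (Δ + 1) k := by
    obtain ⟨k', rfl⟩ : ∃ k', k = k' + 1 := ⟨k - 1, by omega⟩
    exact gam_succ_pos (Δ + 1) (by omega) k'
  rw [div_le_div_iff₀ hg hM]
  linarith

theorem tendsto_MM : Tendsto MM atTop (𝓝 1) := by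
  have hmono : Monotone MM := monotone_nat_of_le_succ MM_mono_succ
  have hbdd : BddAbove (Set.range MM) := ⟨1, by rintro _ ⟨k, rfl⟩; exact MM_le_one k⟩
  have h1 := tendsto_atTop_ciSup hmono hbdd
  set l := ⨆ i, MM i with hl
  have h2 : Tendsto (fun k => MM (k + 1)) atTop (𝓝 l) := h1.comp (tendsto_add_atTop_nat 1)
  have h3 : Tendsto (fun k => Real.exp (MM k - 1)) atTop (𝓝 (Real.exp (l - 1))) :=
    (Real.continuous_exp.tendsto _).comp (h1.sub tendsto_const_nhds)
  have h4 : Real.exp (l - 1) = l := tendsto_nhds_unique h3 h2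
  have h5 : l = 1 := by
    by_contra hne
    have := Real.add_one_lt_exp (sub_ne_zero.2 hne)
    linarith
  rw [h5] at h1
  exact h1

theorem lower_ev {k : ℕ} (hk : 1 ≤ k) {ε : ℝ} (hε : 0 < ε) :
    ∀ᶠ Δ : ℕ in atTop, 1 / BB k - ε ≤ MFD (k + 1) Δ / Δ := by
  have hB := BB_pos hk
  have hk' : (0 : ℝ) < k := by exact_mod_cast (by omega : 0 < k)
  set d : ℝ := ε * BB k ^ 2 / k with hd
  have hd0 : 0 < d := by positivity
  set η : ℝ := d / (1 + d) with hη
  have hη0 : 0 < η := by positivity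
  set lam : ℝ := Real.log ((1 + Real.exp 1 * d) / (1 + d)) with hlam
  have hlam0 : 0 < lam := by
    apply Real.log_pos
    rw [lt_div_iff₀ (by positivity)]
    have := Real.add_one_lt_exp (one_ne_zero)
    nlinarith
  have hcast : Tendsto (fun n : ℕ => (n : ℝ)) atTop atTop := tendsto_natCast_atTop_atTop
  have hlim : Tendsto (fun x : ℝ => Real.log x ^ 3 / x) atTop (𝓝 0) := by
    simpa using (Real.isLittleO_pow_log_id_atTop (n := 3)).tendsto_div_nhds_zero
  have e1 := (hlim.comp hcast).eventually (gt_mem_nhds (show (0 : ℝ) < lam * η * d / 24 by positivity))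
  have e2 := (Real.tendsto_log_atTop.comp hcast).eventually_ge_atTop 1
  filter_upwards [e1, e2, eventually_ge_atTop 1] with Δ h1 h2 hΔ1
  simp only [Function.comp_apply] at h1 h2
  have hΔ' : (0 : ℝ) < Δ := by exact_mod_cast (by omega : 0 < Δ)
  set L : ℝ := Real.log Δ with hL
  have hL0 : 0 < L := by linarith
  have hA : 4 * L ^ 2 + 2 ≤ lam * (η * d * Δ / (4 * L)) := by
    have h3 : 24 * L ^ 3 ≤ lam * η * d * Δ := by
      rw [div_lt_iff₀ hΔ'] at h1
      linarith
    have h4 : lam * (η * d * Δ / (4 * L)) = lam * η * d * Δ / (4 * L) := by ring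
    rw [h4, le_div_iff₀ (by positivity)]
    have h5 : 1 ≤ L ^ 2 := by nlinarith
    nlinarith
  have hNev : ∀ᶠ N : ℕ in atTop, Real.exp (lam - N) ≤ 1 / 8 := by
    have h3 : Tendsto (fun N : ℕ => lam - (N : ℝ)) atTop atBot := by
      simpa [sub_eq_add_neg] using tendsto_atBot_add_const_left atTop lam
        (tendsto_neg_atTop_atBot.comp hcast)
    have h4 := Real.tendsto_exp_atBot.comp h3
    filter_upwards [h4.eventually (gt_mem_nhds (show (0 : ℝ) < 1 / 8 by norm_num))] with N hN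
    exact hN.le
  have hlow : ∀ᶠ N : ℕ in atTop, (1 - 1 / (N : ℝ)) * (Δ / (BB k + k * d)) ≤ MFD (k + 1) Δ := by
    filter_upwards [hNev, eventually_ge_atTop 1] with N hN hN1
    obtain ⟨σ, hσ⟩ := exists_sigma (Δ := Δ) hN1 hd0 hη hlam hL h2 hA hN
    refine (fracDim_lower hN1 hΔ1 hk hd0 hL0.le σ hσ).trans
      (le_csSup (bddAbove_MFD (by omega) Δ) ?_)
    exact ⟨Bip (RR σ), inferInstance, inferInstance, hasMaxDeg_RR hΔ1 σ, rfl⟩
  have hlim2 : Tendsto (fun N : ℕ => (1 - 1 / (N : ℝ)) * ((Δ : ℝ) / (BB k + k * d))) atTop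
      (𝓝 ((1 - 0) * ((Δ : ℝ) / (BB k + k * d)))) :=
    Tendsto.mul_const _ (tendsto_const_nhds.sub (tendsto_const_div_atTop_nhds_zero_nat 1))
  rw [sub_zero, one_mul] at hlim2
  have h6 := le_of_tendsto hlim2 hlow
  have h7 : 1 / BB k - ε ≤ 1 / (BB k + k * d) := by
    have h8 : (k : ℝ) * d = ε * BB k ^ 2 := by rw [hd]; field_simp
    rw [h8]
    have h9 : 1 / BB k - ε = (1 - ε * BB k) / BB k := by field_simp
    rw [h9, div_le_div_iff₀ hB (by positivity)]
    have : 0 ≤ ε ^ 2 * BB k ^ 3 := by positivity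
    nlinarith
  calc 1 / BB k - ε ≤ 1 / (BB k + k * d) := h7
    _ = (Δ : ℝ) / (BB k + k * d) / Δ := by field_simp
    _ ≤ MFD (k + 1) Δ / Δ := div_le_div_of_nonneg_right h6 hΔ'.le

theorem BB_one : BB 1 = Real.exp (-1) := by
  show MM 0 + MM 1 = _
  show (0 : ℝ) + Real.exp (0 - 1) = _
  rw [zero_add, zero_sub]

theorem MM_one : MM 1 = Real.exp (-1) := by
  show Real.exp (0 - 1) = _
  rw [zero_sub]

/-- `MFD_2(Δ) / Δ → e`. -/
theorem tendsto_MFD_two : Tendsto (fun Δ : ℕ => MFD 2 Δ / Δ) atTop (𝓝 (Real.exp 1)) := by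
  have he : 1 / Real.exp (-1) = Real.exp 1 := by rw [Real.exp_neg]; simp
  have hlim : Tendsto (fun Δ : ℕ => Real.exp 1 * (1 + 2 / (Δ : ℝ))) atTop
      (𝓝 (Real.exp 1 * (1 + 0))) :=
    Tendsto.const_mul _ (tendsto_const_nhds.add (tendsto_const_div_atTop_nhds_zero_nat 2))
  rw [add_zero, mul_one] at hlim
  rw [Metric.tendsto_nhds]
  intro ε hε
  filter_upwards [hlim.eventually (gt_mem_nhds (show Real.exp 1 < Real.exp 1 + ε by linarith)),
    lower_ev (le_refl 1) (half_pos hε), eventually_ge_atTop 1] with Δ h1 h2 hΔ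
  have hΔ' : (0 : ℝ) < Δ := by exact_mod_cast (by omega : 0 < Δ)
  rw [BB_one, he] at h2
  have h3 := div_le_div_of_nonneg_right (MFD_le (le_refl 1) Δ) hΔ'.le
  have h4 : ((Δ : ℝ) + 2) / MM 1 / Δ = Real.exp 1 * (1 + 2 / (Δ : ℝ)) := by
    rw [MM_one, ← he]
    field_simp
  rw [h4] at h3
  rw [Real.dist_eq, abs_lt]
  constructor
  · linarith
  · linarith

/-- `MFD_t(Δ) ~ Δ` as `t, Δ → ∞`. -/
theorem joint {ε : ℝ} (hε : 0 < ε) : ∃ N : ℕ, ∀ t Δ : ℕ, N ≤ t → N ≤ Δ →
    |MFD t Δ / Δ - 1| ≤ ε := by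
  have h1 : Tendsto (fun n : ℕ => (1 + 2 / (n : ℝ)) / MM n) atTop (𝓝 ((1 + 0) / 1)) :=
    (tendsto_const_nhds.add (tendsto_const_div_atTop_nhds_zero_nat 2)).div tendsto_MM one_ne_zero
  rw [add_zero, div_one] at h1
  obtain ⟨N, hN⟩ := eventually_atTop.1
    ((h1.eventually (gt_mem_nhds (show (1 : ℝ) < 1 + ε by linarith))).and (eventually_ge_atTop 1))
  refine ⟨N + 1, fun t Δ ht hΔ => ?_⟩
  obtain ⟨h2, h3⟩ := hN N le_rfl
  obtain ⟨k, rfl⟩ : ∃ k, t = k + 1 := ⟨t - 1, by omega⟩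
  have hkN : N ≤ k := by omega
  have hN' : (0 : ℝ) < N := by exact_mod_cast (by omega : 0 < N)
  have hΔ' : (0 : ℝ) < Δ := by exact_mod_cast (by omega : 0 < Δ)
  have hNΔ : (N : ℝ) ≤ Δ := by exact_mod_cast (by omega : N ≤ Δ)
  have hMN := MM_pos h3
  have hMk := MM_pos (h3.trans hkN)
  have hmono : MM N ≤ MM k := monotone_nat_of_le_succ MM_mono_succ hkN
  rw [abs_le]
  constructor
  · have h4 := MFD_std (t := k + 1) (by omega) Δ
    have h5 : 1 ≤ MFD (k + 1) Δ / Δ := by
      rw [le_div_iff₀ hΔ']; linarith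
    linarith
  · have h4 := div_le_div_of_nonneg_right (MFD_le (h3.trans hkN) Δ) hΔ'.le
    have h5 : ((Δ : ℝ) + 2) / MM k / Δ = (1 + 2 / (Δ : ℝ)) / MM k := by
      field_simp
    rw [h5] at h4
    have h6 : (1 + 2 / (Δ : ℝ)) / MM k ≤ (1 + 2 / (N : ℝ)) / MM N := by
      refine div_le_div₀ (by positivity) ?_ hMN hmono
      have := div_le_div_of_nonneg_left (show (0 : ℝ) ≤ 2 by norm_num) hN' hNΔ
      linarith
    linarith

end Pool.Agent.W_MP_2ea9c5_h26
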