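import Pool.Agent.W_MP_2ea9c5_h26.Upper2
import Pool.Agent.W_MP_2ea9c5_h26.Bip

/-!
`MFLD_t(Δ) ~ Δ / (2 log Δ)`.
-/

namespace Pool.Agent.W_MP_2ea9c5_h26

open Finset Filter Topology

theorem MFLD_lower {t Δ : ℕ} (ht : 2 ≤ t) (hΔ : 1 ≤ Δ) {η Λ : ℝ} (hη : 0 < η) (hη1 : η ≤ 1)
    (hΛ : 0 < Λ) (hρ : Real.exp 1 * (4 * Δ / (η * Λ)) * Real.exp (-((1 - η) * Λ)) ≤ 1 / 2) :
    (Δ : ℝ) / (2 * Λ) ≤ MFLD t Δ := by
  have h1 : ∀ n : ℕ, 0 < n → (1 - (Δ : ℝ) / n) * (Δ / (2 * Λ)) ≤ MFLD t Δ := by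
    intro n hn
    obtain ⟨σ, hσ⟩ := locDim_lower (n := n) (Δ := Δ) hn hΔ hη hη1 hΛ hρ
    refine (hσ t ht).trans (le_csSup (bddAbove_MFLD ht Δ) ?_)
    exact ⟨Bip (RR σ), inferInstance, inferInstance, hasMaxDeg_RR hΔ σ, rfl⟩
  have h2 : Tendsto (fun n : ℕ => (1 - (Δ : ℝ) / n) * ((Δ : ℝ) / (2 * Λ))) atTop
      (𝓝 ((1 - 0) * ((Δ : ℝ) / (2 * Λ)))) := by
    refine Tendsto.mul_const _ (tendsto_const_nhds.sub ?_)
    exact tendsto_const_div_atTop_nhds_zero_nat _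
  rw [sub_zero, one_mul] at h2
  refine le_of_tendsto h2 ?_
  filter_upwards [eventually_gt_atTop 0] with n hn
  exact h1 n hn

theorem MFLD_upper {t Δ q m : ℕ} {c : ℝ} (ht : 2 ≤ t) (hq : 0 < q) (hc : 0 < c) (hcq : c < q)
    (hΔ : Δ < m * q) :
    MFLD t Δ ≤ (∑ j : Fin m, 1 / (1 - pp q c j) ^ JJ q j) + ((Δ : ℝ) + 2 * q) / (2 * c) := by
  unfold MFLD
  refine Real.sSup_le ?_ ?_
  · rintro x ⟨α, i1, i2, h, rfl⟩
    haveI : Nonempty α := ⟨h.2.choose⟩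
    exact locDim_upper ht hq hc hcq hΔ h.1
  · refine add_nonneg (Finset.sum_nonneg fun j _ => ?_) (by positivity)
    have h3 : 0 < 1 - pp q c j := by linarith [pp_lt_one hq hcq j]
    positivity

/-- `1 / (1 - c/J)^J ≤ exp ((1 + δ) c)` if `c / J ≤ δ / (1 + δ)`. -/
theorem one_div_pow_le {c δ : ℝ} {J : ℕ} (hJ : 0 < J) (hc : 0 < c) (hδ : 0 < δ)
    (h : c / J ≤ δ / (1 + δ)) : 1 / (1 - c / J) ^ J ≤ Real.exp ((1 + δ) * c) := by
  have hJ' : (0 : ℝ) < J := by exact_mod_cast hJ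
  set u : ℝ := c / J with hu
  have hu0 : 0 < u := by positivity
  have hd1 : δ / (1 + δ) = 1 - 1 / (1 + δ) := by field_simp; ring
  have h1 : 1 / (1 + δ) ≤ 1 - u := by linarith
  have h1' : 0 < 1 / (1 + δ) := by positivity
  have hu1 : 0 < 1 - u := by linarith
  have h2 : 1 / (1 - u) ≤ 1 + δ := by
    rw [div_le_iff₀ hu1]
    have := mul_le_mul_of_nonneg_left h1 (by positivity : (0 : ℝ) ≤ 1 + δ)
    rwa [mul_one_div_cancel (by positivity)] at this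
  have h3 : 1 / (1 - u) = 1 + u / (1 - u) := by field_simp; ring
  have h4 : 1 / (1 - u) ≤ Real.exp ((1 + δ) * u) := by
    have h5 := Real.add_one_le_exp ((1 + δ) * u)
    have h6 : u / (1 - u) ≤ (1 + δ) * u := by
      rw [div_eq_mul_one_div, mul_comm]
      exact mul_le_mul_of_nonneg_right h2 hu0.le
    linarith
  calc 1 / (1 - u) ^ J = (1 / (1 - u)) ^ J := by rw [one_div_pow]
    _ ≤ Real.exp ((1 + δ) * u) ^ J := pow_le_pow_left₀ (by positivity) h4 _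
    _ = Real.exp ((1 + δ) * c) := by
        rw [← Real.exp_nat_mul]
        congr 1
        rw [hu]; field_simp

theorem upper_eventually {ε : ℝ} (hε : 0 < ε) : ∀ᶠ Δ : ℕ in atTop, ∀ t : ℕ, 2 ≤ t →
    MFLD t Δ * Real.log Δ / Δ ≤ 1 / 2 + ε := by
  -- choose the parameters
  obtain ⟨δ, hδ0, hδ1, m, hm, hpar⟩ : ∃ δ : ℝ, 0 < δ ∧ δ < 1 ∧ ∃ m : ℕ, 0 < m ∧
      (1 + 2 / (m : ℝ)) / (2 * (1 - δ)) ≤ 1 / 2 + ε / 4 := by
    set η : ℝ := min ε 1 with hη
    have hη0 : 0 < η := lt_min hε one_pos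
    have hη1 : η ≤ 1 := min_le_right _ _
    have hηε : η ≤ ε := min_le_left _ _
    obtain ⟨m, hm⟩ := exists_nat_gt (16 / η)
    have hm0 : (0 : ℝ) < m := lt_trans (by positivity) hm
    refine ⟨η / 8, by positivity, by linarith, m, by exact_mod_cast hm0, ?_⟩
    rw [div_le_iff₀ (by nlinarith)]
    have h1 : 2 / (m : ℝ) ≤ η / 8 := by
      rw [div_le_div_iff₀ hm0 (by norm_num)]
      rw [div_lt_iff₀ hη0] at hm
      linarith
    nlinarith
  have hm' : (0 : ℝ) < m := by exact_mod_cast hm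
  -- limits
  have hlim1 : Tendsto (fun x : ℝ => Real.log x / x) atTop (𝓝 0) := by
    simpa using (isLittleO_log_rpow_atTop (one_pos)).tendsto_div_nhds_zero
  have hlim2 : Tendsto (fun x : ℝ => Real.log x / x ^ (δ ^ 2)) atTop (𝓝 0) :=
    (isLittleO_log_rpow_atTop (by positivity)).tendsto_div_nhds_zero
  have hcast : Tendsto (fun n : ℕ => (n : ℝ)) atTop atTop := tendsto_natCast_atTop_atTop
  have e1 := (hlim1.comp hcast).eventually (gt_mem_nhds (show (0 : ℝ) < δ / (1 + δ) / m by positivity))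
  have e2 := (hlim2.comp hcast).eventually (gt_mem_nhds (show (0 : ℝ) < ε / 4 / m by positivity))
  have e3 := (tendsto_const_div_atTop_nhds_zero_nat (1 / (1 - δ) : ℝ)).eventually
    (gt_mem_nhds (show (0 : ℝ) < ε / 4 by positivity))
  filter_upwards [e1, e2, e3, eventually_ge_atTop 2] with Δ h1 h2 h3 hΔ2 t ht
  simp only [Function.comp_apply] at h1 h2
  have hΔ' : (0 : ℝ) < Δ := by exact_mod_cast (by omega : 0 < Δ)
  have hΔ1 : (1 : ℝ) < Δ := by exact_mod_cast (by omega : 1 < Δ)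
  have hlog : 0 < Real.log Δ := Real.log_pos hΔ1
  set q : ℕ := Δ / m + 1 with hq
  set c : ℝ := (1 - δ) * Real.log Δ with hc
  have hq0 : 0 < q := Nat.succ_pos _
  have hq0' : (0 : ℝ) < q := by exact_mod_cast hq0
  have hc0 : 0 < c := mul_pos (by linarith) hlog
  have hmq : Δ < m * q := by
    rw [hq, mul_add, mul_one]
    have h4 := Nat.div_add_mod Δ m
    have h5 := Nat.mod_lt Δ hm
    omega
  have hq_ge : (Δ : ℝ) / m ≤ q := by
    rw [div_le_iff₀ hm']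
    have : (Δ : ℝ) ≤ ((m * q : ℕ) : ℝ) := by exact_mod_cast hmq.le
    push_cast at this
    linarith
  have hq_le : (q : ℝ) ≤ Δ / m + 1 := by
    rw [hq]
    push_cast
    have : ((Δ / m : ℕ) : ℝ) ≤ Δ / m := Nat.cast_div_le
    linarith
  have hcq' : c / q ≤ δ / (1 + δ) := by
    have h6 : c ≤ Real.log Δ := by
      rw [hc]; nlinarith
    calc c / q ≤ Real.log Δ / (Δ / m) := div_le_div₀ hlog.le h6 (by positivity) hq_ge
      _ = Real.log Δ / Δ * m := by field_simp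
      _ ≤ δ / (1 + δ) / m * m := mul_le_mul_of_nonneg_right h1.le hm'.le
      _ = δ / (1 + δ) := by field_simp
  have hcq : c < q := by
    have h7 : δ / (1 + δ) < 1 := by rw [div_lt_one (by positivity)]; linarith
    have h8 := hcq'.trans_lt h7
    rwa [div_lt_one hq0'] at h8
  have hU := MFLD_upper ht hq0 hc0 hcq hmq
  -- first part of the bound
  have hsum : (∑ j : Fin m, 1 / (1 - pp q c j) ^ JJ q j) ≤ m * (Δ : ℝ) ^ (1 - δ ^ 2) := by
    have h9 : ∀ j : Fin m, 1 / (1 - pp q c j) ^ JJ q j ≤ (Δ : ℝ) ^ (1 - δ ^ 2) := by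
      intro j
      have hJ := JJ_pos hq0 (j : ℕ)
      have hJq : (q : ℝ) ≤ JJ q j := by
        have : q ≤ JJ q j := Nat.le_mul_of_pos_left q (Nat.succ_pos _)
        exact_mod_cast this
      have h10 : c / (JJ q j : ℝ) ≤ δ / (1 + δ) :=
        (div_le_div_of_nonneg_left hc0.le hq0' hJq).trans hcq'
      refine (one_div_pow_le hJ hc0 hδ0 h10).trans (le_of_eq ?_)
      rw [Real.rpow_def_of_pos hΔ']
      congr 1
      rw [hc]; ring
    calc _ ≤ ∑ _j : Fin m, (Δ : ℝ) ^ (1 - δ ^ 2) := Finset.sum_le_sum fun j _ => h9 j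
      _ = m * (Δ : ℝ) ^ (1 - δ ^ 2) := by simp
  have hA : m * (Δ : ℝ) ^ (1 - δ ^ 2) * Real.log Δ / Δ ≤ ε / 4 := by
    have h11 : (Δ : ℝ) ^ (1 - δ ^ 2) = Δ / (Δ : ℝ) ^ (δ ^ 2) := by
      rw [Real.rpow_sub hΔ', Real.rpow_one]
    have h12 : 0 < (Δ : ℝ) ^ (δ ^ 2) := Real.rpow_pos_of_pos hΔ' _
    calc m * (Δ : ℝ) ^ (1 - δ ^ 2) * Real.log Δ / Δ = m * (Real.log Δ / (Δ : ℝ) ^ (δ ^ 2)) := by
          rw [h11]; field_simp
      _ ≤ m * (ε / 4 / m) := mul_le_mul_of_nonneg_left h2.le hm'.le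
      _ = ε / 4 := by field_simp
  have hB : ((Δ : ℝ) + 2 * q) / (2 * c) * Real.log Δ / Δ ≤ 1 / 2 + ε / 4 + ε / 4 := by
    have h13 : ((Δ : ℝ) + 2 * q) / (2 * c) * Real.log Δ / Δ = ((Δ : ℝ) + 2 * q) / (2 * (1 - δ) * Δ) := by
      rw [hc]
      have : 1 - δ ≠ 0 := by linarith
      field_simp
    have h14 : ((Δ : ℝ) + 2 * q) / (2 * (1 - δ) * Δ) ≤ ((Δ : ℝ) + 2 * (Δ / m + 1)) / (2 * (1 - δ) * Δ) :=
      div_le_div_of_nonneg_right (by linarith) (by have : 0 < 1 - δ := by linarith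
                                                   positivity)
    have h15 : ((Δ : ℝ) + 2 * (Δ / m + 1)) / (2 * (1 - δ) * Δ) =
        (1 + 2 / (m : ℝ)) / (2 * (1 - δ)) + (1 / (1 - δ)) / Δ := by
      have : 1 - δ ≠ 0 := by linarith
      field_simp
      ring
    rw [h13]
    refine h14.trans ?_
    rw [h15]
    linarith
  calc MFLD t Δ * Real.log Δ / Δ
      ≤ (m * (Δ : ℝ) ^ (1 - δ ^ 2) + ((Δ : ℝ) + 2 * q) / (2 * c)) * Real.log Δ / Δ := by
        refine div_le_div_of_nonneg_right ?_ hΔ'.le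
        exact mul_le_mul_of_nonneg_right (hU.trans (by linarith)) hlog.le
    _ = m * (Δ : ℝ) ^ (1 - δ ^ 2) * Real.log Δ / Δ + ((Δ : ℝ) + 2 * q) / (2 * c) * Real.log Δ / Δ := by
        ring
    _ ≤ 1 / 2 + ε := by linarith

theorem lower_eventually {ε : ℝ} (hε : 0 < ε) : ∀ᶠ Δ : ℕ in atTop, ∀ t : ℕ, 2 ≤ t →
    1 / 2 - ε ≤ MFLD t Δ * Real.log Δ / Δ := by
  set η : ℝ := min (ε / 2) (1 / 3) with hη
  have hη0 : 0 < η := lt_min (by linarith) (by norm_num)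
  have hη3 : η ≤ 1 / 3 := min_le_right _ _
  have hηε : η ≤ ε / 2 := min_le_left _ _
  have hcast : Tendsto (fun n : ℕ => (n : ℝ)) atTop atTop := tendsto_natCast_atTop_atTop
  have e1 := ((tendsto_rpow_neg_atTop hη0).comp hcast).eventually
    (gt_mem_nhds (show (0 : ℝ) < η / (8 * Real.exp 1) by positivity))
  have e2 := (Real.tendsto_log_atTop.comp hcast).eventually_ge_atTop 1
  filter_upwards [e1, e2, eventually_ge_atTop 2] with Δ h1 h2 hΔ2 t ht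
  simp only [Function.comp_apply] at h1 h2
  have hΔ' : (0 : ℝ) < Δ := by exact_mod_cast (by omega : 0 < Δ)
  have hlog : 0 < Real.log Δ := by linarith
  set Λ : ℝ := (1 + 3 * η) * Real.log Δ with hΛ
  have hΛ1 : Real.log Δ ≤ Λ := by rw [hΛ]; nlinarith
  have hΛ0 : 0 < Λ := by linarith
  have hexp : Real.exp (-((1 - η) * Λ)) ≤ (Δ : ℝ) ^ (-η) / Δ := by
    have h3 : (1 + η) * Real.log Δ ≤ (1 - η) * Λ := by
      rw [hΛ, ← mul_assoc]
      refine mul_le_mul_of_nonneg_right ?_ hlog.le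
      nlinarith
    calc Real.exp (-((1 - η) * Λ)) ≤ Real.exp (-((1 + η) * Real.log Δ)) := Real.exp_le_exp.2 (by linarith)
      _ = Real.exp (Real.log Δ * (-η)) * Real.exp (-Real.log Δ) := by rw [← Real.exp_add]; congr 1; ring
      _ = (Δ : ℝ) ^ (-η) / Δ := by
          rw [Real.exp_neg (Real.log Δ), Real.exp_log hΔ', Real.rpow_def_of_pos hΔ', div_eq_mul_inv]
  have hρ : Real.exp 1 * (4 * Δ / (η * Λ)) * Real.exp (-((1 - η) * Λ)) ≤ 1 / 2 := by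
    have h4 : 4 * (Δ : ℝ) / (η * Λ) ≤ 4 * Δ / η := by
      apply div_le_div_of_nonneg_left (by positivity) hη0
      nlinarith
    calc Real.exp 1 * (4 * Δ / (η * Λ)) * Real.exp (-((1 - η) * Λ))
        ≤ Real.exp 1 * (4 * Δ / η) * ((Δ : ℝ) ^ (-η) / Δ) := by
          refine mul_le_mul (mul_le_mul_of_nonneg_left h4 (Real.exp_nonneg _)) hexp
            (Real.exp_nonneg _) (by positivity)
      _ = Real.exp 1 * 4 / η * (Δ : ℝ) ^ (-η) := by field_simp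
      _ ≤ Real.exp 1 * 4 / η * (η / (8 * Real.exp 1)) :=
          mul_le_mul_of_nonneg_left h1.le (by positivity)
      _ = 1 / 2 := by
          have := (Real.exp_pos 1).ne'
          field_simp
          norm_num
  have h5 := MFLD_lower ht (by omega : 1 ≤ Δ) hη0 (by linarith) hΛ0 hρ
  have h6 : 1 / 2 - ε ≤ 1 / (2 * (1 + 3 * η)) := by
    rw [le_div_iff₀ (by positivity)]
    nlinarith
  calc 1 / 2 - ε ≤ 1 / (2 * (1 + 3 * η)) := h6
    _ = (Δ : ℝ) / (2 * Λ) * Real.log Δ / Δ := by rw [hΛ]; field_simp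
    _ ≤ MFLD t Δ * Real.log Δ / Δ := by
        refine div_le_div_of_nonneg_right ?_ hΔ'.le
        exact mul_le_mul_of_nonneg_right h5 hlog.le

/-- `MFLD_t(Δ) log Δ / Δ → 1/2`, uniformly in `t ≥ 2`. -/
theorem main : ∀ ε : ℝ, 0 < ε → ∃ Δ₀ : ℕ, ∀ Δ : ℕ, Δ₀ ≤ Δ → ∀ t : ℕ, 2 ≤ t →
    |MFLD t Δ * Real.log Δ / Δ - 1 / 2| ≤ ε := by
  intro ε hε
  obtain ⟨Δ₀, h⟩ := eventually_atTop.1 ((lower_eventually hε).and (upper_eventually hε))
  refine ⟨Δ₀, fun Δ hΔ t ht => ?_⟩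
  obtain ⟨h1, h2⟩ := h Δ hΔ
  rw [abs_le]
  constructor
  · linarith [h1 t ht]
  · linarith [h2 t ht]

end Pool.Agent.W_MP_2ea9c5_h26
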