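import Pool.Agent.W_MP_2ea9c5_h26.Basic

namespace Pool.Agent.W_MP_2ea9c5_h26

open Finset

section product

variable {α : Type} [Fintype α] [DecidableEq α]

/-- product weights of subsets -/
noncomputable def mu (p : α → ℝ) (R : Finset α) : ℝ := ∏ z, if z ∈ R then p z else 1 - p z

theorem mu_nonneg {p : α → ℝ} (h0 : ∀ z, 0 ≤ p z) (h1 : ∀ z, p z ≤ 1) (R : Finset α) :
    0 ≤ mu p R :=
  Finset.prod_nonneg fun z _ => by
    split_ifs
    · exact h0 z
    · linarith [h1 z]

theorem sum_mu (p : α → ℝ) (A U : Finset α) (h : Disjoint A U) :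
    ∑ R : Finset α, (if A ⊆ R ∧ Disjoint R U then mu p R else 0) =
      (∏ z ∈ A, p z) * ∏ z ∈ U, (1 - p z) := by
  let F : α → ℝ := fun z => if z ∈ U then 0 else p z
  let G : α → ℝ := fun z => if z ∈ A then 0 else 1 - p z
  have h1 : ∀ R : Finset α, (if A ⊆ R ∧ Disjoint R U then mu p R else 0) =
      (∏ z ∈ R, F z) * ∏ z ∈ univ \ R, G z := by
    intro R
    by_cases hA : A ⊆ R
    · by_cases hU : Disjoint R U
      · rw [if_pos ⟨hA, hU⟩]
        have h2 : ∏ z ∈ R, F z = ∏ z ∈ R, p z := by
          refine Finset.prod_congr rfl fun z hz => ?_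
          simp only [F]
          rw [if_neg (Finset.disjoint_left.1 hU hz)]
        have h3 : ∏ z ∈ univ \ R, G z = ∏ z ∈ univ \ R, (1 - p z) := by
          refine Finset.prod_congr rfl fun z hz => ?_
          simp only [G]
          rw [if_neg fun h => (Finset.mem_sdiff.1 hz).2 (hA h)]
        rw [h2, h3]
        unfold mu
        rw [← Finset.prod_sdiff (Finset.subset_univ R), mul_comm]
        congr 1
        · exact Finset.prod_congr rfl fun z hz => if_pos hz
        · exact Finset.prod_congr rfl fun z hz => if_neg (Finset.mem_sdiff.1 hz).2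
      · rw [if_neg fun h => hU h.2]
        obtain ⟨z, hzR, hzU⟩ := Finset.not_disjoint_iff.1 hU
        rw [Finset.prod_eq_zero hzR (by simp only [F]; rw [if_pos hzU]), zero_mul]
    · rw [if_neg fun h => hA h.1]
      obtain ⟨z, hzA, hzR⟩ := Finset.not_subset.1 hA
      rw [Finset.prod_eq_zero (s := univ \ R) (Finset.mem_sdiff.2 ⟨Finset.mem_univ z, hzR⟩)
        (by simp only [G]; rw [if_pos hzA]), mul_zero]
  rw [Finset.sum_congr rfl fun R _ => h1 R]
  have h4 := Finset.prod_add F G (univ : Finset α)
  rw [Finset.powerset_univ] at h4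
  rw [← h4]
  have h5 : ∀ z, F z + G z = (if z ∈ A then p z else 1) * (if z ∈ U then 1 - p z else 1) := by
    intro z
    simp only [F, G]
    by_cases hA : z ∈ A
    · have hU : z ∉ U := Finset.disjoint_left.1 h hA
      simp [hA, hU]
    · by_cases hU : z ∈ U
      · simp [hA, hU]
      · simp [hA, hU]
  rw [Finset.prod_congr rfl fun z _ => h5 z, Finset.prod_mul_distrib]
  congr 1
  · rw [Finset.prod_ite_mem, Finset.univ_inter]
  · rw [Finset.prod_ite_mem, Finset.univ_inter]

theorem sum_mu_mem (p : α → ℝ) (x : α) : ∑ R : Finset α, (if x ∈ R then mu p R else 0) = p x := by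
  have h := sum_mu p {x} ∅ (Finset.disjoint_empty_right _)
  simpa using h

theorem sum_mu_disj (p : α → ℝ) (U : Finset α) :
    ∑ R : Finset α, (if Disjoint R U then mu p R else 0) = ∏ z ∈ U, (1 - p z) := by
  have h := sum_mu p ∅ U (Finset.disjoint_empty_left _)
  simpa using h

theorem sum_mu_all (p : α → ℝ) : ∑ R : Finset α, mu p R = 1 := by
  have h := sum_mu p ∅ ∅ (Finset.disjoint_empty_left _)
  simpa using h

theorem sum_mu_mem_disj (p : α → ℝ) (x : α) (U : Finset α) (hx : x ∉ U) :
    ∑ R : Finset α, (if x ∈ R ∧ Disjoint R U then mu p R else 0) = p x * ∏ z ∈ U, (1 - p z) := by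
  have h := sum_mu p {x} U (Finset.disjoint_singleton_left.2 hx)
  simpa using h

end product

section scheme

variable {α : Type} [Fintype α] [DecidableEq α] (r : α → α → Prop) [DecidableRel r] (q m : ℕ)
  (c : ℝ)

/-- the elements related to `y` -/
def up (y : α) : Finset α := univ.filter fun z => r y z

/-- the band of `y` -/
def band (y : α) : ℕ := ((up r y).card - 1) / q

/-- the upper end of the `j`-th band -/
def JJ (j : ℕ) : ℕ := (j + 1) * q

/-- the sampling probability for the `j`-th band -/
noncomputable def pp (j : ℕ) : ℝ := c / (JJ q j : ℝ)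

/-- the weight of the `j`-th band -/
noncomputable def WW (j : ℕ) : ℝ := 1 / (pp q c j * (1 - pp q c j) ^ JJ q j)

/-- the thinning probabilities -/
noncomputable def th (j : ℕ) (z : α) : ℝ := (1 - pp q c j) ^ (JJ q j - (up r z).card)

/-- the weights of the family -/
noncomputable def CC (i : Fin m × Finset α × Finset α) : ℝ :=
  WW q c i.1 * (mu (fun _ => pp q c i.1) i.2.1 * mu (th r q c i.1) i.2.2)

/-- the partial functions of the family -/
def FF (i : Fin m × Finset α × Finset α) (z : α) : Option Bool :=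
  if z ∈ i.2.1 then some false
  else if z ∈ i.2.2 ∧ band r q z = i.1 ∧ Disjoint i.2.1 (up r z) then some true else none

variable {r q m c}

theorem JJ_pos (hq : 0 < q) (j : ℕ) : 0 < JJ q j := Nat.mul_pos (Nat.succ_pos j) hq

theorem pp_pos (hq : 0 < q) (hc : 0 < c) (j : ℕ) : 0 < pp q c j := by
  unfold pp
  have := JJ_pos hq j
  positivity

theorem pp_lt_one (hq : 0 < q) (hcq : c < q) (j : ℕ) : pp q c j < 1 := by
  unfold pp
  have h := JJ_pos hq j
  rw [div_lt_one (by exact_mod_cast h)]
  refine hcq.trans_le ?_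
  have : q ≤ JJ q j := Nat.le_mul_of_pos_left q (Nat.succ_pos j)
  exact_mod_cast this

theorem WW_pos (hq : 0 < q) (hc : 0 < c) (hcq : c < q) (j : ℕ) : 0 < WW q c j := by
  unfold WW
  have h1 := pp_pos hq hc j
  have h2 := pp_lt_one hq hcq j
  have h3 : 0 < 1 - pp q c j := by linarith
  positivity

theorem th_nonneg (hq : 0 < q) (hcq : c < q) (j : ℕ) (z : α) : 0 ≤ th r q c j z := by
  unfold th
  have h2 := pp_lt_one hq hcq j
  have h3 : 0 < 1 - pp q c j := by linarith
  positivity

theorem th_le_one (hq : 0 < q) (hc : 0 < c) (hcq : c < q) (j : ℕ) (z : α) : th r q c j z ≤ 1 := by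
  unfold th
  have h1 := pp_pos hq hc j
  have h2 := pp_lt_one hq hcq j
  exact pow_le_one₀ (by linarith) (by linarith)

theorem CC_nonneg (hq : 0 < q) (hc : 0 < c) (hcq : c < q) (i : Fin m × Finset α × Finset α) :
    0 ≤ CC r q m c i := by
  unfold CC
  refine mul_nonneg (WW_pos hq hc hcq _).le (mul_nonneg ?_ ?_)
  · exact mu_nonneg (fun _ => (pp_pos hq hc _).le) (fun _ => (pp_lt_one hq hcq _).le) _
  · exact mu_nonneg (fun _ => th_nonneg hq hcq _ _) (fun _ => th_le_one hq hc hcq _ _) _

theorem FF_mono (i : Fin m × Finset α × Finset α) (u v : α) (h : r u v)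
    (hu : FF r q m i u = some true) (hv : FF r q m i v = some false) : False := by
  unfold FF at hu hv
  have hvR : v ∈ i.2.1 := by
    by_contra hc
    rw [if_neg hc] at hv
    split_ifs at hv
    simp at hv
  by_cases huR : u ∈ i.2.1
  · rw [if_pos huR] at hu; simp at hu
  · rw [if_neg huR] at hu
    by_cases hP : u ∈ i.2.2 ∧ band r q u = i.1 ∧ Disjoint i.2.1 (up r u)
    · refine Finset.disjoint_left.1 hP.2.2 hvR ?_
      unfold up
      exact Finset.mem_filter.2 ⟨Finset.mem_univ _, h⟩
    · rw [if_neg hP] at hu; simp at hu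

theorem FF_false_iff (i : Fin m × Finset α × Finset α) (z : α) :
    FF r q m i z = some false ↔ z ∈ i.2.1 := by
  unfold FF
  split_ifs with h1 h2 <;> simp [h1]

theorem FF_true_iff (hr : ∀ z, r z z) (i : Fin m × Finset α × Finset α) (z : α) :
    FF r q m i z = some true ↔ z ∈ i.2.2 ∧ band r q z = i.1 ∧ Disjoint i.2.1 (up r z) := by
  unfold FF
  by_cases h1 : z ∈ i.2.1
  · rw [if_pos h1]
    constructor
    · intro h; simp at h
    · rintro ⟨-, -, h⟩
      exfalso
      exact Finset.disjoint_left.1 h h1 (Finset.mem_filter.2 ⟨Finset.mem_univ _, hr z⟩)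
  · rw [if_neg h1]
    by_cases h2 : z ∈ i.2.2 ∧ band r q z = i.1 ∧ Disjoint i.2.1 (up r z)
    · rw [if_pos h2]; exact ⟨fun _ => h2, fun _ => rfl⟩
    · rw [if_neg h2]; exact ⟨fun h => by simp at h, fun h => absurd h h2⟩

theorem sum_fam {P1 : ℕ → Prop} [DecidablePred P1] {P2 : ℕ → Finset α → Prop}
    [∀ j, DecidablePred (P2 j)] {P3 : Finset α → Prop} [DecidablePred P3] :
    (∑ i : Fin m × Finset α × Finset α, if P1 i.1 ∧ P2 i.1 i.2.1 ∧ P3 i.2.2 then CC r q m c i else 0) =
      ∑ j : Fin m, if P1 j then WW q c j *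
        ((∑ R : Finset α, if P2 j R then mu (fun _ => pp q c j) R else 0) *
          ∑ T : Finset α, if P3 T then mu (th r q c j) T else 0) else 0 := by
  rw [Fintype.sum_prod_type]
  refine Finset.sum_congr rfl fun j _ => ?_
  by_cases h1 : P1 j
  · rw [if_pos h1, Fintype.sum_prod_type, Finset.sum_mul_sum, Finset.mul_sum]
    refine Finset.sum_congr rfl fun R _ => ?_
    rw [Finset.mul_sum]
    refine Finset.sum_congr rfl fun T _ => ?_
    by_cases h2 : P2 j R
    · by_cases h3 : P3 T
      · simp [h1, h2, h3, CC]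
      · simp [h3]
    · simp [h2]
  · rw [if_neg h1]
    refine Finset.sum_eq_zero fun RT _ => ?_
    rw [if_neg fun h => h1 h.1]

theorem sum_false (z : α) :
    (∑ i : Fin m × Finset α × Finset α, if FF r q m i z = some false then CC r q m c i else 0) =
      ∑ j : Fin m, WW q c j * pp q c j := by
  have h := sum_fam (r := r) (q := q) (m := m) (c := c) (P1 := fun _ => True) (P2 := fun _ R => z ∈ R)
    (P3 := fun _ => True)
  simp only [true_and, and_true, if_true] at h
  rw [Finset.sum_congr rfl fun i _ => if_congr (FF_false_iff (r := r) (q := q) (m := m) i z) rfl rfl, h]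
  refine Finset.sum_congr rfl fun j _ => ?_
  rw [sum_mu_mem, sum_mu_all, mul_one]

theorem band_spec (hq : 0 < q) (z : α) : (up r z).card ≤ JJ q (band r q z) := by
  unfold JJ band
  have h1 := Nat.div_add_mod ((up r z).card - 1) q
  have h2 := Nat.mod_lt ((up r z).card - 1) hq
  have h3 : (((up r z).card - 1) / q + 1) * q = q * (((up r z).card - 1) / q) + q := by ring
  rw [h3]
  omega

theorem JJ_band_le (hr : ∀ z, r z z) (z : α) : JJ q (band r q z) ≤ (up r z).card - 1 + q := by
  unfold JJ band
  have h3 : (((up r z).card - 1) / q + 1) * q = ((up r z).card - 1) / q * q + q := by ring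
  rw [h3]
  exact Nat.add_le_add_right (Nat.div_mul_le_self _ _) _

theorem th_mul (hq : 0 < q) (z : α) :
    (∏ _z' ∈ up r z, (1 - pp q c (band r q z))) * th r q c (band r q z) z =
      (1 - pp q c (band r q z)) ^ JJ q (band r q z) := by
  unfold th
  rw [Finset.prod_const, ← pow_add]
  congr 1
  have := band_spec (r := r) hq z
  omega

theorem sum_band (hm : ∀ z, band r q z < m) (z : α) (g : ℕ → ℝ) :
    (∑ j : Fin m, if band r q z = j then g j else 0) = g (band r q z) := by
  rw [Finset.sum_eq_single (⟨band r q z, hm z⟩ : Fin m)]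
  · simp
  · intro j _ hj
    rw [if_neg]
    intro h
    apply hj
    exact Fin.ext h.symm
  · intro h; exact absurd (Finset.mem_univ _) h

theorem sum_true (hr : ∀ z, r z z) (hq : 0 < q) (hc : 0 < c) (hcq : c < q)
    (hm : ∀ z, band r q z < m) (z : α) :
    (∑ i : Fin m × Finset α × Finset α, if FF r q m i z = some true then CC r q m c i else 0) =
      1 / pp q c (band r q z) := by
  have h := sum_fam (r := r) (q := q) (m := m) (c := c) (P1 := fun j => band r q z = j)
    (P2 := fun _ R => Disjoint R (up r z)) (P3 := fun T => z ∈ T)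
  have h2 : (∑ i : Fin m × Finset α × Finset α, if FF r q m i z = some true then CC r q m c i else 0) =
      ∑ i : Fin m × Finset α × Finset α,
        if band r q z = i.1 ∧ Disjoint i.2.1 (up r z) ∧ z ∈ i.2.2 then CC r q m c i else 0 := by
    refine Finset.sum_congr rfl fun i _ => if_congr ?_ rfl rfl
    rw [FF_true_iff hr]
    tauto
  rw [h2, h, sum_band hm z fun j => WW q c j *
        ((∑ R : Finset α, if Disjoint R (up r z) then mu (fun _ => pp q c j) R else 0) *
          ∑ T : Finset α, if z ∈ T then mu (th r q c j) T else 0)]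
  rw [sum_mu_disj, sum_mu_mem, th_mul hq]
  unfold WW
  have h1 := pp_pos hq hc (band r q z)
  have h3 : 0 < 1 - pp q c (band r q z) := by linarith [pp_lt_one hq hcq (band r q z)]
  field_simp

theorem sum_cover (hr : ∀ z, r z z) (hq : 0 < q) (hc : 0 < c) (hcq : c < q)
    (hm : ∀ z, band r q z < m) (x y : α) (hxy : ¬ r y x) :
    (∑ i : Fin m × Finset α × Finset α,
      if FF r q m i x = some false ∧ FF r q m i y = some true then CC r q m c i else 0) = 1 := by
  have h := sum_fam (r := r) (q := q) (m := m) (c := c) (P1 := fun j => band r q y = j)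
    (P2 := fun _ R => x ∈ R ∧ Disjoint R (up r y)) (P3 := fun T => y ∈ T)
  have h2 : (∑ i : Fin m × Finset α × Finset α,
      if FF r q m i x = some false ∧ FF r q m i y = some true then CC r q m c i else 0) =
      ∑ i : Fin m × Finset α × Finset α,
        if band r q y = i.1 ∧ (x ∈ i.2.1 ∧ Disjoint i.2.1 (up r y)) ∧ y ∈ i.2.2 then CC r q m c i
          else 0 := by
    refine Finset.sum_congr rfl fun i _ => if_congr ?_ rfl rfl
    rw [FF_true_iff hr, FF_false_iff]
    tauto
  have hx : x ∉ up r y := fun h => hxy (Finset.mem_filter.1 h).2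
  rw [h2, h, sum_band hm y fun j => WW q c j *
        ((∑ R : Finset α, if x ∈ R ∧ Disjoint R (up r y) then mu (fun _ => pp q c j) R else 0) *
          ∑ T : Finset α, if y ∈ T then mu (th r q c j) T else 0)]
  rw [sum_mu_mem_disj _ _ _ hx, sum_mu_mem, mul_assoc (pp q c (band r q y)), th_mul hq]
  unfold WW
  have h1 := pp_pos hq hc (band r q y)
  have h3 : 0 < 1 - pp q c (band r q y) := by linarith [pp_lt_one hq hcq (band r q y)]
  field_simp

theorem sum_load (hr : ∀ z, r z z) (hq : 0 < q) (hc : 0 < c) (hcq : c < q)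
    (hm : ∀ z, band r q z < m) (z : α) :
    (∑ i : Fin m × Finset α × Finset α, if FF r q m i z ≠ none then CC r q m c i else 0) ≤
      (∑ j : Fin m, 1 / (1 - pp q c j) ^ JJ q j) + (((up r z).card : ℝ) - 1 + q) / c := by
  have h1 : (∑ i : Fin m × Finset α × Finset α, if FF r q m i z ≠ none then CC r q m c i else 0) =
      (∑ i : Fin m × Finset α × Finset α, if FF r q m i z = some false then CC r q m c i else 0) +
      (∑ i : Fin m × Finset α × Finset α, if FF r q m i z = some true then CC r q m c i else 0) := by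
    rw [← Finset.sum_add_distrib]
    refine Finset.sum_congr rfl fun i _ => ?_
    rcases h : FF r q m i z with _ | b
    · simp
    · cases b <;> simp
  rw [h1, sum_false, sum_true hr hq hc hcq hm]
  refine add_le_add (le_of_eq (Finset.sum_congr rfl fun j _ => ?_)) ?_
  · unfold WW
    have h1 := pp_pos hq hc j
    have h3 : 0 < 1 - pp q c j := by linarith [pp_lt_one hq hcq j]
    field_simp
  · unfold pp
    rw [one_div_div]
    apply div_le_div_of_nonneg_right _ hc.le
    have h2 := JJ_band_le (q := q) hr z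
    have h3 : 1 ≤ (up r z).card := Finset.card_pos.2 ⟨z, Finset.mem_filter.2 ⟨Finset.mem_univ _, hr z⟩⟩
    have h4 : (JJ q (band r q z) : ℝ) ≤ (((up r z).card - 1 + q : ℕ) : ℝ) := by exact_mod_cast h2
    rw [Nat.cast_add, Nat.cast_sub h3, Nat.cast_one] at h4
    exact h4

end scheme

end Pool.Agent.W_MP_2ea9c5_h26
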